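import Pool.Agent.W547.LD.Split

/-!
# The split Weil classes belonging to balanced families of orbits
-/

set_option linter.unusedSectionVars false
set_option linter.unusedVariables false

namespace Pool.Agent.W547.LD

open NumberField Pool.Agent.H204R3.CM Pool.Agent.W547.KB Equiv Module

noncomputable section

variable {L : Type} [Field L] [NumberField L] [IsCMField L] [IsGalois ℚ L]

variable {Q : Type} [Fintype Q] (j : L →+* ℂ) (N : Subgroup (L ≃ₐ[ℚ] L))
  (x : Q → Set (L ≃ₐ[ℚ] L)) (hx : ∀ q, IsHalf (x q)) [DecidableEq (Orb N x)] [Fintype (Orb N x)]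

theorem isWeilClass_trForm (hN : IsImag N) (hst : ∀ q, stab (x q) ≤ N) {n : ℕ}
    (e : Orb N x ≃ Fin n) (hn : 0 < n)
    (hbal : Balanced (fun k : Orb N x => k.2.1)) (α : L) :
    IsSplitWeilClass (prodOf j x hx) n (trForm α (fun k => orbWt j N x hx (e.symm k))) := by
  have hcard : Fintype.card (Orb N x) = n := by
    rw [Fintype.card_congr e, Fintype.card_fin]
  have h1 : ∃ m, m * 2 = n := by
    have h2 := hbal 1
    classical
    have h3 : ∑ k : Orb N x, (if (1 : L ≃ₐ[ℚ] L) ∈ k.2.1 then (1 : ℤ) else -1) = 0 := h2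
    rw [Finset.sum_ite, Finset.sum_const, Finset.sum_const, nsmul_eq_mul, nsmul_eq_mul] at h3
    have h5 := Fintype.card_subtype (fun k : Orb N x => (1 : L ≃ₐ[ℚ] L) ∈ k.2.1)
    have h6 := Fintype.card_subtype (fun k : Orb N x => ¬(1 : L ≃ₐ[ℚ] L) ∈ k.2.1)
    rw [← h5, ← h6] at h3
    have h7 := Fintype.card_subtype_compl (fun k : Orb N x => (1 : L ≃ₐ[ℚ] L) ∈ k.2.1)
    have h8 := Fintype.card_subtype_le (fun k : Orb N x => (1 : L ≃ₐ[ℚ] L) ∈ k.2.1)
    refine ⟨Fintype.card {k : Orb N x // (1 : L ≃ₐ[ℚ] L) ∈ k.2.1}, ?_⟩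
    omega
  obtain ⟨m, hm⟩ := h1
  obtain ⟨δ, d, hmem, E, W, hd, hδ, hfix, hE, hEh, hW, hWh, hWE⟩ :=
    exists_split j N x hx hN hst hbal (m := m) (by omega) (by rw [hcard, hm])
  refine ⟨?_, ?_, d, mulBy j x hx δ hmem, hd, isHom_mulBy j x hx δ hmem,
    mulBy_mulBy j x hx δ hmem d hδ, fun v k l => ?_, E, W, hE, hEh, ?_, hWh, hWE⟩
  · rw [finrank_prodOf j N x hx hN hst, Nat.card_congr e, Nat.card_eq_fintype_card,
      Fintype.card_fin]
  · refine isHodge_trForm j _ ?_ α
    intro σ
    have h1 := hbal σ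
    refine Eq.trans ?_ h1
    refine Fintype.sum_equiv e.symm _ _ fun k => ?_
    have h2 : σ ∈ St j (orbWt j N x hx (e.symm k)) ↔ σ ∈ (e.symm k).2.1 := by
      rw [St_orbWt]
    by_cases h3 : σ ∈ (e.symm k).2.1
    · rw [if_pos (h2.2 h3), if_pos h3]
    · rw [if_neg (fun h => h3 (h2.1 h)), if_neg h3]
  · rw [trForm_apply, trForm_apply]
    have h1 : ∀ w k, ev (mulBy j x hx δ hmem w) (orbWt j N x hx (e.symm k)) =
        δ * ev w (orbWt j N x hx (e.symm k)) :=
      fun w k => ev_mulBy j N x hx δ hmem hfix (e.symm k) w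
    rw [mono_scale _ _ δ h1, mono_scale _ _ δ h1]
  · rw [hW, hm, finrank_prodOf j N x hx hN hst, Nat.card_congr e, Nat.card_eq_fintype_card,
      Fintype.card_fin]

include hx in
/-- The monomials belonging to a balanced family of orbits. -/
theorem algX_orb (hN : IsImag N) (hst : ∀ q, stab (x q) ≤ N)
    (hn : Fintype.card (Orb N x) = 4 ∨ Fintype.card (Orb N x) = 6)
    (hbal : Balanced (fun k : Orb N x => k.2.1)) (X : CMAV) :
    AlgX X j (fun k : Orb N x => k.2.1) := by
  set n := Fintype.card (Orb N x) with hn'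
  let e : Orb N x ≃ Fin n := Fintype.equivFin _
  have h1 : AlgX X j (fun k : Fin n => (e.symm k).2.1) := by
    intro I hI
    refine mono_mem_of_pull j I (fun k => orbWt j N x hx (e.symm k))
      ((orbWt_injective j N x hx).comp e.symm.injective) (fun k => by rw [hI, St_orbWt]) _ ?_
    intro g hg
    obtain ⟨m, a, b, hab⟩ := exists_dual L
    have h2 : (fun v : Fin n → X.H1 => mono (fun k => orbWt j N x hx (e.symm k))
        (fun a => g (v a))) = ∑ i, b i • (fun v : Fin n → X.H1 =>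
          ((((trForm (a i) (fun k => orbWt j N x hx (e.symm k))).compLinearMap g) v : ℚ) : L)) := by
      funext v
      rw [Finset.sum_apply]
      exact hab _
    rw [h2]
    refine Submodule.sum_mem _ fun i _ => Submodule.smul_mem _ _ (LS.of_ring ?_)
    exact DWRing.weil hn _ (isWeilClass_trForm j N x hx hN hst e (by omega) hbal (a i)) g hg
  refine algX_reindex e.symm h1 fun k => rfl

end

end Pool.Agent.W547.LD
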