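import Pool.Agent.W547.LD.Extract
import Pool.Agent.W547.LD.OrbAlg
import Pool.Agent.W547.KB.Main

/-!
# Hodge classes on powers of abelian varieties of CM type of dimension at most seven
-/

set_option linter.unusedSectionVars false
set_option linter.unusedVariables false

namespace Pool.Agent.W547.LD

open NumberField Pool.Agent.H204R3.CM Pool.Agent.W547.KB Equiv Module

noncomputable section

variable {L : Type} [Field L] [NumberField L] [IsCMField L] [IsGalois ℚ L]

section family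

variable {κ κ' : Type} [Fintype κ] [DecidableEq κ] [Fintype κ'] [DecidableEq κ'] {X : CMAV}

/-- Split off a subfamily. -/
theorem algX_of_sub {j : L →+* ℂ} {s : κ → Set (L ≃ₐ[ℚ] L)} {t : κ' → Set (L ≃ₐ[ℚ] L)}
    (e : κ' → κ) (he : Function.Injective e) (hst : ∀ k, s (e k) = t k) (ht : AlgX X j t)
    [DecidablePred (· ∈ Set.range e)]
    (hrest : AlgX X j (fun k : ((Set.range e)ᶜ : Set κ) => s k.1)) : AlgX X j s := by
  refine algX_reindex ((Equiv.sumCongr (Equiv.ofInjective e he) (Equiv.refl _)).trans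
    (Equiv.Set.sumCompl (Set.range e))) (algX_sum ht hrest) ?_
  rintro (k | k)
  · exact hst k
  · rfl

theorem balanced_iff (s : κ → Set (L ≃ₐ[ℚ] L)) :
    Balanced s ↔ ∀ σ, ∑ k, Comb.eps (s k) σ = 0 := by
  have h : ∀ σ, ((∑ k, @ite ℤ (σ ∈ s k) (Classical.propDecidable _) 1 (-1) : ℤ) : ℚ) =
      ∑ k, Comb.eps (s k) σ := by
    intro σ
    push_cast
    refine Finset.sum_congr rfl fun k _ => ?_
    unfold Comb.eps
    rfl
  constructor
  · intro hb σ
    rw [← h σ]
    exact_mod_cast hb σ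
  · intro hb σ
    have h1 := hb σ
    rw [← h σ] at h1
    exact_mod_cast h1

theorem balanced_of_sub {s : κ → Set (L ≃ₐ[ℚ] L)} {t : κ' → Set (L ≃ₐ[ℚ] L)}
    (e : κ' → κ) (he : Function.Injective e) (hst : ∀ k, s (e k) = t k) (hs : Balanced s)
    (ht : Balanced t) [DecidablePred (· ∈ Set.range e)] :
    Balanced (fun k : ((Set.range e)ᶜ : Set κ) => s k.1) := by
  rw [balanced_iff] at hs ht ⊢
  intro σ
  have h1 := hs σ
  rw [← Equiv.sum_comp ((Equiv.sumCongr (Equiv.ofInjective e he) (Equiv.refl _)).trans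
    (Equiv.Set.sumCompl (Set.range e))), Fintype.sum_sum_type] at h1
  have h2 : ∑ k : κ', Comb.eps (s ((((Equiv.sumCongr (Equiv.ofInjective e he)
      (Equiv.refl _)).trans (Equiv.Set.sumCompl (Set.range e)))) (Sum.inl k))) σ = 0 := by
    rw [← ht σ]
    refine Finset.sum_congr rfl fun k _ => ?_
    rw [← hst k]
    rfl
  rw [h2, zero_add] at h1
  exact h1

open Classical in
/-- The multiplicities of a family. -/
def cnt (s : κ → Set (L ≃ₐ[ℚ] L)) (S : Set (L ≃ₐ[ℚ] L)) : ℚ := ∑ k, if s k = S then 1 else 0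

theorem cnt_pos_iff (s : κ → Set (L ≃ₐ[ℚ] L)) (S : Set (L ≃ₐ[ℚ] L)) :
    0 < cnt s S ↔ ∃ k, s k = S := by
  classical
  unfold cnt
  constructor
  · intro h
    by_contra hcon
    push Not at hcon
    rw [Finset.sum_eq_zero (fun k _ => if_neg (hcon k))] at h
    exact lt_irrefl _ h
  · rintro ⟨k, hk⟩
    refine Finset.sum_pos' (fun k _ => ?_) ⟨k, Finset.mem_univ _, ?_⟩
    · split_ifs <;> norm_num
    · rw [if_pos hk]
      norm_num

theorem cnt_eq_zero (s : κ → Set (L ≃ₐ[ℚ] L)) (S : Set (L ≃ₐ[ℚ] L)) (h : ∀ k, s k ≠ S) :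
    cnt s S = 0 := by
  classical
  unfold cnt
  exact Finset.sum_eq_zero (fun k _ => if_neg (h k))

theorem cnt_nonneg (s : κ → Set (L ≃ₐ[ℚ] L)) (S : Set (L ≃ₐ[ℚ] L)) : 0 ≤ cnt s S := by
  classical
  unfold cnt
  exact Finset.sum_nonneg fun k _ => by split_ifs <;> norm_num

theorem isRel_cnt {P : Set (Set (L ≃ₐ[ℚ] L))} (hcompl : ∀ S ∈ P, Sᶜ ∈ P)
    (s : κ → Set (L ≃ₐ[ℚ] L)) (hs : ∀ k, s k ∈ P) (hb : Balanced s) :
    Comb.IsRel P (fun S => cnt s S - cnt s Sᶜ) where
  supp S hS := by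
    rw [cnt_eq_zero s S (fun k h => hS (h ▸ hs k)), cnt_eq_zero s Sᶜ (fun k h => hS (by
      have h1 := hcompl _ (hs k)
      rwa [h, compl_compl] at h1)), sub_zero]
  odd S := by rw [compl_compl]; ring
  rel σ := by
    classical
    rw [balanced_iff] at hb
    have key : ∑ S : Set (L ≃ₐ[ℚ] L), cnt s S * Comb.eps S σ = 0 := by
      unfold cnt
      simp only [Finset.sum_mul]
      rw [Finset.sum_comm]
      refine Eq.trans ?_ (hb σ)
      refine Finset.sum_congr rfl fun k _ => ?_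
      rw [Finset.sum_eq_single (s k)]
      · rw [if_pos rfl, one_mul]
      · intro S _ hS
        rw [if_neg hS.symm, zero_mul]
      · intro h
        exact absurd (Finset.mem_univ _) h
    have key' : ∑ S : Set (L ≃ₐ[ℚ] L), cnt s Sᶜ * Comb.eps S σ = 0 := by
      have h1 : ∑ S : Set (L ≃ₐ[ℚ] L), cnt s Sᶜ * Comb.eps S σ =
          ∑ S : Set (L ≃ₐ[ℚ] L), cnt s S * Comb.eps Sᶜ σ :=
        Fintype.sum_equiv (Function.Involutive.toPerm compl compl_involutive) _ _ fun S => by
          change _ = cnt s Sᶜ * Comb.eps Sᶜᶜ σ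
          rw [compl_compl]
      rw [h1]
      simp only [Comb.eps_compl, mul_neg]
      rw [Finset.sum_neg_distrib, key, neg_zero]
    simp only [sub_mul, Finset.sum_sub_distrib]
    rw [key, key', sub_zero]

end family

/-- The monomials belonging to one orbit. -/
theorem algX_one (j : L →+* ℂ) {N : Subgroup (L ≃ₐ[ℚ] L)} (hN : IsImag N)
    {x : Set (L ≃ₐ[ℚ] L)} (hx : IsHalf x) (hst : Comb.stb x ≤ N) [Fintype (Comb.OrbT N x)]
    [DecidableEq (Comb.OrbT N x)]
    (hn : Fintype.card (Comb.OrbT N x) = 4 ∨ Fintype.card (Comb.OrbT N x) = 6)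
    (hbal : Balanced (fun k : Comb.OrbT N x => k.1)) (X : CMAV) :
    AlgX X j (fun k : Comb.OrbT N x => k.1) := by
  classical
  let e : Orb N (fun _ : Unit => x) ≃ Comb.OrbT N x := Equiv.uniqueSigma
    (fun _ : Unit => {S : Set (L ≃ₐ[ℚ] L) // ∃ τ ∈ N, tr τ x = S})
  have : Fintype (Orb N (fun _ : Unit => x)) := Fintype.ofEquiv _ e.symm
  have hval : ∀ k, (e k).1 = k.2.1 := by
    rintro ⟨⟨⟩, k⟩
    rfl
  have h1 : AlgX X j (fun k : Orb N (fun _ : Unit => x) => k.2.1) := by
    refine algX_orb j N (fun _ : Unit => x) (fun _ => hx) hN (fun _ => hst) ?_ ?_ X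
    · rw [Fintype.card_congr e]
      exact hn
    · rw [balanced_iff] at hbal ⊢
      intro σ
      rw [← hbal σ]
      exact Fintype.sum_equiv e _ _ fun k => by rw [hval]
  exact algX_reindex e h1 fun k => hval k

/-- Balanced families in one orbit with at most fourteen elements. -/
theorem algX_of_balanced (j : L →+* ℂ) {P : Set (Set (L ≃ₐ[ℚ] L))} (hP : Comb.Stable P)
    (hcompl : ∀ S ∈ P, Sᶜ ∈ P) (hH : ∀ S ∈ P, IsHalf S) (hT : Comb.Trans P)
    (hcard : P.ncard ≤ 14) (X : CMAV) (n : ℕ) : ∀ (κ : Type) [Fintype κ] [DecidableEq κ],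
    Fintype.card κ = n → ∀ s : κ → Set (L ≃ₐ[ℚ] L), (∀ k, s k ∈ P) → Balanced s →
      AlgX X j s := by
  classical
  induction n using Nat.strong_induction_on with
  | _ n ih =>
    intro κ _ _ hn s hs hbal
    rcases isEmpty_or_nonempty κ with he | ⟨⟨k0⟩⟩
    · exact algX_empty j s
    by_cases hpair : ∃ a b, s b = (s a)ᶜ
    · obtain ⟨a, b, hab⟩ := hpair
      have hne : a ≠ b := by
        rintro rfl
        exact ne_compl _ hab
      have hcard' := card_split a b hne
      exact algX_split a b hne hab (ih _ (by omega) _ rfl _ (fun k => hs k.1)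
        (balanced_rest hbal a b hne hab))
    · push Not at hpair
      have ha := isRel_cnt hcompl s hs hbal
      set a : Set (L ≃ₐ[ℚ] L) → ℚ := fun S => cnt s S - cnt s Sᶜ with hadef
      have hak : ∀ k, 0 < a (s k) := by
        intro k
        have h1 : cnt s (s k)ᶜ = 0 := cnt_eq_zero s _ (hpair k)
        have h2 : 0 < cnt s (s k) := (cnt_pos_iff s _).2 ⟨k, rfl⟩
        change 0 < cnt s (s k) - cnt s (s k)ᶜ
        rw [h1, sub_zero]
        exact h2
      have hapos : ∀ S, 0 < a S → ∃ k, s k = S := by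
        intro S hS
        rw [← cnt_pos_iff]
        have h1 := cnt_nonneg s Sᶜ
        change 0 < cnt s S - cnt s Sᶜ at hS
        linarith
      have ha0 : a ≠ 0 := by
        intro h
        have h1 := hak k0
        rw [h] at h1
        exact lt_irrefl _ h1
      have hR := Comb.rankOne_trans hP hcompl hT hcard
      have hc : ∀ g, cc L * g = g * cc L := fun g => cc_comm j g
      obtain ⟨N, hN, hNp, hNn⟩ := Comb.extract hc hP hH hR ha ha0
      have hx0 : a (s k0) ≠ 0 := (hak k0).ne'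
      have hcard4 := Comb.orb_card hc hP hcompl hH ha hN hNp hx0 hT hcard
      have hsum := Comb.orb_sum hc hP hH ha hN hNp hx0 hT
      have hst := Comb.stb_le hNn hx0
      -- the embedding of the orbit
      have hex : ∀ S : Comb.OrbT N (s k0), ∃ k, s k = S.1 := by
        intro S
        refine hapos _ ?_
        rw [Comb.orb_val hNp S]
        exact hak k0
      choose e he using hex
      have hinj : Function.Injective e := by
        intro S T h
        refine Subtype.ext ?_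
        rw [← he S, ← he T, h]
      have hbT : Balanced (fun k : Comb.OrbT N (s k0) => k.1) := by
        rw [balanced_iff]
        exact hsum
      refine algX_of_sub e hinj he (algX_one j hN (hH _ (hs k0)) hst hcard4 hbT X) ?_
      refine ih _ ?_ _ rfl _ (fun k => hs k.1) (balanced_of_sub e hinj he hbal hbT)
      rw [← hn]
      refine Fintype.card_subtype_lt (x := e ⟨s k0, 1, N.one_mem, Comb.tr_one _⟩) ?_
      intro h
      exact h ⟨_, rfl⟩

section types

variable (A : CMPair) (j : L →+* ℂ)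

/-- The half system of a weight. -/
def hs (φ : A.E →+* L) : Set (L ≃ₐ[ℚ] L) := {σ | j.comp (σ • φ) ∈ A.Φ}

theorem isHalf_hs (φ : A.E →+* L) : IsHalf (hs A j φ) :=
  isHalf_St (X := single A) j ⟨(), φ⟩

theorem tr_hs (τ : L ≃ₐ[ℚ] L) (φ : A.E →+* L) : Comb.tr τ (hs A j φ) = hs A j (τ • φ) := by
  ext σ
  rw [Comb.mem_tr]
  change j.comp ((σ * τ) • φ) ∈ A.Φ ↔ j.comp (σ • (τ • φ)) ∈ A.Φ
  rw [mul_smul]

theorem stable_hs : Comb.Stable (Set.range (hs A j)) := by
  rintro τ _ ⟨φ, rfl⟩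
  exact ⟨τ • φ, (tr_hs A j τ φ).symm⟩

theorem compl_hs : ∀ S ∈ Set.range (hs A j), Sᶜ ∈ Set.range (hs A j) := by
  rintro _ ⟨φ, rfl⟩
  refine ⟨cc L • φ, ?_⟩
  rw [← tr_hs]
  exact Comb.tr_c (fun g => cc_comm j g) (isHalf_hs A j φ)

theorem trans_hs : Comb.Trans (Set.range (hs A j)) := by
  rintro _ ⟨φ, rfl⟩ _ ⟨φ', rfl⟩
  let _ := φ.toAlgebra
  have : IsScalarTower ℚ A.E L := inferInstance
  let ψ : A.E →ₐ[ℚ] L := RingHom.equivRatAlgHom A.E L φ'
  let f : L →ₐ[ℚ] L := ψ.liftNormal L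
  let g : L ≃ₐ[ℚ] L := AlgEquiv.ofBijective f (AlgHom.bijective f)
  refine ⟨g, ?_⟩
  rw [tr_hs]
  congr 1
  ext x
  exact ψ.liftNormal_commutes L x

theorem ncard_hs (hj : ∀ ψ : A.E →+* ℂ, ∃ φ : A.E →+* L, j.comp φ = ψ) :
    (Set.range (hs A j)).ncard ≤ finrank ℚ A.E := by
  have hbij : Function.Bijective (fun φ : A.E →+* L => j.comp φ) := by
    constructor
    · intro φ φ' h
      ext a
      exact j.injective (RingHom.congr_fun h a)
    · exact hj
  have h1 : Nat.card (A.E →+* L) = finrank ℚ A.E := by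
    rw [Nat.card_eq_of_bijective _ hbij, Nat.card_eq_fintype_card, Embeddings.card]
  rw [← h1, ← Set.image_univ]
  refine (Set.ncard_image_le (Set.toFinite _)).trans ?_
  rw [Set.ncard_univ]

end types

end

end Pool.Agent.W547.LD
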