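import Pool.Agent.W547.LD.Final

/-!
# Hodge classes on powers of abelian varieties of CM type of dimension at most seven
-/

set_option linter.unusedSectionVars false
set_option linter.unusedVariables false

namespace Pool.Agent.W547.LD

open NumberField Pool.Agent.H204R3.CM Pool.Agent.W547.KB Equiv Module

noncomputable section

/-- From the monomials to all Hodge classes. -/
theorem ring_of_mono (X : CMAV) {κ : Type} [Finite κ]
    (hall : ∀ (L : Type) [Field L] [NumberField L] [IsCMField L] [IsGalois ℚ L] (j : L →+* ℂ),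
      (∀ i, ∀ ψ : (X.factor i).E →+* ℂ, ∃ φ : (X.factor i).E →+* L, j.comp φ = ψ) →
      ∀ [Fintype κ] [DecidableEq κ] (I : κ → Wt X L), Balanced (fun k => St j (I k)) →
        mono I ∈ LS L X κ)
    (f : X.H1 [⋀^κ]→ₗ[ℚ] ℚ) (hf : IsHodge X.per f) : DWRing X κ f := by
  classical
  have := Fintype.ofFinite κ
  rcases isEmpty_or_nonempty κ with hκ | ⟨⟨k0⟩⟩
  · exact DWRing.unit f
  rcases isEmpty_or_nonempty X.I with hI | hI
  · have h1 : f = 0 := by
      ext v
      have h2 : v k0 = 0 := by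
        funext i
        exact (hI.false i).elim
      rw [f.map_coord_zero k0 h2]
      rfl
    rw [h1]
    exact DWRing.zero κ
  obtain ⟨L, _, _, _, _, j, hj⟩ := exists_cm X
  apply ring_of_LS (L := L)
  obtain ⟨c, hc⟩ := form_coeff (E := fun i : X.I => (X.factor i).E) (fun i : X.I => i) j hj
    f.toMultilinearMap
  have hmono : ∀ I : κ → Wt X L, c I ≠ 0 → mono I ∈ LS L X κ := by
    intro I hI
    have h1 : Balanced (fun k => St j (I k)) := by
      intro σ
      have h2 := balanced_of_hodge (E := fun i : X.I => (X.factor i).E)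
        (Φ := fun i : X.I => (X.factor i).Φ) (fun i : X.I => i) j
        (fun i => (X.factor i).isCMType) hj f hf c hc I hI σ
      exact h2
    exact hall L j hj I h1
  have hsum : ((Fintype.card (Perm κ) : ℕ) : L) • (fun v : κ → X.H1 => ((f v : ℚ) : L)) =
      ∑ I : κ → Wt X L, c I • mono I := by
    funext v
    rw [Finset.sum_apply, Pi.smul_apply, smul_eq_mul]
    have h1 : ∀ σ : Perm κ, ((f v : ℚ) : L) = ((Perm.sign σ : ℤ) : L) *
        ∑ I : κ → Wt X L, c I * ∏ k, ev (v (σ k)) (I k) := by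
      intro σ
      have h2 : ((f (fun k => v (σ k)) : ℚ) : L) =
          ∑ I : κ → Wt X L, c I * ∏ k, ev (v (σ k)) (I k) := hc (fun k => v (σ k))
      rw [← h2]
      have h3 : f (fun k => v (σ k)) = Perm.sign σ • f v := f.map_perm v σ
      rw [h3, Units.smul_def, zsmul_eq_mul, Rat.cast_mul, Rat.cast_intCast, ← mul_assoc,
        ← Int.cast_mul, ← Units.val_mul, Int.units_mul_self, Units.val_one, Int.cast_one, one_mul]
    have h4 : ((Fintype.card (Perm κ) : ℕ) : L) * ((f v : ℚ) : L) =
        ∑ σ : Perm κ, ((Perm.sign σ : ℤ) : L) *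
          ∑ I : κ → Wt X L, c I * ∏ k, ev (v (σ k)) (I k) := by
      rw [← Finset.sum_congr rfl (fun σ _ => h1 σ), Finset.sum_const, Finset.card_univ,
        nsmul_eq_mul]
    rw [h4]
    simp only [Finset.mul_sum]
    rw [Finset.sum_comm]
    refine Finset.sum_congr rfl fun I _ => ?_
    rw [Pi.smul_apply, smul_eq_mul, mono_apply, Finset.mul_sum]
    refine Finset.sum_congr rfl fun σ _ => ?_
    ring
  have h5 : ((Fintype.card (Perm κ) : ℕ) : L) • (fun v : κ → X.H1 => ((f v : ℚ) : L)) ∈
      LS L X κ := by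
    rw [hsum]
    refine Submodule.sum_mem _ fun I _ => ?_
    by_cases hI : c I = 0
    · rw [hI, zero_smul]
      exact Submodule.zero_mem _
    · exact Submodule.smul_mem _ _ (hmono I hI)
  have hne : ((Fintype.card (Perm κ) : ℕ) : L) ≠ 0 := Nat.cast_ne_zero.2 Fintype.card_ne_zero
  have h6 := Submodule.smul_mem _ (((Fintype.card (Perm κ) : ℕ) : L))⁻¹ h5
  rwa [smul_smul, inv_mul_cancel₀ hne, one_smul] at h6

theorem ring_of_hodge (A : CMPair) (hA : finrank ℚ A.E ≤ 14) (n : ℕ) {κ : Type} [Finite κ]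
    (f : (power A n).H1 [⋀^κ]→ₗ[ℚ] ℚ) (hf : IsHodge (power A n).per f) :
    DWRing (power A n) κ f := by
  classical
  rcases Nat.eq_zero_or_pos n with hn | hn
  · have := Fintype.ofFinite κ
    rcases isEmpty_or_nonempty κ with hκ | ⟨⟨k0⟩⟩
    · exact DWRing.unit f
    · have h1 : f = 0 := by
        ext v
        have h2 : v k0 = 0 := by
          funext i
          subst hn
          exact i.elim0
        rw [f.map_coord_zero k0 h2]
        rfl
      rw [h1]
      exact DWRing.zero κ
  refine ring_of_mono (power A n) ?_ f hf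
  intro L _ _ _ _ j hj _ _ I hb
  have hj' : ∀ ψ : A.E →+* ℂ, ∃ φ : A.E →+* L, j.comp φ = ψ := fun ψ => hj ⟨0, hn⟩ ψ
  exact algX_of_balanced j (stable_hs A j) (compl_hs A j) (fun S hS => by
    obtain ⟨φ, rfl⟩ := hS
    exact isHalf_hs A j φ) (trans_hs A j) ((ncard_hs A j hj').trans hA) (power A n) _ κ rfl
    (fun k => St j (I k)) (fun k => ⟨(I k).2, rfl⟩) hb I (fun k => rfl)

theorem isHodge_of_ring {X : CMAV} {κ : Type} {f : X.H1 [⋀^κ]→ₗ[ℚ] ℚ} (h : DWRing X κ f) :
    IsHodge X.per f := by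
  induction h with
  | unit f => exact hodge_unit f
  | divisor hκ f hf => exact hf
  | weil hn f hf h hh => exact hodge_pull hh hf.2.1
  | zero κ => exact hodge_zero X κ
  | add f g _ _ ihf ihg => exact hodge_add ihf ihg
  | smul a f _ ih => exact hodge_smul a ih
  | reindex e f _ ih => exact hodge_reindex e ih
  | cup f g _ _ h hh ihf ihg => exact hodge_cup ihf ihg h hh

theorem isHodge_iff_ring (A : CMPair) (hA : finrank ℚ A.E ≤ 14) (n : ℕ) {κ : Type} [Finite κ]
    (f : (power A n).H1 [⋀^κ]→ₗ[ℚ] ℚ) : IsHodge (power A n).per f ↔ DWRing (power A n) κ f :=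
  ⟨ring_of_hodge A hA n f, isHodge_of_ring⟩

end

end Pool.Agent.W547.LD
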