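import Pool.Agent.W547.KB.Converse

/-!
# The rational homology is dense in the tangent space
-/

set_option linter.unusedSectionVars false
set_option linter.unusedVariables false

namespace Pool.Agent.W547.LD

open NumberField Pool.Agent.H204R3.CM Pool.Agent.W547.KB Equiv Module

/-- Every vector of the tangent space is approximated by rational vectors. -/
theorem exists_approx (X : CMAV) (u : X.Tan) {ε : ℝ} (hε : 0 < ε) :
    ∃ w : X.H1, ∀ i (φ : (X.factor i).Φ), ‖X.per w i φ - u i φ‖ < ε := by
  have h1 : u ∈ Submodule.span ℝ (Set.range X.per) := by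
    rw [span_perX]
    trivial
  induction h1 using Submodule.span_induction generalizing ε with
  | mem u hu =>
    obtain ⟨w, rfl⟩ := hu
    refine ⟨w, fun i φ => ?_⟩
    rw [sub_self, norm_zero]
    exact hε
  | zero =>
    refine ⟨0, fun i φ => ?_⟩
    rw [map_zero, sub_self, norm_zero]
    exact hε
  | add u u' _ _ h h' =>
    obtain ⟨w, hw⟩ := h (half_pos hε)
    obtain ⟨w', hw'⟩ := h' (half_pos hε)
    refine ⟨w + w', fun i φ => ?_⟩
    have h2 : X.per (w + w') i φ - (u + u') i φ =
        (X.per w i φ - u i φ) + (X.per w' i φ - u' i φ) := by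
      rw [map_add]
      change X.per w i φ + X.per w' i φ - (u i φ + u' i φ) = _
      ring
    rw [h2]
    refine (norm_add_le _ _).trans_lt ?_
    have := hw i φ
    have := hw' i φ
    linarith
  | smul a u _ h =>
    obtain ⟨w, hw⟩ := h (ε := ε / (2 * (|a| + 1))) (by positivity)
    have h2 : ∃ M : ℝ, ∀ s : Σ i, (X.factor i).Φ, ‖X.per w s.1 s.2‖ ≤ M := by
      have hfin : Finite (Σ i, (X.factor i).Φ) := by infer_instance
      obtain ⟨M, hM⟩ := (Set.finite_range fun s : Σ i, (X.factor i).Φ => ‖X.per w s.1 s.2‖).bddAbove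
      exact ⟨M, fun s => hM ⟨s, rfl⟩⟩
    obtain ⟨M, hM⟩ := h2
    obtain ⟨r, hr⟩ : ∃ r : ℚ, |(r : ℝ) - a| < ε / (2 * (|M| + 1)) := by
      obtain ⟨r, hr1, hr2⟩ := exists_rat_btwn (show a < a + ε / (2 * (|M| + 1)) by
        have : 0 < ε / (2 * (|M| + 1)) := by positivity
        linarith)
      refine ⟨r, ?_⟩
      rw [abs_lt]
      constructor <;> linarith
    refine ⟨r • w, fun i φ => ?_⟩
    have h3 : X.per (r • w) i φ - (a • u) i φ =
        ((r : ℝ) - a : ℝ) * X.per w i φ + (a : ℂ) * (X.per w i φ - u i φ) := by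
      rw [map_rat_smul]
      change r • (X.per w i φ) - a • (u i φ) = _
      rw [Rat.smul_def, Complex.real_smul]
      push_cast
      ring
    rw [h3]
    refine (norm_add_le _ _).trans_lt ?_
    rw [norm_mul, norm_mul, Complex.norm_real, Complex.norm_real, Real.norm_eq_abs,
      Real.norm_eq_abs]
    have h4 : |(r : ℝ) - a| * ‖X.per w i φ‖ < ε / 2 := by
      have h5 : ‖X.per w i φ‖ ≤ |M| := (hM ⟨i, φ⟩).trans (le_abs_self M)
      have h6 : |(r : ℝ) - a| * ‖X.per w i φ‖ ≤ |(r : ℝ) - a| * (|M| + 1) := by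
        refine mul_le_mul_of_nonneg_left ?_ (abs_nonneg _)
        linarith
      have h7 : |(r : ℝ) - a| * (|M| + 1) < ε / (2 * (|M| + 1)) * (|M| + 1) :=
        mul_lt_mul_of_pos_right hr (by positivity)
      have h8 : ε / (2 * (|M| + 1)) * (|M| + 1) = ε / 2 := by
        field_simp
      linarith
    have h5 : |a| * ‖X.per w i φ - u i φ‖ ≤ ε / 2 := by
      have h6 : |a| * ‖X.per w i φ - u i φ‖ ≤ (|a| + 1) * (ε / (2 * (|a| + 1))) := by
        refine mul_le_mul (by linarith) (hw i φ).le (norm_nonneg _) (by positivity)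
      have h8 : (|a| + 1) * (ε / (2 * (|a| + 1))) = ε / 2 := by
        field_simp
      linarith
    linarith

end Pool.Agent.W547.LD
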