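import Mathlib

/-!
# Relations between half systems of a finite group
-/

set_option linter.unusedSectionVars false
set_option linter.unusedVariables false

namespace Pool.Agent.W547.LD.Comb

open Finset

noncomputable section

section basic

variable {G : Type*} [Group G]

/-- Right translates. -/
def tr (τ : G) (S : Set G) : Set G := {σ | σ * τ ∈ S}

theorem mem_tr (τ σ : G) (S : Set G) : σ ∈ tr τ S ↔ σ * τ ∈ S := Iff.rfl

theorem tr_one (S : Set G) : tr 1 S = S := by
  ext σ
  rw [mem_tr, mul_one]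

theorem tr_tr (τ τ' : G) (S : Set G) : tr τ (tr τ' S) = tr (τ * τ') S := by
  ext σ
  rw [mem_tr, mem_tr, mem_tr, mul_assoc]

theorem tr_compl (τ : G) (S : Set G) : tr τ Sᶜ = (tr τ S)ᶜ := rfl

theorem tr_inv_tr (τ : G) (S : Set G) : tr τ⁻¹ (tr τ S) = S := by
  rw [tr_tr, inv_mul_cancel, tr_one]

theorem tr_tr_inv (τ : G) (S : Set G) : tr τ (tr τ⁻¹ S) = S := by
  rw [tr_tr, mul_inv_cancel, tr_one]

theorem tr_injective (τ : G) : Function.Injective (tr τ) := by
  intro S T h
  rw [← tr_inv_tr τ S, h, tr_inv_tr]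

/-- Right translation as a permutation of the subsets. -/
def trE (τ : G) : Set G ≃ Set G := ⟨tr τ, tr τ⁻¹, tr_inv_tr τ, tr_tr_inv τ⟩

/-- Exactly one of `σ` and `c σ` lies in the set. -/
def Half (c : G) (S : Set G) : Prop := ∀ σ, σ ∈ S ↔ c * σ ∉ S

theorem Half.compl {c : G} {S : Set G} (hS : Half c S) : Half c Sᶜ := by
  intro σ
  rw [Set.mem_compl_iff, Set.mem_compl_iff, not_not, hS σ, not_not]

theorem Half.tr {c : G} {S : Set G} (hS : Half c S) (τ : G) : Half c (tr τ S) := by
  intro σ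
  rw [mem_tr, mem_tr, hS (σ * τ), mul_assoc]

theorem tr_c {c : G} (hc : ∀ g, c * g = g * c) {S : Set G} (hS : Half c S) : Comb.tr c S = Sᶜ := by
  ext σ
  rw [mem_tr, ← hc σ, Set.mem_compl_iff]
  have := hS σ
  tauto

theorem ne_compl (S : Set G) : S ≠ Sᶜ := by
  intro h
  by_cases h1 : (1 : G) ∈ S
  · have h2 := h1
    rw [h] at h2
    exact h2 h1
  · exact h1 (by rw [h]; exact h1)

open Classical in
/-- The sign function of a subset. -/
def eps (S : Set G) (σ : G) : ℚ := if σ ∈ S then 1 else -1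

theorem eps_compl (S : Set G) (σ : G) : eps Sᶜ σ = -eps S σ := by
  unfold eps
  by_cases h : σ ∈ S
  · rw [if_pos h, if_neg (by simpa using h)]
  · rw [if_neg h, if_pos (by simpa using h), neg_neg]

theorem eps_tr (τ : G) (S : Set G) (σ : G) : eps (tr τ S) σ = eps S (σ * τ) := rfl

theorem eps_cases (S : Set G) (σ : G) : eps S σ = 1 ∨ eps S σ = -1 := by
  unfold eps
  by_cases h : σ ∈ S
  · rw [if_pos h]
    exact Or.inl rfl
  · rw [if_neg h]
    exact Or.inr rfl

theorem eps_eq_iff (S T : Set G) (σ : G) : eps S σ = eps T σ ↔ (σ ∈ S ↔ σ ∈ T) := by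
  unfold eps
  by_cases h : σ ∈ S <;> by_cases h' : σ ∈ T <;> simp [h, h'] <;> norm_num

theorem exists_ne {S T : Set G} (h : S ≠ T) : ∃ σ, eps S σ = -eps T σ := by
  by_contra hcon
  push Not at hcon
  apply h
  ext σ
  rw [← eps_eq_iff]
  have h1 := hcon σ
  rcases eps_cases S σ with h2 | h2 <;> rcases eps_cases T σ with h3 | h3 <;> rw [h2, h3] at h1 ⊢ <;>
    norm_num at h1

theorem exists_eq {S T : Set G} (h : S ≠ Tᶜ) : ∃ σ, eps S σ = eps T σ := by
  obtain ⟨σ, hσ⟩ := exists_ne h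
  refine ⟨σ, ?_⟩
  rw [hσ, eps_compl, neg_neg]

end basic

variable {G : Type} [Group G] [Fintype G]

open Classical in
/-- The relations with support in `P`. -/
structure IsRel (P : Set (Set G)) (a : Set G → ℚ) : Prop where
  supp : ∀ S, S ∉ P → a S = 0
  odd : ∀ S, a Sᶜ = -a S
  rel : ∀ σ, ∑ S : Set G, a S * eps S σ = 0

variable {P : Set (Set G)} {a b : Set G → ℚ}

theorem IsRel.add (ha : IsRel P a) (hb : IsRel P b) : IsRel P (a + b) where
  supp S hS := by rw [Pi.add_apply, ha.supp S hS, hb.supp S hS, add_zero]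
  odd S := by rw [Pi.add_apply, Pi.add_apply, ha.odd, hb.odd]; ring
  rel σ := by
    simp only [Pi.add_apply, add_mul, Finset.sum_add_distrib]
    rw [ha.rel, hb.rel, add_zero]

theorem IsRel.smul (q : ℚ) (ha : IsRel P a) : IsRel P (q • a) where
  supp S hS := by rw [Pi.smul_apply, ha.supp S hS, smul_zero]
  odd S := by rw [Pi.smul_apply, Pi.smul_apply, ha.odd, smul_neg]
  rel σ := by
    simp only [Pi.smul_apply, smul_eq_mul, mul_assoc]
    rw [← Finset.mul_sum, ha.rel, mul_zero]

theorem IsRel.sub (ha : IsRel P a) (hb : IsRel P b) : IsRel P (a - b) := by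
  have h := ha.add (hb.smul (-1))
  rwa [neg_one_smul, ← sub_eq_add_neg] at h

/-- `P` is stable under right translation. -/
def Stable (P : Set (Set G)) : Prop := ∀ (τ : G) (S : Set G), S ∈ P → tr τ S ∈ P

theorem IsRel.tr (hP : Stable P) (ha : IsRel P a) (τ : G) : IsRel P (fun S => a (tr τ S)) where
  supp S hS := by
    refine ha.supp _ fun h => hS ?_
    have h1 := hP τ⁻¹ _ h
    rwa [tr_inv_tr] at h1
  odd S := by rw [tr_compl, ha.odd]
  rel σ := by
    classical
    rw [← ha.rel (σ * τ⁻¹)]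
    refine Fintype.sum_equiv (trE τ) _ _ fun S => ?_
    change _ = a (Comb.tr τ S) * eps (Comb.tr τ S) (σ * τ⁻¹)
    rw [eps_tr, inv_mul_cancel_right]

open Classical in
/-- The sum over representatives. -/
theorem sum_rep {ι : Type*} [Fintype ι] (r : ι → Set G) (hr : Function.Injective r)
    (hr' : ∀ i k, r i ≠ (r k)ᶜ) (f : Set G → ℚ) (hf : ∀ S, f S ≠ 0 → ∃ i, S = r i ∨ S = (r i)ᶜ) :
    ∑ S : Set G, f S = ∑ i, (f (r i) + f (r i)ᶜ) := by
  have h1 : Function.Injective (Sum.elim r (fun i => (r i)ᶜ)) := by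
    rintro (i | i) (k | k) h
    · exact congrArg Sum.inl (hr h)
    · exact absurd h (hr' i k)
    · exact absurd h.symm (hr' k i)
    · exact congrArg Sum.inr (hr (compl_injective h))
  have h2 : ∑ i, (f (r i) + f (r i)ᶜ) = ∑ s : ι ⊕ ι, f (Sum.elim r (fun i => (r i)ᶜ) s) := by
    rw [Fintype.sum_sum_type, Finset.sum_add_distrib]
    rfl
  rw [h2, ← Finset.sum_image (s := Finset.univ) (f := f) (fun x _ y _ h => h1 h)]
  symm
  refine Finset.sum_subset (Finset.subset_univ _) fun S _ hS => ?_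
  by_contra hcon
  obtain ⟨i, hi | hi⟩ := hf S hcon
  · exact hS (Finset.mem_image.2 ⟨Sum.inl i, Finset.mem_univ _, hi.symm⟩)
  · exact hS (Finset.mem_image.2 ⟨Sum.inr i, Finset.mem_univ _, hi.symm⟩)

theorem IsRel.rep {ι : Type*} [Fintype ι] (ha : IsRel P a) (r : ι → Set G)
    (hr : Function.Injective r) (hr' : ∀ i k, r i ≠ (r k)ᶜ)
    (hf : ∀ S, a S ≠ 0 → ∃ i, S = r i ∨ S = (r i)ᶜ) (σ : G) : ∑ i, a (r i) * eps (r i) σ = 0 := by
  classical
  have h1 := ha.rel σ
  rw [sum_rep r hr hr' (fun S => a S * eps S σ) (fun S hS => hf S (left_ne_zero_of_mul hS))] at h1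
  have h2 : ∑ i, (a (r i) * eps (r i) σ + a (r i)ᶜ * eps (r i)ᶜ σ) =
      2 * ∑ i, a (r i) * eps (r i) σ := by
    rw [Finset.mul_sum]
    refine Finset.sum_congr rfl fun i _ => ?_
    rw [ha.odd, eps_compl]
    ring
  rw [h2] at h1
  linarith

open Classical in
/-- The total weight. -/
def wgt (a : Set G → ℚ) : ℚ := ∑ S : Set G, |a S|

theorem IsRel.wgt_rep {ι : Type*} [Fintype ι] (ha : IsRel P a) (r : ι → Set G)
    (hr : Function.Injective r) (hr' : ∀ i k, r i ≠ (r k)ᶜ)
    (hf : ∀ S, a S ≠ 0 → ∃ i, S = r i ∨ S = (r i)ᶜ) : wgt a = 2 * ∑ i, |a (r i)| := by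
  unfold wgt
  rw [sum_rep r hr hr' (fun S => |a S|) (fun S hS => hf S (abs_ne_zero.1 hS)), Finset.mul_sum]
  refine Finset.sum_congr rfl fun i _ => ?_
  rw [ha.odd, abs_neg]
  ring

/-- **Two terms of a relation.** -/
theorem IsRel.two (ha : IsRel P a) {S T : Set G} (h1 : S ≠ T) (h2 : S ≠ Tᶜ) :
    4 * (|a S| + |a T|) ≤ wgt a := by
  classical
  -- a place where the two terms have the same sign
  obtain ⟨σ, hσ⟩ : ∃ σ, |a S * eps S σ + a T * eps T σ| = |a S| + |a T| := by
    have key : ∀ (s t e e' : ℚ), (e = 1 ∨ e = -1) → 0 ≤ s * t → e' = e →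
        |s * e + t * e'| = |s| + |t| := by
      rintro s t e e' he hst rfl
      rcases he with rfl | rfl
      · rw [mul_one, mul_one]
        rcases le_total 0 s with hs | hs
        · rcases eq_or_lt_of_le hs with hs | hs
          · rw [← hs]; simp
          · have ht : 0 ≤ t := by
              by_contra h
              push Not at h
              nlinarith
            rw [abs_of_nonneg hs.le, abs_of_nonneg ht, abs_of_nonneg (by linarith)]
        · rcases eq_or_lt_of_le hs with hs | hs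
          · rw [hs]; simp
          · have ht : t ≤ 0 := by
              by_contra h
              push Not at h
              nlinarith
            rw [abs_of_nonpos hs.le, abs_of_nonpos ht, abs_of_nonpos (by linarith)]
            ring
      · rcases le_total 0 s with hs | hs
        · rcases eq_or_lt_of_le hs with hs | hs
          · rw [← hs]; simp
          · have ht : 0 ≤ t := by
              by_contra h
              push Not at h
              nlinarith
            rw [abs_of_nonneg hs.le, abs_of_nonneg ht, abs_of_nonpos (by linarith)]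
            ring
        · rcases eq_or_lt_of_le hs with hs | hs
          · rw [hs]; simp
          · have ht : t ≤ 0 := by
              by_contra h
              push Not at h
              nlinarith
            rw [abs_of_nonpos hs.le, abs_of_nonpos ht, abs_of_nonneg (by linarith)]
            ring
    rcases le_total 0 (a S * a T) with h | h
    · obtain ⟨σ, hσ⟩ := exists_eq h2
      exact ⟨σ, key _ _ _ _ (eps_cases S σ) h hσ.symm⟩
    · obtain ⟨σ, hσ⟩ := exists_ne h1
      refine ⟨σ, ?_⟩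
      have h3 := key (a S) (-a T) (eps S σ) (-eps T σ) (eps_cases S σ) (by nlinarith) hσ.symm
      rw [abs_neg] at h3
      rw [← h3]
      congr 1
      ring
  have h3 : S ≠ Sᶜ := ne_compl S
  have h4 : T ≠ Tᶜ := ne_compl T
  have h5 : Sᶜ ≠ T := fun h => h2 (by rw [← h, compl_compl])
  have h6 : Sᶜ ≠ Tᶜ := fun h => h1 (compl_injective h)
  let F : Finset (Set G) := {S, Sᶜ, T, Tᶜ}
  have hF : ∀ f : Set G → ℚ, ∑ U ∈ F, f U = f S + f Sᶜ + f T + f Tᶜ := by
    intro f
    change ∑ U ∈ ({S, Sᶜ, T, Tᶜ} : Finset (Set G)), f U = _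
    rw [Finset.sum_insert, Finset.sum_insert, Finset.sum_insert, Finset.sum_singleton]
    · ring
    · rwa [Finset.mem_singleton]
    · rw [Finset.mem_insert, Finset.mem_singleton]
      tauto
    · rw [Finset.mem_insert, Finset.mem_insert, Finset.mem_singleton]
      tauto
  have h7 := ha.rel σ
  rw [← Finset.sum_add_sum_compl F, hF, ha.odd, ha.odd, eps_compl, eps_compl] at h7
  have h8 : wgt a = ∑ U ∈ F, |a U| + ∑ U ∈ Fᶜ, |a U| :=
    (Finset.sum_add_sum_compl F (fun U => |a U|)).symm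
  rw [hF, ha.odd, ha.odd, abs_neg, abs_neg] at h8
  have h9 : |∑ U ∈ Fᶜ, a U * eps U σ| ≤ ∑ U ∈ Fᶜ, |a U| := by
    refine (Finset.abs_sum_le_sum_abs _ _).trans (le_of_eq ?_)
    refine Finset.sum_congr rfl fun U _ => ?_
    rw [abs_mul]
    rcases eps_cases U σ with h | h <;> rw [h] <;> simp
  have h10 : ∑ U ∈ Fᶜ, a U * eps U σ = -(2 * (a S * eps S σ + a T * eps T σ)) := by linarith
  rw [h10, abs_neg, abs_mul, hσ, abs_two] at h9
  linarith

theorem IsRel.one (ha : IsRel P a) (S : Set G) : 4 * |a S| ≤ wgt a := by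
  classical
  let F : Finset (Set G) := {S, Sᶜ}
  have hF : ∀ f : Set G → ℚ, ∑ U ∈ F, f U = f S + f Sᶜ := by
    intro f
    change ∑ U ∈ ({S, Sᶜ} : Finset (Set G)), f U = _
    rw [Finset.sum_insert, Finset.sum_singleton]
    rw [Finset.mem_singleton]
    exact ne_compl S
  have h7 := ha.rel 1
  rw [← Finset.sum_add_sum_compl F, hF, ha.odd, eps_compl] at h7
  have h8 : wgt a = ∑ U ∈ F, |a U| + ∑ U ∈ Fᶜ, |a U| :=
    (Finset.sum_add_sum_compl F (fun U => |a U|)).symm
  rw [hF, ha.odd, abs_neg] at h8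
  have h9 : |∑ U ∈ Fᶜ, a U * eps U 1| ≤ ∑ U ∈ Fᶜ, |a U| := by
    refine (Finset.abs_sum_le_sum_abs _ _).trans (le_of_eq ?_)
    refine Finset.sum_congr rfl fun U _ => ?_
    rw [abs_mul]
    rcases eps_cases U 1 with h | h <;> rw [h] <;> simp
  have h10 : ∑ U ∈ Fᶜ, a U * eps U 1 = -(2 * (a S * eps S 1)) := by linarith
  have h11 : |a S * eps S 1| = |a S| := by
    rw [abs_mul]
    rcases eps_cases S 1 with h | h <;> rw [h] <;> simp
  rw [h10, abs_neg, abs_mul, h11, abs_two] at h9
  linarith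

/-- **There are no short relations.** -/
theorem IsRel.eq_zero_of_card (ha : IsRel P a)
    (hcard : {S | a S ≠ 0}.ncard ≤ 6) : a = 0 := by
  classical
  by_contra hne
  obtain ⟨S0, hS0⟩ := Function.ne_iff.1 hne
  -- the largest term
  obtain ⟨S, -, hS⟩ := Finset.exists_max_image (Finset.univ : Finset (Set G)) (fun U => |a U|)
    ⟨S0, Finset.mem_univ _⟩
  have hM : 0 < |a S| := lt_of_lt_of_le (abs_pos.2 hS0) (hS S0 (Finset.mem_univ _))
  set Z : Finset (Set G) := Finset.univ.filter (fun U => a U ≠ 0) with hZ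
  have hZc : Z.card ≤ 6 := by
    rw [← Set.ncard_coe_finset]
    convert hcard using 2
    ext U
    simp [hZ]
  have hw : wgt a = ∑ U ∈ Z, |a U| := by
    unfold wgt
    symm
    refine Finset.sum_subset (Finset.subset_univ _) fun U _ hU => ?_
    rw [hZ, Finset.mem_filter] at hU
    push Not at hU
    rw [hU (Finset.mem_univ _), abs_zero]
  have hSZ : S ∈ Z := Finset.mem_filter.2 ⟨Finset.mem_univ _, abs_pos.1 hM⟩
  have hScZ : Sᶜ ∈ Z := by
    refine Finset.mem_filter.2 ⟨Finset.mem_univ _, ?_⟩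
    rw [ha.odd, neg_ne_zero]
    exact abs_pos.1 hM
  set Z' : Finset (Set G) := (Z.erase S).erase Sᶜ with hZ'
  have hSc : Sᶜ ∈ Z.erase S := Finset.mem_erase.2 ⟨(ne_compl S).symm, hScZ⟩
  have hsplit : wgt a = |a S| + (|a S| + ∑ U ∈ Z', |a U|) := by
    rw [hw, ← Finset.add_sum_erase Z _ hSZ, ← Finset.add_sum_erase _ _ hSc, ha.odd, abs_neg]
  have hcard' : Z'.card ≤ 4 := by
    rw [hZ', Finset.card_erase_of_mem hSc, Finset.card_erase_of_mem hSZ]
    omega
  rcases Z'.eq_empty_or_nonempty with h | h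
  · have h1 := ha.one S
    rw [hsplit, h, Finset.sum_empty] at h1
    linarith
  · obtain ⟨T, hT, hTmax⟩ := Finset.exists_max_image Z' (fun U => |a U|) h
    have h1 : T ≠ Sᶜ := (Finset.mem_erase.1 hT).1
    have h2 : T ≠ S := (Finset.mem_erase.1 (Finset.mem_erase.1 hT).2).1
    have h3 := ha.two (S := S) (T := T) h2.symm (fun h => h1 (by rw [h, compl_compl]))
    have h4 : ∑ U ∈ Z', |a U| ≤ 4 * |a T| := by
      calc ∑ U ∈ Z', |a U| ≤ Z'.card • |a T| := Finset.sum_le_card_nsmul _ _ _ hTmax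
        _ = (Z'.card : ℚ) * |a T| := by rw [nsmul_eq_mul]
        _ ≤ 4 * |a T| := mul_le_mul_of_nonneg_right (by exact_mod_cast hcard') (abs_nonneg _)
    linarith

end

end Pool.Agent.W547.LD.Comb
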