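import Mathlib

/-!
# Signs of differences of real numbers, and an identity of Euler
-/

namespace Pool.Agent.W547.LD

open Equiv Module

section signs

variable {κ : Type} [Fintype κ] [DecidableEq κ]

omit [DecidableEq κ] in
/-- A numbering in which a set of half of the elements gets the even numbers. -/
theorem exists_numbering (p : κ → Prop) [DecidablePred p] {m : ℕ}
    (h1 : Fintype.card {k // p k} = m) (h2 : Fintype.card {k // ¬p k} = m) :
    ∃ e : κ ≃ Fin (m * 2), ∀ k, p k ↔ Even (e k : ℕ) := by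
  let e1 : {k // p k} ≃ Fin m := Fintype.equivFinOfCardEq h1
  let e2 : {k // ¬p k} ≃ Fin m := Fintype.equivFinOfCardEq h2
  let s : (Fin m ⊕ Fin m) ≃ Fin m × Fin 2 :=
    (Equiv.boolProdEquivSum (Fin m)).symm.trans
      ((Equiv.prodComm Bool (Fin m)).trans (Equiv.prodCongr (Equiv.refl _) finTwoEquiv.symm))
  let e : κ ≃ Fin (m * 2) := (Equiv.sumCompl p).symm.trans
    ((Equiv.sumCongr e1 e2).trans (s.trans finProdFinEquiv))
  refine ⟨e, fun k => ?_⟩
  by_cases hk : p k
  · have h3 : (e k : ℕ) = 2 * (e1 ⟨k, hk⟩ : ℕ) := by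
      change ((finProdFinEquiv (s ((Equiv.sumCongr e1 e2) ((Equiv.sumCompl p).symm k))) : _) : ℕ) = _
      rw [Equiv.sumCompl_symm_apply_of_pos hk]
      change 0 + 2 * (e1 ⟨k, hk⟩ : ℕ) = _
      rw [zero_add]
    rw [h3]
    exact ⟨fun _ => even_two_mul _, fun _ => hk⟩
  · have h3 : (e k : ℕ) = 1 + 2 * (e2 ⟨k, hk⟩ : ℕ) := by
      change ((finProdFinEquiv (s ((Equiv.sumCongr e1 e2) ((Equiv.sumCompl p).symm k))) : _) : ℕ) = _
      rw [Equiv.sumCompl_symm_apply_of_neg hk]
      rfl
    rw [h3]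
    constructor
    · intro h
      exact absurd h hk
    · intro h
      exfalso
      obtain ⟨r, hr⟩ := h
      omega

/-- The sign of the product of the differences. -/
theorem sign_prod {n : ℕ} (e : κ ≃ Fin n) (y : κ → ℝ) (hy : ∀ k, |y k + (e k : ℕ)| < 1 / 3)
    (k : κ) : 0 < (-1 : ℝ) ^ (e k : ℕ) * ∏ l ∈ Finset.univ.erase k, (y k - y l) := by
  have h1 : ∀ l ∈ Finset.univ.erase k, y k - y l = (if e l < e k then (-1 : ℝ) else 1) * |y k - y l| := by
    intro l hl
    have hlk : l ≠ k := Finset.ne_of_mem_erase hl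
    have h2 := abs_lt.1 (hy k)
    have h3 := abs_lt.1 (hy l)
    split_ifs with h
    · have h4 : ((e l : ℕ) : ℝ) + 1 ≤ ((e k : ℕ) : ℝ) := by exact_mod_cast h
      rw [abs_of_neg (by linarith)]
      ring
    · have h5 : e k < e l := lt_of_le_of_ne (not_lt.1 h) fun h6 => hlk (e.injective h6.symm)
      have h4 : ((e k : ℕ) : ℝ) + 1 ≤ ((e l : ℕ) : ℝ) := by exact_mod_cast h5
      rw [abs_of_pos (by linarith)]
      ring
  have h2 : ∏ l ∈ Finset.univ.erase k, (if e l < e k then (-1 : ℝ) else 1) =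
      (-1 : ℝ) ^ (e k : ℕ) := by
    rw [Finset.prod_ite, Finset.prod_const, Finset.prod_const_one, mul_one]
    congr 1
    have h3 : (Finset.univ.erase k).filter (fun l => e l < e k) =
        (Finset.univ.filter (fun i : Fin n => i < e k)).map e.symm.toEmbedding := by
      ext l
      simp only [Finset.mem_filter, Finset.mem_erase, Finset.mem_univ, and_true, Finset.mem_map,
        true_and, Equiv.coe_toEmbedding]
      constructor
      · rintro ⟨h4, h5⟩
        exact ⟨e l, h5, e.symm_apply_apply l⟩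
      · rintro ⟨i, hi, rfl⟩
        rw [e.apply_symm_apply]
        refine ⟨?_, hi⟩
        rintro rfl
        rw [e.apply_symm_apply] at hi
        exact lt_irrefl _ hi
    rw [h3, Finset.card_map]
    have h4 : (Finset.univ.filter (fun i : Fin n => i < e k)) = Finset.Iio (e k) := by
      ext i
      simp
    rw [h4, Fin.card_Iio]
  rw [Finset.prod_congr rfl h1, Finset.prod_mul_distrib, h2, ← mul_assoc, ← pow_add, ← two_mul,
    pow_mul, neg_one_sq, one_pow, one_mul]
  refine Finset.prod_pos fun l hl => abs_pos.2 ?_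
  have hlk : l ≠ k := Finset.ne_of_mem_erase hl
  have h3 := abs_lt.1 (hy k)
  have h4 := abs_lt.1 (hy l)
  intro h5
  have h6 : (e l : ℕ) ≠ (e k : ℕ) := fun h => hlk (e.injective (Fin.ext h))
  rcases Nat.lt_or_gt_of_ne h6 with h7 | h7
  · have h8 : ((e l : ℕ) : ℝ) + 1 ≤ ((e k : ℕ) : ℝ) := by exact_mod_cast h7
    linarith
  · have h8 : ((e k : ℕ) : ℝ) + 1 ≤ ((e l : ℕ) : ℝ) := by exact_mod_cast h7
    linarith

/-- Euler's identity. -/
theorem euler_sum {L : Type*} [Field L] (V : κ → L) (hV : Function.Injective V)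
    (c : Polynomial L) (hm : c.natDegree + 2 ≤ Fintype.card κ) :
    ∑ k, c.eval (V k) * (∏ l ∈ Finset.univ.erase k, (V k - V l))⁻¹ = 0 := by
  have h1 := Lagrange.coeff_eq_sum (s := (Finset.univ : Finset κ)) (v := V) (hV.injOn)
    (P := c) (by
      rw [Finset.card_univ]
      refine Polynomial.degree_le_natDegree.trans_lt ?_
      exact_mod_cast (by omega : c.natDegree < Fintype.card κ))
  rw [Polynomial.coeff_eq_zero_of_natDegree_lt (by rw [Finset.card_univ]; omega)] at h1
  rw [h1]
  refine Finset.sum_congr rfl fun k _ => ?_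
  rw [div_eq_mul_inv]

end signs

end Pool.Agent.W547.LD
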