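import Pool.Agent.W547.LD.WeilVar
import Pool.Agent.W547.LD.Approx
import Pool.Agent.W547.LD.Signs

/-!
# Coordinates of the tangent space of a product belonging to orbits under a subgroup of index two
-/

set_option linter.unusedSectionVars false
set_option linter.unusedVariables false

namespace Pool.Agent.W547.LD

open NumberField Pool.Agent.H204R3.CM Pool.Agent.W547.KB Equiv Module

noncomputable section

variable {L : Type} [Field L] [NumberField L] [IsCMField L] [IsGalois ℚ L]

variable {Q : Type} [Fintype Q] (j : L →+* ℂ) (N : Subgroup (L ≃ₐ[ℚ] L))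
  (x : Q → Set (L ≃ₐ[ℚ] L)) (hx : ∀ q, IsHalf (x q))

theorem ev_wt_mul (τ σ : L ≃ₐ[ℚ] L) (q : Q) (w : (prodOf j x hx).H1) :
    τ (ev w (wt j x hx q σ)) = ev w (wt j x hx q (τ * σ)) := rfl

/-- The action of the subgroup on the orbits. -/
def act (τ : N) (k : Orb N x) : Orb N x :=
  ⟨k.1, tr τ.1 k.2.1, τ.1 * k.2.2.choose, N.mul_mem τ.2 k.2.2.choose_spec.1, by
    rw [← tr_tr, k.2.2.choose_spec.2]⟩

theorem act_bijective (τ : N) : Function.Bijective (act N x τ) := by
  refine (Finite.injective_iff_bijective).1 ?_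
  rintro ⟨q, S, hS⟩ ⟨q', S', hS'⟩ h
  have h1 : q = q' := congrArg Sigma.fst h
  subst h1
  have h2 : tr τ.1 S = tr τ.1 S' := congrArg Subtype.val (eq_of_heq (Sigma.mk.inj h).2)
  have h3 := tr_injective _ h2
  subst h3
  rfl

theorem ev_act (τ : N) (k : Orb N x) (w : (prodOf j x hx).H1) :
    τ.1 (ev w (orbWt j N x hx k)) = ev w (orbWt j N x hx (act N x τ k)) := by
  unfold orbWt
  rw [ev_wt_mul]
  congr 1
  refine (wt_eq_iff j x hx _ _ _).2 ?_
  rw [← tr_tr, k.2.2.choose_spec.2]
  exact (act N x τ k).2.2.choose_spec.2.symm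

/-- The complex conjugation on the rational homology. -/
def conjH (w : (prodOf j x hx).H1) : (prodOf j x hx).H1 := fun q => ccF j (x q) (w q)

theorem ev_conjH (w : (prodOf j x hx).H1) (q : Q) (σ : L ≃ₐ[ℚ] L) :
    ev (conjH j x hx w) (wt j x hx q σ) = cc L (ev w (wt j x hx q σ)) := by
  have h1 : (σ * cc L) = (cc L * σ) := (cc_comm j σ).symm
  change (σ * cc L) ((show fld (x q) from w q : fld (x q)) : L) =
    (cc L * σ) ((show fld (x q) from w q : fld (x q)) : L)
  rw [h1]

open Classical in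
/-- The automorphism with the same embedding up to conjugation, and in the CM type. -/
def rho (k : Orb N x) : L ≃ₐ[ℚ] L :=
  if (1 : L ≃ₐ[ℚ] L) ∈ k.2.1 then k.2.2.choose else cc L * k.2.2.choose

theorem one_mem_iff (k : Orb N x) : (1 : L ≃ₐ[ℚ] L) ∈ k.2.1 ↔ k.2.2.choose ∈ x k.1 := by
  have h1 := k.2.2.choose_spec.2
  conv_lhs => rw [← h1]
  rw [mem_tr, one_mul]

include hx in
theorem rho_mem (k : Orb N x) : rho N x k ∈ x k.1 := by
  unfold rho
  split_ifs with h
  · exact (one_mem_iff N x k).1 h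
  · by_contra h1
    exact h ((one_mem_iff N x k).2 ((hx k.1 _).2 h1))

/-- The coordinates of the tangent space. -/
def pt (k : Orb N x) : Σ q : Q, ((prodOf j x hx).factor q).Φ :=
  ⟨k.1, ⟨j.comp (emb (x k.1) (rho N x k)), (mem_typ j (x k.1) _).2 (rho_mem N x hx k)⟩⟩

open Classical in
theorem allWt_rho (k : Orb N x) : wt j x hx k.1 (rho N x k) =
    allWt j N x hx (if (1 : L ≃ₐ[ℚ] L) ∈ k.2.1 then Sum.inl k else Sum.inr k) := by
  unfold rho allWt
  split_ifs <;> rfl

theorem pt_bijective (hN : IsImag N) (hst : ∀ q, stab (x q) ≤ N) :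
    Function.Bijective (pt j N x hx) := by
  classical
  have hb := allWt_bijective j N x hx hN hst
  constructor
  · intro k l h
    have h0 := congrArg Sigma.fst h
    have h1 : k.1 = l.1 := h0
    have h2 : wt j x hx k.1 (rho N x k) = wt j x hx l.1 (rho N x l) := by
      obtain ⟨q, S, hS⟩ := k
      obtain ⟨q', S', hS'⟩ := l
      dsimp only at h1
      subst h1
      rw [wt_eq_iff, ← emb_eq_iff]
      have h3 := congrArg Subtype.val (eq_of_heq (Sigma.mk.inj h).2)
      ext a
      exact j.injective (RingHom.congr_fun h3 a)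
    rw [allWt_rho, allWt_rho] at h2
    have h3 := hb.1 h2
    split_ifs at h3 with h4 h5 h5
    · exact Sum.inl_injective h3
    · exact Sum.inr_injective h3
  · rintro ⟨q, φ, hφ⟩
    obtain ⟨σ, hσ, hσφ⟩ := hφ
    obtain ⟨s, hs⟩ := hb.2 (wt j x hx q σ)
    have h0 : (1 : L ≃ₐ[ℚ] L) ∈ tr σ (x q) := by
      rw [mem_tr, one_mul]
      exact hσ
    rcases s with k | k
    · have h1 : k.1 = q := wt_fst_eq j x hx hs
      subst h1
      have h2 := (wt_eq_iff j x hx _ _ _).1 hs
      have h3 : (1 : L ≃ₐ[ℚ] L) ∈ k.2.1 := by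
        rw [← k.2.2.choose_spec.2, h2]
        exact h0
      refine ⟨k, ?_⟩
      unfold pt
      congr 1
      refine Subtype.ext ?_
      dsimp only
      rw [hσφ]
      congr 1
      refine (emb_eq_iff (x k.1) _ _).2 ?_
      rw [← h2]
      unfold rho
      rw [if_pos h3]
    · have h1 : k.1 = q := wt_fst_eq j x hx hs
      subst h1
      have h2 := (wt_eq_iff j x hx _ _ _).1 hs
      have h3 : (1 : L ≃ₐ[ℚ] L) ∉ k.2.1 := by
        rw [← h2] at h0
        rw [← tr_tr, k.2.2.choose_spec.2, mem_tr, one_mul] at h0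
        obtain ⟨τ, hτ, hτ'⟩ := k.2.2
        rw [← hτ'] at h0 ⊢
        have h4 := isHalf_tr j (hx k.1) τ 1
        rw [mul_one] at h4
        tauto
      refine ⟨k, ?_⟩
      unfold pt
      congr 1
      refine Subtype.ext ?_
      dsimp only
      rw [hσφ]
      congr 1
      refine (emb_eq_iff (x k.1) _ _).2 ?_
      rw [← h2]
      unfold rho
      rw [if_neg h3]

/-- The coordinate of a tangent vector. -/
def coo (k : Orb N x) (u : (prodOf j x hx).Tan) : ℂ := u (pt j N x hx k).1 (pt j N x hx k).2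

open Classical in
theorem coo_per (k : Orb N x) (w : (prodOf j x hx).H1) :
    coo j N x hx k ((prodOf j x hx).per w) =
      if (1 : L ≃ₐ[ℚ] L) ∈ k.2.1 then j (ev w (orbWt j N x hx k)) else
        starRingEnd ℂ (j (ev w (orbWt j N x hx k))) := by
  have h1 : coo j N x hx k ((prodOf j x hx).per w) = j (ev w (wt j x hx k.1 (rho N x k))) := rfl
  rw [h1]
  unfold rho orbWt
  split_ifs with h
  · rfl
  · rw [← ev_wt_mul, emb_cc]

/-- A real element of the rational homology whose coordinates are close to given real numbers. -/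
theorem exists_theta (hN : IsImag N) (hst : ∀ q, stab (x q) ≤ N) (c : Orb N x → ℝ) {ε : ℝ}
    (hε : 0 < ε) : ∃ θ : (prodOf j x hx).H1,
      (∀ k, cc L (ev θ (orbWt j N x hx k)) = ev θ (orbWt j N x hx k)) ∧
      ∀ k, |(j (ev θ (orbWt j N x hx k))).re - c k| < ε := by
  classical
  have hb := pt_bijective j N x hx hN hst
  let e := Equiv.ofBijective _ hb
  obtain ⟨w, hw⟩ := exists_approx (prodOf j x hx)
    (fun q φ => ((c (e.symm ⟨q, φ⟩) : ℝ) : ℂ)) hε
  refine ⟨(2⁻¹ : ℚ) • (w + conjH j x hx w), fun k => ?_, fun k => ?_⟩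
  · have h1 : ev ((2⁻¹ : ℚ) • (w + conjH j x hx w)) (orbWt j N x hx k) =
        (2⁻¹ : ℚ) • (ev w (orbWt j N x hx k) + cc L (ev w (orbWt j N x hx k))) := by
      have h2 := (evLin (orbWt j N x hx k)).map_smul (2⁻¹ : ℚ) (w + conjH j x hx w)
      rw [map_add] at h2
      refine h2.trans ?_
      congr 2
      exact ev_conjH j x hx w _ _
    have h2 : cc L (cc L (ev w (orbWt j N x hx k))) = ev w (orbWt j N x hx k) :=
      AlgEquiv.congr_fun cc_cc (ev w (orbWt j N x hx k))
    rw [h1, Rat.smul_def, map_mul, map_ratCast, map_add, h2]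
    ring
  · have h1 : ev ((2⁻¹ : ℚ) • (w + conjH j x hx w)) (orbWt j N x hx k) =
        (2⁻¹ : ℚ) • (ev w (orbWt j N x hx k) + cc L (ev w (orbWt j N x hx k))) := by
      have h2 := (evLin (orbWt j N x hx k)).map_smul (2⁻¹ : ℚ) (w + conjH j x hx w)
      rw [map_add] at h2
      refine h2.trans ?_
      congr 2
      exact ev_conjH j x hx w _ _
    have h2 : (j (ev ((2⁻¹ : ℚ) • (w + conjH j x hx w)) (orbWt j N x hx k))).re =
        (j (ev w (orbWt j N x hx k))).re := by
      rw [h1, Rat.smul_def, map_mul, map_add, emb_cc, map_ratCast]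
      have h3 : (((2⁻¹ : ℚ) : ℂ)) = ((2⁻¹ : ℝ) : ℂ) := by push_cast; rfl
      rw [h3, Complex.re_ofReal_mul, Complex.add_re, Complex.conj_re]
      ring
    have h3 : (coo j N x hx k ((prodOf j x hx).per w)).re = (j (ev w (orbWt j N x hx k))).re := by
      rw [coo_per]
      split_ifs
      · rfl
      · rw [Complex.conj_re]
    rw [h2, ← h3]
    have h4 := hw (pt j N x hx k).1 (pt j N x hx k).2
    have h5 : e.symm ⟨(pt j N x hx k).1, (pt j N x hx k).2⟩ = k := e.symm_apply_apply k
    rw [h5] at h4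
    refine lt_of_le_of_lt ?_ h4
    have h6 := Complex.abs_re_le_norm (coo j N x hx k ((prodOf j x hx).per w) - ((c k : ℝ) : ℂ))
    rw [Complex.sub_re, Complex.ofReal_re] at h6
    exact h6

end

end Pool.Agent.W547.LD
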