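import Mathlib
import Pool.Agent.W547.KB.Defs

/-!
# Powers of abelian varieties of CM type, split Weil classes of imaginary quadratic fields, and the
ring generated by divisors and pull-backs of split Weil classes
-/

namespace Pool.Agent.W547.LD

open NumberField Pool.Agent.H204R3.CM Pool.Agent.W547.KB

/-- The power `A ^ n` of the abelian variety `A` of CM type `(E, Φ)`. -/
abbrev power (A : CMPair) (n : ℕ) : CMAV := ⟨Fin n, fun _ => A⟩

/-- `E : H_1(Y, ℚ) × H_1(Y, ℚ) → ℚ` is the Riemann form of a polarization of the abelian variety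
`Y`: the restriction of the imaginary part of a positive definite Hermitian form `H` on the tangent
space (linear in the first variable). Such an `E` is bilinear and alternating. -/
def IsPolarization (Y : CMAV) (E : Y.H1 → Y.H1 → ℚ) : Prop :=
  ∃ H : Y.Tan → Y.Tan → ℂ, (∀ u', IsLinearMap ℂ fun u => H u u') ∧
    (∀ u u', H u' u = starRingEnd ℂ (H u u')) ∧ (∀ u, u ≠ 0 → 0 < (H u u).re) ∧
    ∀ v w, (H (Y.per v) (Y.per w)).im = E v w

/-- The abelian variety `Y` with the endomorphism `h` (a square root of a negative integer) is split: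
for some polarization `E` of `Y` with `E (h v) w = - E v (h w)` there is a subspace `W` of
`H_1(Y, ℚ)`, of half the dimension, stable under `h` and isotropic for `E`. -/
def IsSplit (Y : CMAV) (h : Y.H1 →ₗ[ℚ] Y.H1) : Prop :=
  ∃ (E : Y.H1 → Y.H1 → ℚ) (W : Submodule ℚ Y.H1), IsPolarization Y E ∧
    (∀ v w, E (h v) w = -E v (h w)) ∧ 2 * Module.finrank ℚ W = Module.finrank ℚ Y.H1 ∧
    (∀ w ∈ W, h w ∈ W) ∧ ∀ v ∈ W, ∀ w ∈ W, E v w = 0

/-- `f ∈ H^n(Y, ℚ)` is a Weil class of an imaginary quadratic field on the abelian variety `Y` of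
dimension `n` (so that `H_1(Y, ℚ)` has dimension `2 n`), and `Y` is of split Weil type. That is,
`f` is a Hodge class, and there are a positive integer `d` and an endomorphism `h = √-d` of `Y`, such
that `h` may be moved in `f` from each variable to each other variable (so `f` lies in
the line `Λ^n_K H¹(Y, ℚ)` over the field `K = ℚ(√-d)`), and such that `Y` with `h` is split. -/
def IsSplitWeilClass (Y : CMAV) (n : ℕ) (f : Y.H1 [⋀^Fin n]→ₗ[ℚ] ℚ) : Prop :=
  Module.finrank ℚ Y.H1 = 2 * n ∧ IsHodge Y.per f ∧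
    ∃ (d : ℕ) (h : Y.H1 →ₗ[ℚ] Y.H1), 0 < d ∧ IsHom Y Y h ∧ (∀ w, h (h w) = -((d : ℚ) • w)) ∧
      (∀ (v : Fin n → Y.H1) (k l : Fin n),
        f (Function.update v k (h (v k))) = f (Function.update v l (h (v l)))) ∧ IsSplit Y h

/-- The ring generated by the classes of divisors and by split Weil classes: the smallest system of
cohomology classes `f ∈ H^κ(X, ℚ)` of the abelian variety `X` of CM type (alternating forms on
`H_1(X, ℚ)` in variables indexed by the finite set `κ`) which contains the classes of degree zero,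
the Hodge classes of degree two and the pull-backs, along homomorphisms `X → Y`, of the Weil classes
of imaginary quadratic fields on abelian varieties `Y` of CM type of dimension four or six and of
split Weil type, and which is stable under linear combinations and cup products. -/
inductive DWRing (X : CMAV) : (κ : Type) → (X.H1 [⋀^κ]→ₗ[ℚ] ℚ) → Prop
  /-- classes of degree zero -/
  | unit {κ : Type} [IsEmpty κ] (f : X.H1 [⋀^κ]→ₗ[ℚ] ℚ) : DWRing X κ f
  /-- Hodge classes of degree two -/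
  | divisor {κ : Type} (hκ : Nat.card κ = 2) (f : X.H1 [⋀^κ]→ₗ[ℚ] ℚ)
      (hf : IsHodge X.per f) : DWRing X κ f
  /-- pull-backs of split Weil classes on abelian varieties of dimension four or six -/
  | weil {Y : CMAV} {n : ℕ} (hn : n = 4 ∨ n = 6) (f : Y.H1 [⋀^Fin n]→ₗ[ℚ] ℚ)
      (hf : IsSplitWeilClass Y n f) (h : X.H1 →ₗ[ℚ] Y.H1) (hh : IsHom X Y h) :
      DWRing X (Fin n) (f.compLinearMap h)
  | zero (κ : Type) : DWRing X κ 0
  | add {κ : Type} (f g : X.H1 [⋀^κ]→ₗ[ℚ] ℚ) (hf : DWRing X κ f) (hg : DWRing X κ g) :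
      DWRing X κ (f + g)
  | smul {κ : Type} (a : ℚ) (f : X.H1 [⋀^κ]→ₗ[ℚ] ℚ) (hf : DWRing X κ f) :
      DWRing X κ (a • f)
  /-- renaming of the variables -/
  | reindex {κ κ' : Type} (e : κ ≃ κ') (f : X.H1 [⋀^κ]→ₗ[ℚ] ℚ) (hf : DWRing X κ f) :
      DWRing X κ' (f.domDomCongr e)
  /-- cup products (up to a factor) -/
  | cup {κ κ' : Type} [Fintype κ] [DecidableEq κ] [Fintype κ'] [DecidableEq κ']
      (f : X.H1 [⋀^κ]→ₗ[ℚ] ℚ) (g : X.H1 [⋀^κ']→ₗ[ℚ] ℚ) (hf : DWRing X κ f) (hg : DWRing X κ' g)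
      (h : X.H1 [⋀^κ ⊕ κ']→ₗ[ℚ] ℚ)
      (hh : ∀ v : κ ⊕ κ' → X.H1, h v = ∑ σ : Equiv.Perm (κ ⊕ κ'), ((Equiv.Perm.sign σ : ℤ) : ℚ) *
        (f (fun k => v (σ (Sum.inl k))) * g (fun k => v (σ (Sum.inr k))))) :
      DWRing X (κ ⊕ κ') h

end Pool.Agent.W547.LD
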