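import Pool.Agent.W547.LD.PrimeOrd

/-!
# The subgroup of index two belonging to a relation
-/

set_option linter.unusedSectionVars false
set_option linter.unusedVariables false

namespace Pool.Agent.W547.LD.Comb

open Finset

noncomputable section

variable {G : Type} [Group G] [Fintype G] {P : Set (Set G)} {a b : Set G → ℚ}

theorem wgt_pos (h : a ≠ 0) : 0 < wgt a := by
  classical
  obtain ⟨S, hS⟩ := Function.ne_iff.1 h
  exact Finset.sum_pos' (fun _ _ => abs_nonneg _) ⟨S, Finset.mem_univ _, abs_pos.2 hS⟩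

/-- The subgroup of index two. -/
theorem extract {c : G} (hc : ∀ g, c * g = g * c) (hP : Stable P) (hH : ∀ S ∈ P, Half c S)
    (hR : RankOne P) (ha : IsRel P a) (h0 : a ≠ 0) :
    ∃ N : Subgroup G, (c ∉ N ∧ ∀ τ, τ ∉ N → c * τ ∈ N) ∧ (∀ τ ∈ N, ∀ S, a (tr τ S) = a S) ∧
      ∀ τ, τ ∉ N → ∀ S, a (tr τ S) = -a S := by
  classical
  have hq : ∀ τ, (∀ S, a (tr τ S) = a S) ∨ (∀ S, a (tr τ S) = -a S) := by
    intro τ
    obtain ⟨q, hq⟩ := hR a _ ha (ha.tr hP τ) h0
    have h1 : wgt (fun S => a (tr τ S)) = wgt a := by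
      unfold wgt
      exact Fintype.sum_equiv (trE τ) _ _ fun S => rfl
    have h2 : wgt (q • a) = |q| * wgt a := by
      unfold wgt
      rw [Finset.mul_sum]
      refine Finset.sum_congr rfl fun S _ => ?_
      rw [Pi.smul_apply, smul_eq_mul, abs_mul]
    rw [hq, h2] at h1
    have h3 : |q| = 1 := by
      have h4 := wgt_pos h0
      have h5 : (|q| - 1) * wgt a = 0 := by linarith
      have h6 := (mul_eq_zero.1 h5).resolve_right h4.ne'
      linarith
    rcases (abs_eq (by norm_num : (0 : ℚ) ≤ 1)).1 h3 with h4 | h4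
    · left
      intro S
      have h5 := congrFun hq S
      rw [h4, one_smul] at h5
      exact h5
    · right
      intro S
      have h5 := congrFun hq S
      rw [h4, neg_one_smul] at h5
      exact h5
  let N : Subgroup G :=
    { carrier := {τ | ∀ S, a (tr τ S) = a S}
      one_mem' := fun S => by rw [tr_one]
      mul_mem' := fun {τ τ'} h h' S => by rw [← tr_tr, h, h']
      inv_mem' := fun {τ} h S => by
        have h1 := h (tr τ⁻¹ S)
        rw [tr_tr_inv] at h1
        exact h1.symm }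
  have hcS : ∀ S, a (tr c S) = -a S := by
    intro S
    by_cases hS : S ∈ P
    · rw [tr_c hc (hH S hS), ha.odd]
    · have h1 : tr c S ∉ P := by
        intro h
        have h2 := hP c⁻¹ _ h
        rw [tr_inv_tr] at h2
        exact hS h2
      rw [ha.supp _ h1, ha.supp _ hS, neg_zero]
  refine ⟨N, ⟨?_, ?_⟩, fun τ hτ => hτ, ?_⟩
  · intro h
    obtain ⟨S, hS⟩ := Function.ne_iff.1 h0
    have h1 : a (tr c S) = a S := h S
    rw [hcS] at h1
    apply hS
    change a S = 0
    linarith
  · intro τ hτ S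
    rw [← tr_tr, hcS]
    rcases hq τ with h | h
    · exact absurd h hτ
    · rw [h, neg_neg]
  · intro τ hτ S
    rcases hq τ with h | h
    · exact absurd h hτ
    · exact h S

/-- The orbit of a half system under a subgroup. -/
abbrev OrbT (N : Subgroup G) (x : Set G) : Type := {S : Set G // ∃ τ ∈ N, tr τ x = S}

open Classical in
theorem even_of_sum {ι : Type*} [Fintype ι] (r : ι → Set G) (σ : G)
    (h : ∑ i, eps (r i) σ = 0) : Even (Fintype.card ι) := by
  choose n hn using fun i => (show ∃ n : ℤ, eps (r i) σ = 1 + 2 * (n : ℚ) by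
    rcases eps_cases (r i) σ with h2 | h2
    · exact ⟨0, by rw [h2]; norm_num⟩
    · exact ⟨-1, by rw [h2]; norm_num⟩)
  rw [Finset.sum_congr rfl (fun i _ => hn i), Finset.sum_add_distrib, Finset.sum_const,
    Finset.card_univ, nsmul_eq_mul, mul_one, ← Finset.mul_sum] at h
  have h5 : (Fintype.card ι : ℤ) + 2 * ∑ i, n i = 0 := by exact_mod_cast h
  rw [← Int.even_coe_nat]
  exact ⟨-∑ i, n i, by linarith⟩

section orbit

variable {c : G} (hc : ∀ g, c * g = g * c) (hP : Stable P) (hcompl : ∀ S ∈ P, Sᶜ ∈ P)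
  (hH : ∀ S ∈ P, Half c S) (ha : IsRel P a) {N : Subgroup G} (hN : c ∉ N ∧ ∀ τ, τ ∉ N → c * τ ∈ N)
  (hpos : ∀ τ ∈ N, ∀ S, a (tr τ S) = a S) (hneg : ∀ τ, τ ∉ N → ∀ S, a (tr τ S) = -a S)
  {x : Set G} (hx : a x ≠ 0)

include hpos in
theorem orb_val (S : OrbT N x) : a S.1 = a x := by
  obtain ⟨τ, hτ, h⟩ := S.2
  rw [← h, hpos τ hτ]

include ha hpos hx in
theorem orb_ne_compl (S T : OrbT N x) : S.1 ≠ (T.1)ᶜ := by
  intro h
  have h1 := orb_val hpos S
  rw [h, ha.odd, orb_val hpos T] at h1
  exact hx (by linarith)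

include hneg hx in
theorem stb_le : stb x ≤ N := by
  intro τ hτ
  by_contra h
  have h1 := hneg τ h x
  rw [show tr τ x = x from hτ] at h1
  exact hx (by linarith)

include hc hH hN in
theorem orb_cover (hxP : x ∈ P) {S : Set G} (hS : ∃ g, tr g x = S) :
    ∃ T : OrbT N x, S = T.1 ∨ S = (T.1)ᶜ := by
  obtain ⟨g, hg⟩ := hS
  by_cases h : g ∈ N
  · exact ⟨⟨S, g, h, hg⟩, Or.inl rfl⟩
  · refine ⟨⟨Sᶜ, c * g, hN.2 g h, ?_⟩, Or.inr (compl_compl S).symm⟩
    rw [hc, ← tr_tr, tr_c hc (hH x hxP), tr_compl, hg]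

include hP ha hx in
theorem mem_of_ne : x ∈ P := by
  by_contra h
  exact hx (ha.supp x h)

include hP hcompl ha hpos hx in
theorem two_card_le : 2 * Nat.card (OrbT N x) ≤ P.ncard := by
  have hxP := mem_of_ne hP ha hx
  have h1 : Function.Injective (fun s : OrbT N x ⊕ OrbT N x =>
      (Sum.elim (fun S => (S.1 : Set G)) (fun S => (S.1 : Set G)ᶜ) s)) := by
    rintro (S | S) (T | T) h
    · exact congrArg Sum.inl (Subtype.ext h)
    · exact absurd h (orb_ne_compl ha hpos hx S T)
    · exact absurd h.symm (orb_ne_compl ha hpos hx T S)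
    · exact congrArg Sum.inr (Subtype.ext (compl_injective h))
  have h2 : Nat.card (OrbT N x ⊕ OrbT N x) ≤ P.ncard := by
    rw [← Set.ncard_range_of_injective h1]
    refine Set.ncard_le_ncard ?_ (Set.toFinite _)
    rintro _ ⟨S | S, rfl⟩
    · obtain ⟨τ, -, h⟩ := S.2
      change S.1 ∈ P
      rw [← h]
      exact hP _ _ hxP
    · obtain ⟨τ, -, h⟩ := S.2
      change (S.1)ᶜ ∈ P
      rw [← h]
      exact hcompl _ (hP _ _ hxP)
  rw [Nat.card_sum] at h2
  omega

open Classical in
include hc hP hH ha hN hpos hx in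
theorem orb_sum (hT : Trans P) (σ : G) : ∑ S : OrbT N x, eps S.1 σ = 0 := by
  have hxP := mem_of_ne hP ha hx
  have h1 := ha.rep (fun S : OrbT N x => S.1) Subtype.val_injective
    (fun S T => orb_ne_compl ha hpos hx S T) (fun S hS => by
      have hSP : S ∈ P := by
        by_contra h
        exact hS (ha.supp S h)
      exact orb_cover hc hH hN hxP (hT x hxP S hSP)) σ
  have h2 : a x * ∑ S : OrbT N x, eps S.1 σ = 0 := by
    rw [Finset.mul_sum]
    refine (Finset.sum_congr rfl fun S _ => ?_).trans h1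
    rw [orb_val hpos S]
  exact (mul_eq_zero.1 h2).resolve_left hx

open Classical in
include hc hP hcompl hH ha hN hpos hx in
theorem orb_card (hT : Trans P) (hcard : P.ncard ≤ 14) :
    Fintype.card (OrbT N x) = 4 ∨ Fintype.card (OrbT N x) = 6 := by
  have hxP := mem_of_ne hP ha hx
  have h1 := even_of_sum (fun S : OrbT N x => S.1) 1 (orb_sum hc hP hH ha hN hpos hx hT 1)
  have h2 := two_card_le hP hcompl ha hpos hx
  rw [Nat.card_eq_fintype_card] at h2
  have h3 : ¬ (2 * Fintype.card (OrbT N x) ≤ 6) := by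
    intro h
    apply hx
    have h4 : a = 0 := by
      refine ha.eq_zero_of_card ?_
      have h5 : {S | a S ≠ 0} ⊆ Set.range (Sum.elim (fun S : OrbT N x => (S.1 : Set G))
          (fun S : OrbT N x => (S.1 : Set G)ᶜ)) := by
        intro S hS
        have hSP : S ∈ P := by
          by_contra h
          exact hS (ha.supp S h)
        obtain ⟨T, h | h⟩ := orb_cover hc hH hN hxP (hT x hxP S hSP)
        · exact ⟨Sum.inl T, h.symm⟩
        · exact ⟨Sum.inr T, h.symm⟩
      refine (Set.ncard_le_ncard h5 (Set.toFinite _)).trans ?_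
      rw [← Set.image_univ]
      refine (Set.ncard_image_le (Set.toFinite _)).trans ?_
      rw [Set.ncard_univ, Nat.card_sum, Nat.card_eq_fintype_card]
      omega
    rw [h4]
    rfl
  obtain ⟨m, hm⟩ := h1
  omega

end orbit

theorem even_ncard (hcompl : ∀ S ∈ P, Sᶜ ∈ P) : Even P.ncard := by
  classical
  let A : Set (Set G) := {S | S ∈ P ∧ (1 : G) ∈ S}
  have h1 : P = A ∪ compl '' A := by
    ext S
    constructor
    · intro h
      by_cases h2 : (1 : G) ∈ S
      · exact Or.inl ⟨h, h2⟩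
      · exact Or.inr ⟨Sᶜ, ⟨hcompl S h, h2⟩, compl_compl S⟩
    · rintro (h | ⟨T, h, rfl⟩)
      · exact h.1
      · exact hcompl T h.1
  have h2 : Disjoint A (compl '' A) := by
    rw [Set.disjoint_left]
    rintro _ h ⟨T, h', rfl⟩
    exact h.2 h'.2
  rw [h1, Set.ncard_union_eq h2 (Set.toFinite _) (Set.toFinite _),
    Set.ncard_image_of_injective _ compl_injective]
  exact ⟨_, rfl⟩

theorem rankOne_trans (hP : Stable P) (hcompl : ∀ S ∈ P, Sᶜ ∈ P) (hT : Trans P)
    (hcard : P.ncard ≤ 14) : RankOne P := by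
  by_cases h : P.ncard ≤ 10
  · exact rankOne_of_card_le_ten hcompl h
  · obtain ⟨m, hm⟩ := even_ncard hcompl
    have h1 : P.ncard = 12 ∨ P.ncard = 2 * 7 := by omega
    rcases h1 with h1 | h1
    · exact rankOne_twelve hP hcompl hT h1
    · intro a b ha hb hne
      exact absurd (eq_zero_prime hP hcompl hT (by norm_num : Nat.Prime 7) (by norm_num) h1 ha) hne

end

end Pool.Agent.W547.LD.Comb
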