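import Pool.Agent.W547.LD.Span

/-!
# The CM field and the CM type belonging to a half system
-/

set_option linter.unusedSectionVars false
set_option linter.unusedVariables false

namespace Pool.Agent.W547.LD

open NumberField Pool.Agent.H204R3.CM Pool.Agent.W547.KB Equiv Module

noncomputable section

/-- A totally complex number field with a complex conjugation is a CM field. -/
theorem isCM_of_conj (K : Type) [Field K] [NumberField K] [IsTotallyComplex K] {σ : K ≃ₐ[ℚ] K}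
    (hσ : ∀ φ : K →+* ℂ, ComplexEmbedding.IsConj φ σ) : IsCMField K := by
  let φ : K →+* ℂ := Classical.choice (inferInstance : Nonempty _)
  have hσ' : Nat.card (Subgroup.zpowers σ) = 2 := by
    rw [Nat.card_zpowers, ComplexEmbedding.orderOf_isConj_two_of_ne_one (hσ φ)]
    exact (ComplexEmbedding.isConj_ne_one_iff (hσ φ)).mpr <|
      IsTotallyComplex.complexEmbedding_not_isReal φ
  have : Finite (Subgroup.zpowers σ) := Nat.finite_of_card_ne_zero (by positivity)
  let F := (FixedPoints.intermediateField (Subgroup.zpowers σ) : IntermediateField ℚ K)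
  have hG : IsGaloisGroup (Subgroup.zpowers σ) F K :=
    { faithful := inferInstance
      commutes := ⟨fun g a b => by
        have h1 : g • (a : K) = (a : K) := a.2 g
        rw [IntermediateField.smul_def, IntermediateField.smul_def, smul_eq_mul, smul_eq_mul,
          smul_mul', h1]⟩
      isInvariant := ⟨fun b hb => ⟨⟨b, hb⟩, rfl⟩⟩ }
  have : IsTotallyReal F := ⟨fun w ↦ by
    obtain ⟨W, rfl⟩ := w.comap_surjective (K := K)
    dsimp only
    rw [← InfinitePlace.mk_embedding W, InfinitePlace.comap_mk, InfinitePlace.isReal_mk_iff]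
    exact ComplexEmbedding.IsConj.isReal_comp
     (σ := IsGaloisGroup.mulEquivAlgEquiv (Subgroup.zpowers σ) F K ⟨σ, Subgroup.mem_zpowers σ⟩)
      (hσ W.embedding)⟩
  have : Algebra.IsQuadraticExtension F K := ⟨by
    rw [← IsGaloisGroup.card_eq_finrank (Subgroup.zpowers σ) F K, hσ']⟩
  exact IsCMField.ofCMExtension F K

section tr

variable {G : Type*} [Group G]

/-- Right translates. -/
def tr (τ : G) (S : Set G) : Set G := {σ | σ * τ ∈ S}

theorem mem_tr (τ σ : G) (S : Set G) : σ ∈ tr τ S ↔ σ * τ ∈ S := Iff.rfl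

theorem tr_one (S : Set G) : tr 1 S = S := by
  ext σ
  rw [mem_tr, mul_one]

theorem tr_tr (τ τ' : G) (S : Set G) : tr τ (tr τ' S) = tr (τ * τ') S := by
  ext σ
  rw [mem_tr, mem_tr, mem_tr, mul_assoc]

theorem tr_compl (τ : G) (S : Set G) : tr τ Sᶜ = (tr τ S)ᶜ := rfl

theorem tr_inv_tr (τ : G) (S : Set G) : tr τ⁻¹ (tr τ S) = S := by
  rw [tr_tr, inv_mul_cancel, tr_one]

theorem tr_tr_inv (τ : G) (S : Set G) : tr τ (tr τ⁻¹ S) = S := by
  rw [tr_tr, mul_inv_cancel, tr_one]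

theorem tr_injective (τ : G) : Function.Injective (tr τ) := by
  intro S T h
  rw [← tr_inv_tr τ S, h, tr_inv_tr]

/-- The right stabilizer of a subset. -/
def stab (S : Set G) : Subgroup G where
  carrier := {τ | tr τ S = S}
  one_mem' := tr_one S
  mul_mem' {τ τ'} h h' := by
    change tr (τ * τ') S = S
    rw [← tr_tr, show tr τ' S = S from h', show tr τ S = S from h]
  inv_mem' {τ} h := by
    change tr τ⁻¹ S = S
    have h1 : tr τ S = S := h
    conv_lhs => rw [← h1]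
    exact tr_inv_tr τ S

theorem mem_stab (τ : G) (S : Set G) : τ ∈ stab S ↔ tr τ S = S := Iff.rfl

end tr

variable {L : Type} [Field L] [NumberField L] [IsCMField L] [IsGalois ℚ L]

theorem tr_cc (j : L →+* ℂ) {S : Set (L ≃ₐ[ℚ] L)} (hS : IsHalf S) : tr (cc L) S = Sᶜ := by
  ext σ
  rw [mem_tr, ← cc_comm j σ, Set.mem_compl_iff]
  have := hS σ
  tauto

theorem ne_compl (S : Set (L ≃ₐ[ℚ] L)) : S ≠ Sᶜ := by
  intro h
  by_cases h1 : (1 : L ≃ₐ[ℚ] L) ∈ S
  · have h2 := h1
    rw [h] at h2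
    exact h2 h1
  · exact h1 (by rw [h]; exact h1)

theorem isHalf_tr (j : L →+* ℂ) {S : Set (L ≃ₐ[ℚ] L)} (hS : IsHalf S) (τ : L ≃ₐ[ℚ] L) :
    IsHalf (tr τ S) := by
  intro σ
  rw [mem_tr, mem_tr, hS (σ * τ), mul_assoc]

/-- The fixed field of the right stabilizer. -/
def fld (S : Set (L ≃ₐ[ℚ] L)) : IntermediateField ℚ L := IntermediateField.fixedField (stab S)

theorem mem_fld (S : Set (L ≃ₐ[ℚ] L)) (x : L) : x ∈ fld S ↔ ∀ τ ∈ stab S, τ x = x := by
  unfold fld
  rw [IntermediateField.mem_fixedField_iff]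

theorem mem_stab_iff (S : Set (L ≃ₐ[ℚ] L)) (τ : L ≃ₐ[ℚ] L) :
    τ ∈ stab S ↔ ∀ x ∈ fld S, τ x = x := by
  have h := IntermediateField.fixingSubgroup_fixedField (stab S)
  constructor
  · intro h1 x hx
    exact (mem_fld S x).1 hx τ h1
  · intro h1
    rw [← h, IntermediateField.mem_fixingSubgroup_iff]
    exact h1

/-- The embedding of the fixed field given by an automorphism. -/
def emb (S : Set (L ≃ₐ[ℚ] L)) (τ : L ≃ₐ[ℚ] L) : fld S →+* L :=
  (τ : L →+* L).comp (algebraMap (fld S) L)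

theorem emb_apply (S : Set (L ≃ₐ[ℚ] L)) (τ : L ≃ₐ[ℚ] L) (x : fld S) : emb S τ x = τ x := rfl

theorem emb_eq_iff (S : Set (L ≃ₐ[ℚ] L)) (τ τ' : L ≃ₐ[ℚ] L) :
    emb S τ = emb S τ' ↔ tr τ S = tr τ' S := by
  have h1 : emb S τ = emb S τ' ↔ τ⁻¹ * τ' ∈ stab S := by
    rw [mem_stab_iff]
    constructor
    · intro h x hx
      have h2 : τ x = τ' x := RingHom.congr_fun h ⟨x, hx⟩
      change τ⁻¹ (τ' x) = x
      rw [← h2]
      exact τ.symm_apply_apply x
    · intro h
      ext x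
      have h2 : τ⁻¹ (τ' x) = x := h x x.2
      rw [emb_apply, emb_apply]
      calc τ x = τ (τ⁻¹ (τ' x)) := by rw [h2]
        _ = τ' x := τ.apply_symm_apply _
  rw [h1, mem_stab]
  constructor
  · intro h
    have h2 := congrArg (tr τ) h
    rw [tr_tr, mul_inv_cancel_left] at h2
    exact h2.symm
  · intro h
    have h2 := congrArg (tr τ⁻¹) h
    rw [tr_inv_tr, tr_tr] at h2
    exact h2.symm

theorem exists_emb (S : Set (L ≃ₐ[ℚ] L)) (φ : fld S →+* L) : ∃ τ : L ≃ₐ[ℚ] L, φ = emb S τ := by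
  let φ' : fld S →ₐ[ℚ] L := RingHom.equivRatAlgHom (fld S) L φ
  let f : L →ₐ[ℚ] L := φ'.liftNormal L
  have hf : Function.Bijective f := AlgHom.bijective f
  refine ⟨AlgEquiv.ofBijective f hf, ?_⟩
  ext x
  exact (φ'.liftNormal_commutes L x).symm

theorem exists_embC (j : L →+* ℂ) (S : Set (L ≃ₐ[ℚ] L)) (ψ : fld S →+* ℂ) :
    ∃ τ : L ≃ₐ[ℚ] L, ψ = j.comp (emb S τ) := by
  obtain ⟨τ, hτ⟩ := comp_surjective j (ComplexEmbedding.lift L ψ)
  refine ⟨τ, ?_⟩
  have h1 : (ComplexEmbedding.lift L ψ).comp (algebraMap (fld S) L) = ψ :=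
    ComplexEmbedding.lift_comp_algebraMap L ψ
  rw [← h1, ← hτ]
  rfl

/-- The CM type belonging to a half system. -/
def typ (j : L →+* ℂ) (S : Set (L ≃ₐ[ℚ] L)) : Set (fld S →+* ℂ) :=
  {ψ | ∃ σ ∈ S, ψ = j.comp (emb S σ)}

theorem mem_typ (j : L →+* ℂ) (S : Set (L ≃ₐ[ℚ] L)) (σ : L ≃ₐ[ℚ] L) :
    j.comp (emb S σ) ∈ typ j S ↔ σ ∈ S := by
  constructor
  · rintro ⟨σ', hσ', h⟩
    have h1 : emb S σ = emb S σ' := by
      ext x
      exact j.injective (RingHom.congr_fun h x)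
    rw [emb_eq_iff] at h1
    have h2 : (1 : L ≃ₐ[ℚ] L) ∈ tr σ' S := by
      rw [mem_tr, one_mul]
      exact hσ'
    rw [← h1, mem_tr, one_mul] at h2
    exact h2
  · intro h
    exact ⟨σ, h, rfl⟩

theorem conj_emb (j : L →+* ℂ) (S : Set (L ≃ₐ[ℚ] L)) (σ : L ≃ₐ[ℚ] L) :
    ComplexEmbedding.conjugate (j.comp (emb S σ)) = j.comp (emb S (cc L * σ)) := by
  ext x
  rw [ComplexEmbedding.conjugate_coe_eq]
  change starRingEnd ℂ (j (σ x)) = j (cc L (σ x))
  rw [emb_cc]

theorem isCMType_typ (j : L →+* ℂ) {S : Set (L ≃ₐ[ℚ] L)} (hS : IsHalf S) :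
    IsCMType (typ j S) := by
  intro ψ
  obtain ⟨σ, rfl⟩ := exists_embC j S ψ
  rw [conj_emb, mem_typ, mem_typ]
  exact hS σ

/-- Complex conjugation on the fixed field. -/
def ccF (j : L →+* ℂ) (S : Set (L ≃ₐ[ℚ] L)) : fld S ≃ₐ[ℚ] fld S :=
  AlgEquiv.ofAlgHom
    (((cc L : L →ₐ[ℚ] L).comp (fld S).val).codRestrict (fld S).toSubalgebra (fun x => by
      change cc L x ∈ fld S
      rw [mem_fld]
      intro τ hτ
      have h1 : (τ * cc L) x = (cc L * τ) x := by rw [cc_comm j]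
      change (τ * cc L) x = cc L x
      rw [h1]
      exact congrArg (cc L) ((mem_fld S x).1 x.2 τ hτ)))
    (((cc L : L →ₐ[ℚ] L).comp (fld S).val).codRestrict (fld S).toSubalgebra (fun x => by
      change cc L x ∈ fld S
      rw [mem_fld]
      intro τ hτ
      have h1 : (τ * cc L) x = (cc L * τ) x := by rw [cc_comm j]
      change (τ * cc L) x = cc L x
      rw [h1]
      exact congrArg (cc L) ((mem_fld S x).1 x.2 τ hτ)))
    (by
      ext x
      exact IsCMField.complexConj_apply_apply L x)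
    (by
      ext x
      exact IsCMField.complexConj_apply_apply L x)

theorem coe_ccF (j : L →+* ℂ) (S : Set (L ≃ₐ[ℚ] L)) (x : fld S) : (ccF j S x : L) = cc L x := rfl

theorem isCM_fld (j : L →+* ℂ) {S : Set (L ≃ₐ[ℚ] L)} (hS : IsHalf S) : IsCMField (fld S) := by
  have hconj : ∀ φ : fld S →+* ℂ, ComplexEmbedding.IsConj φ (ccF j S) := by
    intro φ
    obtain ⟨σ, rfl⟩ := exists_embC j S φ
    change ComplexEmbedding.conjugate (j.comp (emb S σ)) = _
    rw [conj_emb]
    ext x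
    change j (cc L (σ x)) = j (σ (ccF j S x))
    rw [coe_ccF]
    have h1 : (cc L * σ) x = (σ * cc L) x := by rw [cc_comm j]
    exact congrArg j h1
  have htc : IsTotallyComplex (fld S) := by
    refine ⟨fun w => ?_⟩
    rw [InfinitePlace.isComplex_iff]
    intro hreal
    obtain ⟨σ, hσ⟩ := exists_embC j S w.embedding
    rw [hσ] at hreal
    have h1 : ComplexEmbedding.conjugate (j.comp (emb S σ)) = j.comp (emb S σ) := hreal
    rw [conj_emb] at h1
    have h2 : emb S (cc L * σ) = emb S σ := by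
      ext x
      exact j.injective (RingHom.congr_fun h1 x)
    rw [emb_eq_iff] at h2
    have h3 : (cc L * σ)⁻¹ * σ ∈ stab S := by
      rw [mem_stab]
      have h4 := congrArg (tr (cc L * σ)⁻¹) h2
      rw [tr_inv_tr, tr_tr] at h4
      exact h4.symm
    have h5 : (cc L * σ)⁻¹ * σ = cc L := by
      rw [cc_comm j, mul_inv_rev, mul_assoc, inv_mul_cancel, mul_one]
      exact inv_eq_of_mul_eq_one_left cc_cc
    rw [h5, mem_stab, tr_cc j hS] at h3
    exact ne_compl S h3.symm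
  exact isCM_of_conj (fld S) hconj

/-- The CM pair belonging to a half system. -/
def pairOf (j : L →+* ℂ) (S : Set (L ≃ₐ[ℚ] L)) (hS : IsHalf S) : CMPair :=
  letI := isCM_fld j hS
  ⟨fld S, typ j S, isCMType_typ j hS⟩

section weights

variable {Q : Type} [Fintype Q] (j : L →+* ℂ) (x : Q → Set (L ≃ₐ[ℚ] L)) (hx : ∀ q, IsHalf (x q))

/-- The product of the abelian varieties belonging to finitely many half systems. -/
abbrev prodOf : CMAV := ⟨Q, fun q => pairOf j (x q) (hx q)⟩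

/-- The weight given by an index and an automorphism. -/
def wt (q : Q) (τ : L ≃ₐ[ℚ] L) : Wt (prodOf j x hx) L := ⟨q, emb (x q) τ⟩

theorem St_wt (q : Q) (τ : L ≃ₐ[ℚ] L) : St j (wt j x hx q τ) = tr τ (x q) := by
  ext σ
  rw [mem_tr, ← mem_typ j (x q) (σ * τ)]
  exact Iff.rfl

theorem exists_wt (w : Wt (prodOf j x hx) L) : ∃ τ, w = wt j x hx w.1 τ := by
  obtain ⟨q, φ⟩ := w
  obtain ⟨τ, hτ⟩ := exists_emb (x q) φ
  refine ⟨τ, ?_⟩
  unfold wt
  dsimp only
  rw [← hτ]

theorem wt_eq_iff (q : Q) (τ τ' : L ≃ₐ[ℚ] L) :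
    wt j x hx q τ = wt j x hx q τ' ↔ tr τ (x q) = tr τ' (x q) := by
  rw [← emb_eq_iff]
  constructor
  · intro h
    exact eq_of_heq (Sigma.mk.inj h).2
  · intro h
    unfold wt
    rw [h]

theorem wt_fst_eq {q q' : Q} {τ τ' : L ≃ₐ[ℚ] L} (h : wt j x hx q τ = wt j x hx q' τ') : q = q' :=
  congrArg Sigma.fst h

end weights

end

end Pool.Agent.W547.LD
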