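import Pool.Agent.W547.LD.Comb

/-!
# Relations between at most five pairs of half systems
-/

set_option linter.unusedSectionVars false
set_option linter.unusedVariables false

namespace Pool.Agent.W547.LD.Comb

open Finset

noncomputable section

/-- The inequalities for two terms. -/
def TT (x : Fin 5 → ℚ) : Prop := ∀ i k, i ≠ k → 2 * (|x i| + |x k|) ≤ ∑ l, |x l|

theorem TT.zero_coord0 {x : Fin 5 → ℚ} (h : TT x) (h0 : x 0 = 0) :
    |x 2| = |x 1| ∧ |x 3| = |x 1| ∧ |x 4| = |x 1| := by
  have h12 := h 1 2 (by decide)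
  have h13 := h 1 3 (by decide)
  have h14 := h 1 4 (by decide)
  have h23 := h 2 3 (by decide)
  have h24 := h 2 4 (by decide)
  have h34 := h 3 4 (by decide)
  simp only [Fin.sum_univ_five, h0, abs_zero] at h12 h13 h14 h23 h24 h34
  refine ⟨?_, ?_, ?_⟩ <;> linarith

theorem TT.zero_coord1 {x : Fin 5 → ℚ} (h : TT x) (h1 : x 1 = 0) :
    |x 2| = |x 0| ∧ |x 3| = |x 0| ∧ |x 4| = |x 0| := by
  have h12 := h 0 2 (by decide)
  have h13 := h 0 3 (by decide)
  have h14 := h 0 4 (by decide)
  have h23 := h 2 3 (by decide)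
  have h24 := h 2 4 (by decide)
  have h34 := h 3 4 (by decide)
  simp only [Fin.sum_univ_five, h1, abs_zero] at h12 h13 h14 h23 h24 h34
  refine ⟨?_, ?_, ?_⟩ <;> linarith

theorem TT.two_zeros {x : Fin 5 → ℚ} (h : TT x) (h0 : |x 0| = |x 1|)
    (hz : (x 2 = 0 ∧ x 3 = 0) ∨ (x 2 = 0 ∧ x 4 = 0) ∨ (x 3 = 0 ∧ x 4 = 0)) : x 0 = 0 := by
  have h01 := h 0 1 (by decide)
  have h02 := h 0 2 (by decide)
  have h03 := h 0 3 (by decide)
  have h04 := h 0 4 (by decide)
  have hn := abs_nonneg (x 0)
  rcases hz with ⟨ha, hb⟩ | ⟨ha, hb⟩ | ⟨ha, hb⟩ <;>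
  · simp only [Fin.sum_univ_five, ha, hb, abs_zero] at h01 h02 h03 h04
    exact abs_eq_zero.1 (by linarith)

theorem five_aux {u w : Fin 5 → ℚ} (h : ∀ s t : ℚ, TT (s • u + t • w)) (hu : u 0 = 0)
    (hu' : u 1 ≠ 0) (hw : w 1 = 0) : w = 0 := by
  have hTu : TT u := by simpa using h 1 0
  have hTw : TT w := by simpa using h 0 1
  obtain ⟨a2, a3, a4⟩ := hTu.zero_coord0 hu
  obtain ⟨b2, b3, b4⟩ := hTw.zero_coord1 hw
  by_contra hne
  have hw0 : w 0 ≠ 0 := by
    intro h0
    apply hne
    rw [h0, abs_zero] at b2 b3 b4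
    funext i
    fin_cases i
    · exact h0
    · exact hw
    · exact abs_eq_zero.1 b2
    · exact abs_eq_zero.1 b3
    · exact abs_eq_zero.1 b4
  set β := |u 1| with hβ
  set γ := |w 0| with hγ
  have hβ0 : 0 < β := abs_pos.2 hu'
  have hγ0 : 0 < γ := abs_pos.2 hw0
  have key : ∀ i : Fin 5, |u i| = β → |w i| = γ → γ * u i = β * w i ∨ γ * u i = -(β * w i) := by
    intro i hi hi'
    have h1 : |γ * u i| = |β * w i| := by
      rw [abs_mul, abs_mul, hi, hi', abs_of_pos hβ0, abs_of_pos hγ0, mul_comm]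
    exact abs_eq_abs.1 h1
  have k2 := key 2 a2 b2
  have k3 := key 3 a3 b3
  have k4 := key 4 a4 b4
  have hm := h γ (-β)
  have hp := h γ β
  have hm0 : (γ • u + (-β) • w) 0 = -(β * w 0) := by simp [hu]
  have hm1 : (γ • u + (-β) • w) 1 = γ * u 1 := by simp [hw]
  have hp0 : (γ • u + β • w) 0 = β * w 0 := by simp [hu]
  have hp1 : (γ • u + β • w) 1 = γ * u 1 := by simp [hw]
  have hma : |(γ • u + (-β) • w) 0| = |(γ • u + (-β) • w) 1| := by
    rw [hm0, hm1, abs_neg, abs_mul, abs_mul, abs_of_pos hβ0, abs_of_pos hγ0]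
    ring
  have hpa : |(γ • u + β • w) 0| = |(γ • u + β • w) 1| := by
    rw [hp0, hp1, abs_mul, abs_mul, abs_of_pos hβ0, abs_of_pos hγ0]
    ring
  have hmz : ∀ i, γ * u i = β * w i → (γ • u + (-β) • w) i = 0 := by
    intro i hi
    simp only [Pi.add_apply, Pi.smul_apply, smul_eq_mul]
    linarith
  have hpz : ∀ i, γ * u i = -(β * w i) → (γ • u + β • w) i = 0 := by
    intro i hi
    simp only [Pi.add_apply, Pi.smul_apply, smul_eq_mul]
    linarith
  have hcm : ¬ ((γ • u + (-β) • w) 0 = 0) := by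
    rw [hm0, neg_eq_zero]
    exact mul_ne_zero hβ0.ne' hw0
  have hcp : ¬ ((γ • u + β • w) 0 = 0) := by
    rw [hp0]
    exact mul_ne_zero hβ0.ne' hw0
  rcases k2 with k2 | k2 <;> rcases k3 with k3 | k3 <;> rcases k4 with k4 | k4
  · exact hcm (hm.two_zeros hma (Or.inl ⟨hmz _ k2, hmz _ k3⟩))
  · exact hcm (hm.two_zeros hma (Or.inl ⟨hmz _ k2, hmz _ k3⟩))
  · exact hcm (hm.two_zeros hma (Or.inr (Or.inl ⟨hmz _ k2, hmz _ k4⟩)))
  · exact hcp (hp.two_zeros hpa (Or.inr (Or.inr ⟨hpz _ k3, hpz _ k4⟩)))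
  · exact hcm (hm.two_zeros hma (Or.inr (Or.inr ⟨hmz _ k3, hmz _ k4⟩)))
  · exact hcp (hp.two_zeros hpa (Or.inr (Or.inl ⟨hpz _ k2, hpz _ k4⟩)))
  · exact hcp (hp.two_zeros hpa (Or.inl ⟨hpz _ k2, hpz _ k3⟩))
  · exact hcp (hp.two_zeros hpa (Or.inl ⟨hpz _ k2, hpz _ k3⟩))

/-- Spaces of vectors with the inequalities have dimension at most one. -/
theorem five {a b : Fin 5 → ℚ} (h : ∀ s t : ℚ, TT (s • a + t • b)) (ha : a ≠ 0) :
    ∃ q : ℚ, b = q • a := by
  have hcomb : ∀ (s t s' t' : ℚ), ∀ p q : ℚ, TT (p • (s • a + t • b) + q • (s' • a + t' • b)) := by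
    intro s t s' t' p q
    have h1 := h (p * s + q * s') (p * t + q * t')
    convert h1 using 1
    module
  by_cases hu : b 0 • a - a 0 • b = 0
  · by_cases ha0 : a 0 = 0
    · -- both first coordinates vanish
      have hb0 : b 0 = 0 := by
        by_contra hb
        rw [ha0, zero_smul, sub_zero] at hu
        exact ha ((smul_eq_zero.1 hu).resolve_left hb)
      have hTa : TT a := by simpa using h 1 0
      obtain ⟨c2, c3, c4⟩ := hTa.zero_coord0 ha0
      have ha1 : a 1 ≠ 0 := by
        intro h1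
        apply ha
        rw [h1, abs_zero] at c2 c3 c4
        funext i
        fin_cases i
        · exact ha0
        · exact h1
        · exact abs_eq_zero.1 c2
        · exact abs_eq_zero.1 c3
        · exact abs_eq_zero.1 c4
      refine ⟨b 1 / a 1, ?_⟩
      have hx := h (-(b 1 / a 1)) 1
      have hx0 : ((-(b 1 / a 1)) • a + (1 : ℚ) • b) 0 = 0 := by simp [ha0, hb0]
      have hx1 : ((-(b 1 / a 1)) • a + (1 : ℚ) • b) 1 = 0 := by
        simp only [Pi.add_apply, Pi.smul_apply, smul_eq_mul]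
        field_simp
        ring
      obtain ⟨d2, d3, d4⟩ := hx.zero_coord0 hx0
      rw [hx1, abs_zero] at d2 d3 d4
      have hxz : (-(b 1 / a 1)) • a + (1 : ℚ) • b = 0 := by
        funext i
        fin_cases i
        · exact hx0
        · exact hx1
        · exact abs_eq_zero.1 d2
        · exact abs_eq_zero.1 d3
        · exact abs_eq_zero.1 d4
      rw [one_smul, neg_smul] at hxz
      exact (neg_add_eq_zero.1 hxz).symm
    · refine ⟨b 0 / a 0, ?_⟩
      have h1 : b 0 • a = a 0 • b := sub_eq_zero.1 hu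
      rw [div_eq_inv_mul, mul_smul, h1, smul_smul, inv_mul_cancel₀ ha0, one_smul]
  · -- a nonzero vector with vanishing first coordinate
    set u := b 0 • a - a 0 • b with hudef
    have hu' : u = b 0 • a + (-a 0) • b := by rw [hudef]; module
    have hTu : TT u := by rw [hu']; exact h _ _
    have hu0 : u 0 = 0 := by
      rw [hudef]
      simp only [Pi.sub_apply, Pi.smul_apply, smul_eq_mul]
      ring
    obtain ⟨c2, c3, c4⟩ := hTu.zero_coord0 hu0
    have hu1 : u 1 ≠ 0 := by
      intro h1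
      apply hu
      rw [h1, abs_zero] at c2 c3 c4
      funext i
      fin_cases i
      · exact hu0
      · exact h1
      · exact abs_eq_zero.1 c2
      · exact abs_eq_zero.1 c3
      · exact abs_eq_zero.1 c4
    have key : ∀ s t : ℚ, ∃ q : ℚ, s • a + t • b = q • u := by
      intro s t
      set w := s • a + t • b with hw
      refine ⟨w 1 / u 1, ?_⟩
      have h1 : w - (w 1 / u 1) • u = 0 := by
        refine five_aux (u := u) (fun p q => ?_) hu0 hu1 ?_
        · have h2 := hcomb (b 0) (-a 0) s t (p - q * (w 1 / u 1)) q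
          rw [← hu', ← hw] at h2
          convert h2 using 1
          module
        · simp only [Pi.sub_apply, Pi.smul_apply, smul_eq_mul]
          field_simp
          ring
      exact sub_eq_zero.1 h1
    obtain ⟨q, hq⟩ := key 1 0
    obtain ⟨q', hq'⟩ := key 0 1
    rw [one_smul, zero_smul, add_zero] at hq
    rw [one_smul, zero_smul, zero_add] at hq'
    have hq0 : q ≠ 0 := by
      intro h0
      rw [h0, zero_smul] at hq
      exact ha hq
    refine ⟨q' / q, ?_⟩
    rw [hq', hq, smul_smul, div_mul_cancel₀ _ hq0]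

variable {G : Type} [Group G] [Fintype G] {P : Set (Set G)} {a b : Set G → ℚ}

/-- The relations form a space of dimension at most one. -/
def RankOne (P : Set (Set G)) : Prop :=
  ∀ a b : Set G → ℚ, IsRel P a → IsRel P b → a ≠ 0 → ∃ q : ℚ, b = q • a

theorem rankOne_of_card_le_ten (hcompl : ∀ S ∈ P, Sᶜ ∈ P) (hcard : P.ncard ≤ 10) : RankOne P := by
  classical
  intro a b ha hb hne
  let P1 : Type := {S : Set G // S ∈ P ∧ (1 : G) ∈ S}
  have hP1 : 2 * Fintype.card P1 ≤ 10 := by
    have h1 : Function.Injective (fun s : P1 ⊕ P1 =>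
        (Sum.elim (fun S => (S.1 : Set G)) (fun S => (S.1 : Set G)ᶜ) s)) := by
      rintro (⟨S, hS⟩ | ⟨S, hS⟩) (⟨T, hT⟩ | ⟨T, hT⟩) h
      · have h' : S = T := h
        subst h'
        rfl
      · exfalso
        have h' : S = Tᶜ := h
        have := hS.2
        rw [h'] at this
        exact this hT.2
      · exfalso
        have h' : Sᶜ = T := h
        have := hT.2
        rw [← h'] at this
        exact this hS.2
      · have h' : Sᶜ = Tᶜ := h
        have h'' := compl_injective h'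
        subst h''
        rfl
    have h2 : Nat.card (P1 ⊕ P1) ≤ P.ncard := by
      rw [← Set.ncard_range_of_injective h1]
      refine Set.ncard_le_ncard ?_ (Set.toFinite _)
      rintro _ ⟨S | S, rfl⟩
      · exact S.2.1
      · exact hcompl _ S.2.1
    rw [Nat.card_sum, Nat.card_eq_fintype_card] at h2
    omega
  obtain ⟨e⟩ : Nonempty (P1 ↪ Fin 5) :=
    Function.Embedding.nonempty_of_card_le (by rw [Fintype.card_fin]; omega)
  have hr : Function.Injective (fun S : P1 => S.1) := Subtype.val_injective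
  have hr' : ∀ S T : P1, (S.1 : Set G) ≠ (T.1 : Set G)ᶜ := by
    intro S T h
    have h1 := S.2.2
    rw [h] at h1
    exact h1 T.2.2
  have hf : ∀ c : Set G → ℚ, IsRel P c → ∀ S, c S ≠ 0 → ∃ i : P1, S = i.1 ∨ S = (i.1 : Set G)ᶜ := by
    intro c hc S hS
    have h1 : S ∈ P := by
      by_contra h
      exact hS (hc.supp S h)
    by_cases h2 : (1 : G) ∈ S
    · exact ⟨⟨S, h1, h2⟩, Or.inl rfl⟩
    · exact ⟨⟨Sᶜ, hcompl S h1, h2⟩, Or.inr (compl_compl S).symm⟩
  let φ : (Set G → ℚ) → Fin 5 → ℚ := fun c i => ∑ S : P1, if e S = i then c S.1 else 0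
  have hφe : ∀ c S, φ c (e S) = c S.1 := by
    intro c S
    change ∑ T : P1, (if e T = e S then c T.1 else 0) = c S.1
    rw [Finset.sum_eq_single S]
    · rw [if_pos rfl]
    · intro T _ hT
      exact if_neg (fun h => hT (e.injective h))
    · intro h
      exact absurd (Finset.mem_univ S) h
  have hφn : ∀ c i, (∀ S, e S ≠ i) → φ c i = 0 := by
    intro c i h
    change ∑ T : P1, (if e T = i then c T.1 else 0) = 0
    exact Finset.sum_eq_zero fun T _ => if_neg (h T)
  have hφs : ∀ c, ∑ i, |φ c i| = ∑ S : P1, |c S.1| := by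
    intro c
    symm
    refine Finset.sum_of_injOn e e.injective.injOn (fun _ _ => Finset.mem_coe.2 (Finset.mem_univ _))
      (fun i _ hi => ?_) (fun S _ => by rw [hφe])
    rw [hφn c i (fun S hS => hi ⟨S, Finset.mem_coe.2 (Finset.mem_univ _), hS⟩), abs_zero]
  have hTT : ∀ c, IsRel P c → TT (φ c) := by
    intro c hc i k hik
    have hw : wgt c = 2 * ∑ S : P1, |c S.1| := hc.wgt_rep (fun S : P1 => S.1) hr hr' (hf c hc)
    rw [hφs]
    by_cases hi : ∃ S, e S = i
    · obtain ⟨S, rfl⟩ := hi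
      by_cases hk : ∃ T, e T = k
      · obtain ⟨T, rfl⟩ := hk
        rw [hφe, hφe]
        have h1 := hc.two (S := S.1) (T := T.1) (fun h => hik (congrArg e (Subtype.ext h)))
          (hr' S T)
        linarith
      · push Not at hk
        rw [hφe, hφn c k hk, abs_zero]
        have h1 := hc.one S.1
        linarith
    · push Not at hi
      rw [hφn c i hi, abs_zero]
      by_cases hk : ∃ T, e T = k
      · obtain ⟨T, rfl⟩ := hk
        rw [hφe]
        have h1 := hc.one T.1
        linarith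
      · push Not at hk
        rw [hφn c k hk, abs_zero]
        have h2 : 0 ≤ ∑ S : P1, |c S.1| := Finset.sum_nonneg fun _ _ => abs_nonneg _
        linarith
  have hlin : ∀ s t : ℚ, φ (s • a + t • b) = s • φ a + t • φ b := by
    intro s t
    funext i
    change ∑ T : P1, (if e T = i then (s • a + t • b) T.1 else 0) =
      s * (∑ T : P1, if e T = i then a T.1 else 0) + t * (∑ T : P1, if e T = i then b T.1 else 0)
    rw [Finset.mul_sum, Finset.mul_sum, ← Finset.sum_add_distrib]
    refine Finset.sum_congr rfl fun T _ => ?_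
    split_ifs
    · rfl
    · ring
  have hφ0 : ∀ c, IsRel P c → φ c = 0 → c = 0 := by
    intro c hc h
    funext S
    by_contra hS
    obtain ⟨i, hi | hi⟩ := hf c hc S hS
    · apply hS
      have h5 : c i.1 = 0 := by rw [← hφe c i, h]; rfl
      rw [hi, h5]
      rfl
    · apply hS
      have h5 : c i.1 = 0 := by rw [← hφe c i, h]; rfl
      rw [hi, hc.odd, h5, neg_zero]
      rfl
  obtain ⟨q, hq⟩ := five (a := φ a) (b := φ b) (fun s t => by
    rw [← hlin]
    exact hTT _ ((ha.smul s).add (hb.smul t))) (fun h => hne (hφ0 a ha h))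
  refine ⟨q, ?_⟩
  have h1 : b - q • a = 0 := by
    refine hφ0 _ (hb.sub (ha.smul q)) ?_
    have h2 := hlin (-q) 1
    rw [hq] at h2
    have h3 : b - q • a = (-q) • a + (1 : ℚ) • b := by module
    rw [h3, h2]
    module
  exact sub_eq_zero.1 h1

end

end Pool.Agent.W547.LD.Comb
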