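import Pool.Agent.W547.LD.SplitForm

/-!
# The Lagrangian subspace
-/

set_option linter.unusedSectionVars false
set_option linter.unusedVariables false

namespace Pool.Agent.W547.LD

open NumberField Pool.Agent.H204R3.CM Pool.Agent.W547.KB Equiv Module Polynomial

noncomputable section

variable {L : Type} [Field L] [NumberField L] [IsCMField L] [IsGalois ℚ L]

variable {Q : Type} [Fintype Q] (j : L →+* ℂ) (N : Subgroup (L ≃ₐ[ℚ] L))
  (x : Q → Set (L ≃ₐ[ℚ] L)) (hx : ∀ q, IsHalf (x q)) [Fintype (Orb N x)]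
  [DecidableEq (Orb N x)]

/-- The values of a polynomial. -/
def pw (Y : CMAV) (θ : Y.H1) : ℚ[X] →ₗ[ℚ] Y.H1 :=
  LinearMap.pi fun q => (Polynomial.aeval (θ q)).toLinearMap

theorem ev_pw {Y : CMAV} (θ : Y.H1) (a : ℚ[X]) (J : Wt Y L) :
    ev (pw Y θ a) J = Polynomial.aeval (ev θ J) a := by
  change J.2 (Polynomial.aeval (θ J.1) a) = Polynomial.aeval (J.2 (θ J.1)) a
  exact (Polynomial.aeval_algHom_apply (RingHom.equivRatAlgHom _ _ J.2) (θ J.1) a).symm

/-- The map whose image is the Lagrangian subspace. -/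
def lag (δ : L) (hδ : ∀ q, δ ∈ fld (x q)) (θ : (prodOf j x hx).H1) (m : ℕ) :
    (degreeLT ℚ m × degreeLT ℚ m) →ₗ[ℚ] (prodOf j x hx).H1 :=
  LinearMap.coprod ((pw _ θ).comp (degreeLT ℚ m).subtype)
    ((mulBy j x hx δ hδ).comp ((pw _ θ).comp (degreeLT ℚ m).subtype))

theorem ev_lag {δ : L} (hδ : ∀ q, δ ∈ fld (x q)) (hfix : ∀ τ ∈ N, τ δ = δ)
    (θ : (prodOf j x hx).H1) (m : ℕ) (p : degreeLT ℚ m × degreeLT ℚ m) (k : Orb N x) :
    ev (lag j x hx δ hδ θ m p) (orbWt j N x hx k) =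
      aeval (ev θ (orbWt j N x hx k)) p.1.1 + δ * aeval (ev θ (orbWt j N x hx k)) p.2.1 := by
  have h1 := (evLin (orbWt j N x hx k)).map_add (pw _ θ p.1.1) (mulBy j x hx δ hδ (pw _ θ p.2.1))
  refine Eq.trans h1 ?_
  congr 1
  · exact ev_pw θ p.1.1 (orbWt j N x hx k)
  · refine (ev_mulBy j N x hx δ hδ hfix k _).trans ?_
    rw [ev_pw]

theorem cc_aeval {y : L} (hy : cc L y = y) (a : ℚ[X]) : cc L (aeval y a) = aeval y a := by
  have h1 := (Polynomial.aeval_algHom_apply (cc L : L →ₐ[ℚ] L) y a)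
  have h2 : ((cc L : L →ₐ[ℚ] L)) y = y := hy
  rw [h2] at h1
  exact h1.symm

theorem lag_injective {δ : L} (hδ : ∀ q, δ ∈ fld (x q)) (hfix : ∀ τ ∈ N, τ δ = δ)
    (hcc : cc L δ = -δ) (h0 : δ ≠ 0) {θ : (prodOf j x hx).H1}
    (hθ : ∀ k, cc L (ev θ (orbWt j N x hx k)) = ev θ (orbWt j N x hx k))
    (hinj : Function.Injective fun k => ev θ (orbWt j N x hx k)) {m : ℕ}
    (hm : m ≤ Fintype.card (Orb N x)) : Function.Injective (lag j x hx δ hδ θ m) := by
  rw [injective_iff_map_eq_zero]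
  intro p hp
  have h1 : ∀ k : Orb N x, aeval (ev θ (orbWt j N x hx k)) p.1.1 +
      δ * aeval (ev θ (orbWt j N x hx k)) p.2.1 = 0 := by
    intro k
    rw [← ev_lag j N x hx hδ hfix, hp]
    exact (evLin (orbWt j N x hx k)).map_zero
  have h2 : ∀ k : Orb N x, aeval (ev θ (orbWt j N x hx k)) p.1.1 -
      δ * aeval (ev θ (orbWt j N x hx k)) p.2.1 = 0 := by
    intro k
    have h3 := congrArg (cc L) (h1 k)
    rw [map_add, map_mul, cc_aeval (hθ k), cc_aeval (hθ k), hcc, map_zero] at h3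
    linear_combination h3
  have h3 : ∀ k : Orb N x, aeval (ev θ (orbWt j N x hx k)) p.1.1 = 0 := by
    intro k
    have h4 : (2 : L) * aeval (ev θ (orbWt j N x hx k)) p.1.1 = 0 := by
      linear_combination h1 k + h2 k
    exact (mul_eq_zero.1 h4).resolve_left two_ne_zero
  have h4 : ∀ k : Orb N x, aeval (ev θ (orbWt j N x hx k)) p.2.1 = 0 := by
    intro k
    have h5 := h1 k
    rw [h3 k, zero_add] at h5
    exact (mul_eq_zero.1 h5).resolve_left h0
  have h5 : ∀ a : ℚ[X], a ∈ degreeLT ℚ m →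
      (∀ k : Orb N x, aeval (ev θ (orbWt j N x hx k)) a = 0) → a = 0 := by
    intro a ha hz
    have h6 : a.map (algebraMap ℚ L) = 0 := by
      refine Polynomial.eq_zero_of_degree_lt_of_eval_index_eq_zero
        (s := (Finset.univ : Finset (Orb N x))) (v := fun k => ev θ (orbWt j N x hx k)) hinj.injOn
        ?_ ?_
      · rw [Polynomial.degree_map, Finset.card_univ]
        refine (Polynomial.mem_degreeLT.1 ha).trans_le ?_
        exact_mod_cast hm
      · intro k _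
        rw [Polynomial.eval_map_algebraMap]
        exact hz k
    exact (Polynomial.map_eq_zero _).1 h6
  refine Prod.ext (Subtype.ext ?_) (Subtype.ext ?_)
  · exact h5 _ p.1.2 h3
  · exact h5 _ p.2.2 h4

theorem finrank_degreeLT (m : ℕ) : finrank ℚ (degreeLT ℚ m) = m := by
  rw [(degreeLTEquiv ℚ m).finrank_eq, Module.finrank_fin_fun]

theorem finrank_lag {δ : L} (hδ : ∀ q, δ ∈ fld (x q)) (hfix : ∀ τ ∈ N, τ δ = δ)
    (hcc : cc L δ = -δ) (h0 : δ ≠ 0) {θ : (prodOf j x hx).H1}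
    (hθ : ∀ k, cc L (ev θ (orbWt j N x hx k)) = ev θ (orbWt j N x hx k))
    (hinj : Function.Injective fun k => ev θ (orbWt j N x hx k)) {m : ℕ}
    (hm : m ≤ Fintype.card (Orb N x)) :
    finrank ℚ (LinearMap.range (lag j x hx δ hδ θ m)) = m * 2 := by
  rw [LinearMap.finrank_range_of_inj (lag_injective j N x hx hδ hfix hcc h0 hθ hinj hm),
    Module.finrank_prod, finrank_degreeLT]
  ring

theorem lag_isotropic {δ : L} (hδ : ∀ q, δ ∈ fld (x q)) (hfix : ∀ τ ∈ N, τ δ = δ)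
    (hcc : cc L δ = -δ) {θ : (prodOf j x hx).H1}
    (hθ : ∀ k, cc L (ev θ (orbWt j N x hx k)) = ev θ (orbWt j N x hx k))
    (hinj : Function.Injective fun k => ev θ (orbWt j N x hx k)) {m : ℕ} (hm0 : 0 < m)
    (hm : m * 2 = Fintype.card (Orb N x)) (p p' : degreeLT ℚ m × degreeLT ℚ m) :
    val j N x hx δ θ (lag j x hx δ hδ θ m p) (lag j x hx δ hδ θ m p') = 0 := by
  have hdeg : ∀ a : degreeLT ℚ m, a.1.natDegree ≤ m - 1 := by
    intro a
    have h1 := Polynomial.mem_degreeLT.1 a.2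
    by_cases h2 : a.1 = 0
    · rw [h2, Polynomial.natDegree_zero]
      exact Nat.zero_le _
    · have h3 := (Polynomial.natDegree_lt_iff_degree_lt h2).2 h1
      omega
  set c : L[X] := C (2 * (δ * δ)) *
    ((p.1.1 * p'.2.1 - p.2.1 * p'.1.1).map (algebraMap ℚ L)) with hc
  have hcd : c.natDegree + 2 ≤ Fintype.card (Orb N x) := by
    have h1 : c.natDegree ≤ (m - 1) + (m - 1) := by
      rw [hc]
      refine (Polynomial.natDegree_C_mul_le _ _).trans ?_
      refine Polynomial.natDegree_map_le.trans ?_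
      refine (Polynomial.natDegree_sub_le _ _).trans ?_
      refine max_le ?_ ?_
      · exact Polynomial.natDegree_mul_le.trans (add_le_add (hdeg _) (hdeg _))
      · exact Polynomial.natDegree_mul_le.trans (add_le_add (hdeg _) (hdeg _))
    omega
  have h1 := euler_sum (fun k => ev θ (orbWt j N x hx k)) hinj c hcd
  rw [← h1]
  unfold val
  refine Finset.sum_congr rfl fun k _ => ?_
  rw [ev_lag j N x hx hδ hfix, ev_lag j N x hx hδ hfix, map_add, map_add, map_mul, map_mul,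
    cc_aeval (hθ k), cc_aeval (hθ k), cc_aeval (hθ k), cc_aeval (hθ k), hcc, hc,
    Polynomial.eval_mul, Polynomial.eval_C, Polynomial.eval_map_algebraMap, map_sub, map_mul,
    map_mul]
  change δ * (∏ l ∈ Finset.univ.erase k,
    (ev θ (orbWt j N x hx k) - ev θ (orbWt j N x hx l)))⁻¹ * _ = _
  ring

theorem lag_stable {δ : L} (hδ : ∀ q, δ ∈ fld (x q)) {d : ℕ} (hd : δ * δ = -(d : L))
    (θ : (prodOf j x hx).H1) (m : ℕ) (p : degreeLT ℚ m × degreeLT ℚ m) :
    mulBy j x hx δ hδ (lag j x hx δ hδ θ m p) =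
      lag j x hx δ hδ θ m (-((d : ℚ) • p.2), p.1) := by
  have h1 : lag j x hx δ hδ θ m p = pw _ θ p.1.1 + mulBy j x hx δ hδ (pw _ θ p.2.1) := rfl
  have h2 : lag j x hx δ hδ θ m (-((d : ℚ) • p.2), p.1) =
      pw _ θ (-((d : ℚ) • p.2.1)) + mulBy j x hx δ hδ (pw _ θ p.1.1) := rfl
  rw [h1, h2, map_add, mulBy_mulBy j x hx δ hδ d hd, map_neg, map_smul, add_comm]

end

end Pool.Agent.W547.LD
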