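import Pool.Agent.W547.LD.Trans

/-!
# Relations between the half systems of one orbit with `2 p` elements
-/

set_option linter.unusedSectionVars false
set_option linter.unusedVariables false

namespace Pool.Agent.W547.LD.Comb

open Finset Polynomial

noncomputable section

/-- A rational relation between the powers of a primitive root of unity of prime order. -/
theorem const_of_root {p : ℕ} [hp : Fact p.Prime] {ζ : ℂ} (hζ : IsPrimitiveRoot ζ p)
    (u : ZMod p → ℚ) (h : ∑ i, (u i : ℂ) * ζ ^ i.val = 0) (i k : ZMod p) : u i = u k := by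
  have hp1 := hp.out.one_lt
  let Q : ℚ[X] := ∑ n ∈ Finset.range p, C (u (n : ZMod p)) * X ^ n
  have hQ0 : aeval ζ Q = 0 := by
    rw [← h]
    change aeval ζ (∑ n ∈ Finset.range p, C (u (n : ZMod p)) * X ^ n) = _
    rw [map_sum]
    symm
    refine Finset.sum_nbij' (fun i : ZMod p => i.val) (fun n => (n : ZMod p)) ?_ ?_ ?_ ?_ ?_
    · intro i _
      exact Finset.mem_range.2 (ZMod.val_lt i)
    · intro n _
      exact Finset.mem_univ _
    · intro i _
      exact ZMod.natCast_zmod_val i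
    · intro n hn
      exact ZMod.val_natCast_of_lt (Finset.mem_range.1 hn)
    · intro i _
      rw [map_mul, aeval_C, map_pow, aeval_X, ZMod.natCast_zmod_val]
      rfl
  have hcoeff : ∀ n, n < p → Q.coeff n = u (n : ZMod p) := by
    intro n hn
    change (∑ m ∈ Finset.range p, C (u (m : ZMod p)) * X ^ m).coeff n = _
    rw [Polynomial.finsetSum_coeff, Finset.sum_eq_single n]
    · rw [coeff_C_mul, coeff_X_pow_self, mul_one]
    · intro m _ hm
      rw [coeff_C_mul, coeff_X_pow, if_neg hm.symm, mul_zero]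
    · intro h'
      exact absurd (Finset.mem_range.2 hn) h'
  have hdeg : Q.natDegree ≤ p - 1 := by
    refine Polynomial.natDegree_sum_le_of_forall_le _ _ fun n hn => ?_
    refine (natDegree_C_mul_X_pow_le _ _).trans ?_
    have := Finset.mem_range.1 hn
    omega
  have hcyc : cyclotomic p ℚ ∣ Q := by
    rw [cyclotomic_eq_minpoly_rat hζ hp.out.pos]
    exact minpoly.dvd ℚ ζ hQ0
  obtain ⟨R, hR⟩ := hcyc
  by_cases hQ : Q = 0
  · have h1 : ∀ i : ZMod p, u i = 0 := by
      intro i
      have h2 := hcoeff i.val (ZMod.val_lt i)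
      rw [hQ, coeff_zero, ZMod.natCast_zmod_val] at h2
      exact h2.symm
    rw [h1, h1]
  · have hRne : R ≠ 0 := by
      rintro rfl
      exact hQ (by rw [hR, mul_zero])
    have hdR : R.natDegree = 0 := by
      have h1 : Q.natDegree = (cyclotomic p ℚ).natDegree + R.natDegree := by
        rw [hR, natDegree_mul (cyclotomic_ne_zero p ℚ) hRne]
      rw [natDegree_cyclotomic, Nat.totient_prime hp.out] at h1
      omega
    obtain ⟨r, hr⟩ := natDegree_eq_zero.1 hdR
    have h1 : ∀ i : ZMod p, u i = r := by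
      intro i
      have h2 := hcoeff i.val (ZMod.val_lt i)
      rw [hR, ← hr, coeff_mul_C, ZMod.natCast_zmod_val, cyclotomic_prime,
        Polynomial.finsetSum_coeff, Finset.sum_eq_single i.val] at h2
      · rw [coeff_X_pow_self, one_mul] at h2
        exact h2.symm
      · intro m _ hm
        rw [coeff_X_pow, if_neg hm.symm]
      · intro h'
        exact absurd (Finset.mem_range.2 (ZMod.val_lt i)) h'
    rw [h1, h1]

theorem conv_const {p : ℕ} [hp : Fact p.Prime] (A U : ZMod p → ℚ)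
    (h : ∀ k, ∑ i, A i * U (i + k) = 0) : (∀ i k, U i = U k) ∨ (∀ i k, A i = A k) := by
  have hζ := Complex.isPrimitiveRoot_exp p hp.out.ne_zero
  set ζ := Complex.exp (2 * Real.pi * Complex.I / p) with hζdef
  have hadd : ∀ a b : ZMod p, ζ ^ (a + b).val = ζ ^ a.val * ζ ^ b.val := by
    intro a b
    rw [ZMod.val_add, ← pow_add]
    exact (pow_eq_pow_mod _ hζ.pow_eq_one).symm
  have h1 : (∑ i, (A (-i) : ℂ) * ζ ^ i.val) * (∑ i, (U i : ℂ) * ζ ^ i.val) = 0 := by
    have h2 : ∑ k : ZMod p, ((∑ i, A i * U (i + k) : ℚ) : ℂ) * ζ ^ k.val = 0 :=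
      Finset.sum_eq_zero fun k _ => by rw [h k]; simp
    rw [← h2]
    have h3 : ∀ k : ZMod p, ((∑ i, A i * U (i + k) : ℚ) : ℂ) * ζ ^ k.val =
        ∑ i, ((A i : ℂ) * ζ ^ (-i).val) * ((U (i + k) : ℂ) * ζ ^ (i + k).val) := by
      intro k
      push_cast
      rw [Finset.sum_mul]
      refine Finset.sum_congr rfl fun i _ => ?_
      have h4 : ζ ^ k.val = ζ ^ (-i).val * ζ ^ (i + k).val := by
        rw [← hadd, neg_add_cancel_left]
      rw [h4]
      ring
    rw [Finset.sum_congr rfl (fun k _ => h3 k), Finset.sum_comm, Finset.sum_mul]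
    rw [← Equiv.sum_comp (Equiv.neg (ZMod p))]
    refine Finset.sum_congr rfl fun i _ => ?_
    rw [Equiv.neg_apply, neg_neg, ← Finset.mul_sum]
    congr 1
    symm
    exact Fintype.sum_equiv (Equiv.addLeft i) _ _ fun k => rfl
  rcases mul_eq_zero.1 h1 with h2 | h2
  · right
    intro i k
    have h3 := const_of_root hζ (fun i => A (-i)) h2 (-i) (-k)
    simpa using h3
  · left
    exact const_of_root hζ U h2

variable {G : Type} [Group G] [Fintype G] {P : Set (Set G)} {a b : Set G → ℚ}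

/-- The right stabilizer. -/
def stb {G : Type*} [Group G] (S : Set G) : Subgroup G where
  carrier := {τ | tr τ S = S}
  one_mem' := tr_one S
  mul_mem' {τ τ'} h h' := by
    change tr (τ * τ') S = S
    rw [← tr_tr, show tr τ' S = S from h', show tr τ S = S from h]
  inv_mem' {τ} h := by
    change tr τ⁻¹ S = S
    have h1 : tr τ S = S := h
    conv_lhs => rw [← h1]
    exact tr_inv_tr τ S

theorem mem_stb {G : Type*} [Group G] (τ : G) (S : Set G) : τ ∈ stb S ↔ tr τ S = S := Iff.rfl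

theorem zpow_mem_stb {p : ℕ} (hp : p.Prime) {τ : G} {x : Set G} (hx : tr (τ ^ p) x = x)
    (hm : tr τ x ≠ x) {m : ℤ} (h : τ ^ m ∈ stb x) : (p : ℤ) ∣ m := by
  by_contra hnd
  have hcop : IsCoprime (p : ℤ) m :=
    (Nat.prime_iff_prime_int.1 hp).coprime_iff_not_dvd.2 hnd
  obtain ⟨u, v, huv⟩ := hcop
  apply hm
  have h1 : τ ^ (p : ℤ) ∈ stb x := by
    rw [zpow_natCast]
    exact hx
  have h2 : τ = (τ ^ (p : ℤ)) ^ u * (τ ^ m) ^ v := by
    rw [← zpow_mul, ← zpow_mul, ← zpow_add, mul_comm _ u, mul_comm m v, huv, zpow_one]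
  have h3 : τ ∈ stb x := by
    rw [h2]
    exact (stb x).mul_mem ((stb x).zpow_mem h1 u) ((stb x).zpow_mem h v)
  exact h3

theorem eq_zero_prime (hP : Stable P) (hcompl : ∀ S ∈ P, Sᶜ ∈ P) (hT : Trans P) {p : ℕ}
    (hp : p.Prime) (hp2 : p ≠ 2) (hcard : P.ncard = 2 * p) (ha : IsRel P a) : a = 0 := by
  classical
  have := Fact.mk hp
  have hne : P.Nonempty := by
    rw [Set.nonempty_iff_ne_empty]
    rintro rfl
    rw [Set.ncard_empty] at hcard
    have := hp.pos
    omega
  obtain ⟨τ, h3, x, hx, hxm⟩ := exists_order hP hT hne hp (by rw [hcard]; exact Dvd.intro_left 2 rfl)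
  have hxp := h3 x hx
  let X : ZMod p → Set G := fun i => tr (τ ^ i.val) x
  have hpow : ∀ n : ℕ, tr (τ ^ n) x = tr (τ ^ (n % p)) x := by
    intro n
    conv_lhs => rw [← Nat.mod_add_div n p, pow_add, ← tr_tr, pow_mul]
    congr 1
    exact (stb x).pow_mem hxp (n / p)
  have hshift : ∀ i k : ZMod p, tr (τ ^ k.val) (X i) = X (i + k) := by
    intro i k
    change tr (τ ^ k.val) (tr (τ ^ i.val) x) = tr (τ ^ (i + k).val) x
    rw [tr_tr, ← pow_add, hpow, ZMod.val_add, add_comm]
  have hinj : ∀ i k : ZMod p, tr (τ ^ i.val) x = tr (τ ^ k.val) x → i = k := by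
    intro i k h
    have h1 : τ ^ ((k.val : ℤ) - i.val) ∈ stb x := by
      have h2 : τ ^ ((k.val : ℤ) - i.val) = (τ ^ i.val)⁻¹ * τ ^ k.val := by
        rw [sub_eq_neg_add, zpow_add, zpow_neg, zpow_natCast, zpow_natCast]
      rw [h2, mem_stb, ← tr_tr, ← h, tr_inv_tr]
    have h2 := zpow_mem_stb hp hxp hxm h1
    have h4 : ((k.val : ℤ) : ZMod p) = ((i.val : ℤ) : ZMod p) := by
      rw [ZMod.intCast_eq_intCast_iff_dvd_sub]
      exact (dvd_neg.2 h2).trans (by rw [neg_sub])
    simpa using h4.symm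
  have hinj' : ∀ i k : ZMod p, X i ≠ (X k)ᶜ := by
    intro i k h
    have h1 : tr ((τ ^ i.val)⁻¹ * τ ^ k.val) x = xᶜ := by
      have h2 : (tr (τ ^ i.val) x)ᶜ = tr (τ ^ k.val) x := by
        have h' : tr (τ ^ i.val) x = (tr (τ ^ k.val) x)ᶜ := h
        rw [h', compl_compl]
      rw [← tr_tr, ← h2, tr_compl, tr_inv_tr]
    have h2 : (τ ^ i.val)⁻¹ * τ ^ k.val = τ ^ ((k.val : ℤ) - i.val) := by
      rw [sub_eq_neg_add, zpow_add, zpow_neg, zpow_natCast, zpow_natCast]
    rw [h2] at h1
    have h4 : τ ^ (2 * ((k.val : ℤ) - i.val)) ∈ stb x := by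
      rw [two_mul, zpow_add, mem_stb, ← tr_tr, h1, tr_compl, h1, compl_compl]
    have h5 := zpow_mem_stb hp hxp hxm h4
    have h6 : (p : ℤ) ∣ (k.val : ℤ) - i.val := by
      rcases Int.Prime.dvd_mul' hp h5 with h | h
      · exfalso
        have h7 : p ∣ 2 := by exact_mod_cast h
        exact hp2 ((Nat.prime_dvd_prime_iff_eq hp Nat.prime_two).1 h7)
      · exact h
    obtain ⟨m, hm⟩ := h6
    rw [hm, zpow_mul] at h1
    have h7 : (τ ^ (p : ℤ)) ^ m ∈ stb x := by
      refine (stb x).zpow_mem ?_ m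
      rw [zpow_natCast]
      exact hxp
    exact Comb.ne_compl x (h7.symm.trans h1)
  have hXinj : Function.Injective X := fun i k h => hinj i k h
  have hXP : ∀ i, X i ∈ P := fun i => hP _ _ hx
  have hcover : ∀ S ∈ P, ∃ i, S = X i ∨ S = (X i)ᶜ := by
    have h1 : Function.Injective (Sum.elim X (fun i => (X i)ᶜ)) := by
      rintro (i | i) (k | k) h'
      · exact congrArg Sum.inl (hXinj h')
      · exact absurd h' (hinj' i k)
      · exact absurd h'.symm (hinj' k i)
      · exact congrArg Sum.inr (hXinj (compl_injective h'))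
    have h2 : Set.range (Sum.elim X (fun i => (X i)ᶜ)) = P := by
      refine Set.eq_of_subset_of_ncard_le ?_ ?_ (Set.toFinite _)
      · rintro _ ⟨i | i, rfl⟩
        · exact hXP i
        · exact hcompl _ (hXP i)
      · rw [Set.ncard_range_of_injective h1, hcard, Nat.card_sum, Nat.card_eq_fintype_card,
          ZMod.card]
        omega
    intro S hS
    rw [← h2] at hS
    obtain ⟨i | i, hi⟩ := hS
    · exact ⟨i, Or.inl hi.symm⟩
    · exact ⟨i, Or.inr hi.symm⟩
  have hrel : ∀ σ, ∑ i, a (X i) * eps (X i) σ = 0 := fun σ =>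
    ha.rep X hXinj hinj' (fun S hS => hcover S (by
      by_contra h
      exact hS (ha.supp S h))) σ
  have h01 : X 0 ≠ X 1 := by
    intro h
    exact zero_ne_one (hXinj h)
  obtain ⟨σ, hσ⟩ := exists_ne h01
  have hconv : ∀ k, ∑ i, a (X i) * eps (X (i + k)) σ = 0 := by
    intro k
    rw [← hrel (σ * τ ^ k.val)]
    refine Finset.sum_congr rfl fun i _ => ?_
    rw [← hshift i k, eps_tr]
  rcases conv_const (fun i => a (X i)) (fun i => eps (X i) σ) hconv with h | h
  · exfalso
    have h1 : eps (X 0) σ = eps (X 1) σ := h 0 1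
    rw [h1] at hσ
    rcases eps_cases (X 1) σ with h2 | h2 <;> rw [h2] at hσ <;> norm_num at hσ
  · have h1 : a (X 0) * ∑ i, eps (X i) σ = 0 := by
      rw [Finset.mul_sum, ← hrel σ]
      refine Finset.sum_congr rfl fun i _ => ?_
      rw [h 0 i]
    have h2 : ∑ i, eps (X i) σ ≠ 0 := by
      choose n hn using fun i : ZMod p => (show ∃ n : ℤ, eps (X i) σ = 1 + 2 * (n : ℚ) by
        rcases eps_cases (X i) σ with h2 | h2
        · exact ⟨0, by rw [h2]; norm_num⟩
        · exact ⟨-1, by rw [h2]; norm_num⟩)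
      rw [Finset.sum_congr rfl (fun i _ => hn i), Finset.sum_add_distrib, Finset.sum_const,
        Finset.card_univ, ZMod.card, nsmul_eq_mul, mul_one, ← Finset.mul_sum]
      intro h4
      have h5 : (p : ℤ) + 2 * ∑ i, n i = 0 := by exact_mod_cast h4
      have h6 : Odd p := hp.odd_of_ne_two hp2
      obtain ⟨m, hm⟩ := h6
      omega
    have h4 : a (X 0) = 0 := (mul_eq_zero.1 h1).resolve_right h2
    have h5 : ∀ i, a (X i) = 0 := fun i => (h i 0).trans h4
    funext S
    by_contra hS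
    obtain ⟨i, hi | hi⟩ := hcover S (by
      by_contra h'
      exact hS (ha.supp S h'))
    · exact hS (by rw [hi, h5]; rfl)
    · exact hS (by rw [hi, ha.odd, h5, neg_zero]; rfl)

end

end Pool.Agent.W547.LD.Comb
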