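import Pool.Agent.W547.LD.Span

/-!
# Monomials as combinations of pull-backs along homomorphisms
-/

set_option linter.unusedSectionVars false
set_option linter.unusedVariables false

namespace Pool.Agent.W547.LD

open NumberField Pool.Agent.H204R3.CM Pool.Agent.W547.KB Equiv Module

noncomputable section

/-- Extraction of the component belonging to a character. -/
theorem char_component {M L W C : Type*} [Monoid M] [Field L] [AddCommGroup W] [Module L W]
    [Fintype C] (χ : C → (M →* L)) (F : C → W) (V : Submodule L W)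
    (hV : ∀ γ : M, ∑ c, χ c γ • F c ∈ V) (c0 : C)
    (h0 : ∀ c, χ c = χ c0 → c = c0 ∨ F c = 0) : F c0 ∈ V := by
  classical
  by_contra hcon
  obtain ⟨ℓ, hℓ, hV0⟩ := Submodule.exists_le_ker_of_notMem hcon
  have h1 : ∀ γ : M, ∑ c, χ c γ * ℓ (F c) = 0 := by
    intro γ
    have h2 : ℓ (∑ c, χ c γ • F c) = 0 := hV0 (hV γ)
    rw [map_sum] at h2
    rw [← h2]
    exact Finset.sum_congr rfl fun c _ => by rw [map_smul, smul_eq_mul]
  have hli := linearIndependent_monoidHom M L
  rw [linearIndependent_iff'] at hli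
  have h3 := hli (Finset.univ.image χ) (fun ψ => ∑ c with χ c = ψ, ℓ (F c)) (by
    funext γ
    rw [Finset.sum_apply, Pi.zero_apply, ← h1 γ]
    have h4 : ∀ ψ ∈ Finset.univ.image χ, ((∑ c with χ c = ψ, ℓ (F c)) • (ψ : M → L)) γ =
        ∑ c with χ c = ψ, χ c γ * ℓ (F c) := by
      intro ψ _
      rw [Pi.smul_apply, smul_eq_mul, Finset.sum_mul]
      refine Finset.sum_congr rfl fun c hc => ?_
      rw [(Finset.mem_filter.1 hc).2, mul_comm]
    rw [Finset.sum_congr rfl h4]
    exact Finset.sum_fiberwise_of_maps_to (fun c _ => Finset.mem_image_of_mem _ (Finset.mem_univ c))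
      _) (χ c0) (Finset.mem_image_of_mem _ (Finset.mem_univ c0))
  apply hℓ
  rw [← h3]
  symm
  refine (Finset.sum_eq_single c0 ?_ ?_)
  · intro c hc hne
    rcases h0 c (Finset.mem_filter.1 hc).2 with h | h
    · exact absurd h hne
    · rw [h, map_zero]
  · intro h
    exact absurd (show c0 ∈ Finset.univ.filter (fun c => χ c = χ c0) from
      Finset.mem_filter.2 ⟨Finset.mem_univ _, rfl⟩) h

variable {L : Type} [Field L] [NumberField L] [IsCMField L] [IsGalois ℚ L] {X Y : CMAV}

theorem rtr_embL {K : Type} [Field K] [NumberField K] (ι ι' : K →+* L) (j : L →+* ℂ)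
    [DecidableEq (K →+* L)] (x : L) :
    ι' (rtr ι x) = ∑ σ : L ≃ₐ[ℚ] L, if σ • ι = ι' then σ x else 0 := by
  classical
  apply j.injective
  have h := rtr_emb ι j (j.comp ι') x
  rw [map_sum]
  refine (h.trans ?_)
  refine Finset.sum_congr rfl fun σ _ => ?_
  by_cases hσ : σ • ι = ι'
  · rw [if_pos hσ, if_pos (by rw [hσ])]
  · rw [if_neg hσ, if_neg, map_zero]
    intro h2
    apply hσ
    ext a
    exact j.injective (RingHom.congr_fun h2 a)

open Classical in
/-- The homomorphism `X → Y` that connects a weight of `X` with a weight of `Y`. -/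
def hom1 (γ : L) (x : Wt X L) (y : Wt Y L) : X.H1 →ₗ[ℚ] Y.H1 where
  toFun w := Pi.single y.1 (rtr y.2 (γ * ev w x))
  map_add' w w' := by
    have h1 : ev (w + w') x = ev w x + ev w' x := map_add x.2 _ _
    rw [h1, mul_add, map_add, Pi.single_add]
  map_smul' a w := by
    have h1 : ev (a • w) x = a • ev w x := (evLin x).map_smul a w
    rw [h1, mul_smul_comm, rtr_smul, RingHom.id_apply]
    funext i
    by_cases hi : i = y.1
    · subst hi
      rw [Pi.single_eq_same]
      change _ = a • (Pi.single y.1 (rtr y.2 (γ * ev w x)) : Y.H1) y.1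
      rw [Pi.single_eq_same]
    · rw [Pi.single_eq_of_ne hi]
      change _ = a • (Pi.single y.1 (rtr y.2 (γ * ev w x)) : Y.H1) i
      rw [Pi.single_eq_of_ne hi, smul_zero]

open Classical in
theorem hom1_apply (γ : L) (x : Wt X L) (y : Wt Y L) (w : X.H1) :
    hom1 γ x y w = (Pi.single y.1 (rtr y.2 (γ * ev w x)) : Y.H1) := rfl

theorem isHom_hom1 (j : L →+* ℂ) (γ : L) (x : Wt X L) (y : Wt Y L) (hxy : St j x = St j y) :
    IsHom X Y (hom1 γ x y) := by
  classical
  have hmem : ∀ (σ : L ≃ₐ[ℚ] L) (ψ : (Y.factor y.1).Φ), j.comp (σ • y.2) = ψ.1 →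
      j.comp (σ • x.2) ∈ (X.factor x.1).Φ := by
    intro σ ψ h
    have h1 : σ ∈ St j y := by
      change j.comp (σ • y.2) ∈ (Y.factor y.1).Φ
      rw [h]
      exact ψ.2
    rw [← hxy] at h1
    exact h1
  let H1 : X.Tan →ₗ[ℂ] ((Y.factor y.1).Φ → ℂ) :=
    LinearMap.pi fun ψ => ∑ σ : L ≃ₐ[ℚ] L,
      if h : j.comp (σ • y.2) = ψ.1 then
        (j (σ γ)) • ((LinearMap.proj (R := ℂ) (φ := fun _ : (X.factor x.1).Φ => ℂ)
          (⟨j.comp (σ • x.2), hmem σ ψ h⟩ : (X.factor x.1).Φ)).comp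
          (LinearMap.proj (R := ℂ) (φ := fun i => (X.factor i).Φ → ℂ) x.1)) else 0
  have key : ∀ (w : X.H1) (ψ : (Y.factor y.1).Φ), H1 (X.per w) ψ =
      ψ.1 (rtr y.2 (γ * ev w x)) := by
    intro w ψ
    rw [rtr_emb y.2 j ψ.1 (γ * ev w x), LinearMap.pi_apply, LinearMap.sum_apply]
    refine Finset.sum_congr rfl fun σ _ => ?_
    split_ifs with h
    · rw [LinearMap.smul_apply, smul_eq_mul, map_mul, map_mul]
      rfl
    · rfl
  refine ⟨(LinearMap.single ℂ (fun i => (Y.factor i).Φ → ℂ) y.1).comp H1, fun w => ?_⟩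
  funext i ψ
  by_cases hi : i = y.1
  · subst hi
    change (Pi.single y.1 (H1 (X.per w)) : Y.Tan) y.1 ψ = ψ.1 (hom1 γ x y w y.1)
    rw [hom1_apply, Pi.single_eq_same]
    have h2 : (Pi.single y.1 (rtr y.2 (γ * ev w x)) : Y.H1) y.1 = rtr y.2 (γ * ev w x) :=
      Pi.single_eq_same _ _
    rw [h2, key]
  · change (Pi.single y.1 (H1 (X.per w)) : Y.Tan) i ψ = ψ.1 (hom1 γ x y w i)
    rw [hom1_apply, Pi.single_eq_of_ne hi]
    have h2 : (Pi.single y.1 (rtr y.2 (γ * ev w x)) : Y.H1) i = 0 :=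
      Pi.single_eq_of_ne hi _
    rw [h2, map_zero]
    rfl

theorem isHom_sum {κ : Type} [Fintype κ] (h : κ → X.H1 →ₗ[ℚ] Y.H1) (hh : ∀ k, IsHom X Y (h k)) :
    IsHom X Y (∑ k, h k) := by
  choose H hH using hh
  refine ⟨∑ k, H k, fun w => ?_⟩
  rw [LinearMap.sum_apply, LinearMap.sum_apply, map_sum]
  exact Finset.sum_congr rfl fun k _ => hH k w

open Classical in
theorem ev_hom1 (j : L →+* ℂ) (γ : L) (x : Wt X L) (y y' : Wt Y L) (w : X.H1) :
    ev (hom1 γ x y w) y' =
      ∑ σ : L ≃ₐ[ℚ] L, if (⟨y.1, σ • y.2⟩ : Wt Y L) = y' then σ γ * σ (ev w x) else 0 := by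
  obtain ⟨i', φ'⟩ := y'
  rw [hom1_apply]
  by_cases hi : i' = y.1
  · subst hi
    have h2 : ev (Pi.single y.1 (rtr y.2 (γ * ev w x)) : Y.H1) (⟨y.1, φ'⟩ : Wt Y L) =
        φ' (rtr y.2 (γ * ev w x)) := by
      unfold ev
      dsimp only
      rw [Pi.single_eq_same]
    rw [h2, rtr_embL y.2 φ' j]
    refine Finset.sum_congr rfl fun σ _ => ?_
    by_cases hσ : σ • y.2 = φ'
    · rw [if_pos hσ, if_pos (by rw [hσ]), map_mul]
    · rw [if_neg hσ, if_neg]
      intro h3
      apply hσ
      exact eq_of_heq (Sigma.mk.inj h3).2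
  · have h2 : ev (Pi.single y.1 (rtr y.2 (γ * ev w x)) : Y.H1) (⟨i', φ'⟩ : Wt Y L) = 0 := by
      unfold ev
      dsimp only
      rw [Pi.single_eq_of_ne hi, map_zero]
    rw [h2]
    symm
    refine Finset.sum_eq_zero fun σ _ => ?_
    rw [if_neg]
    intro h3
    exact hi (congrArg Sigma.fst h3).symm

section main

variable {κ : Type} [Fintype κ] [DecidableEq κ]

/-- The homomorphism belonging to a family of elements of `L`. -/
def homG (γ : κ → L) (I : κ → Wt X L) (J : κ → Wt Y L) : X.H1 →ₗ[ℚ] Y.H1 :=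
  ∑ k, hom1 (γ k) (I k) (J k)

theorem isHom_homG (j : L →+* ℂ) (γ : κ → L) (I : κ → Wt X L) (J : κ → Wt Y L)
    (h : ∀ k, St j (I k) = St j (J k)) : IsHom X Y (homG γ I J) :=
  isHom_sum _ fun k => isHom_hom1 j (γ k) (I k) (J k) (h k)

open Classical in
/-- The indicator. -/
def ind (J : κ → Wt Y L) (l : κ) (p : κ × (L ≃ₐ[ℚ] L)) : L :=
  if (⟨(J p.1).1, p.2 • (J p.1).2⟩ : Wt Y L) = J l then 1 else 0

theorem ev_homG (j : L →+* ℂ) (γ : κ → L) (I : κ → Wt X L) (J : κ → Wt Y L) (w : X.H1) (l : κ) :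
    ev (homG γ I J w) (J l) = ∑ p : κ × (L ≃ₐ[ℚ] L), p.2 (γ p.1) *
      (ind J l p * p.2 (ev w (I p.1))) := by
  have h1 : ev (homG γ I J w) (J l) = ∑ k, ev (hom1 (γ k) (I k) (J k) w) (J l) := by
    unfold homG
    rw [LinearMap.sum_apply]
    exact map_sum (evLin (J l)) _ _
  rw [h1, Fintype.sum_prod_type]
  refine Finset.sum_congr rfl fun k _ => ?_
  rw [ev_hom1 j]
  refine Finset.sum_congr rfl fun σ _ => ?_
  unfold ind
  dsimp only
  split_ifs with h
  · ring
  · ring

/-- The character belonging to a choice. -/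
def chi (c : κ → κ × (L ≃ₐ[ℚ] L)) : (κ → L) →* L where
  toFun γ := ∏ l, (c l).2 (γ (c l).1)
  map_one' := by simp
  map_mul' γ γ' := by
    simp only [Pi.mul_apply, map_mul, Finset.prod_mul_distrib]

/-- The component belonging to a choice. -/
def comp (I : κ → Wt X L) (J : κ → Wt Y L) (c : κ → κ × (L ≃ₐ[ℚ] L)) : (κ → X.H1) → L :=
  fun v => (∏ l, ind J l (c l)) * ∑ π : Perm κ, ((Perm.sign π : ℤ) : L) *
    ∏ l, (c l).2 (ev (v (π l)) (I (c l).1))

theorem mono_homG (j : L →+* ℂ) (γ : κ → L) (I : κ → Wt X L) (J : κ → Wt Y L) :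
    (fun v : κ → X.H1 => mono J (fun a => homG γ I J (v a))) =
      ∑ c : κ → κ × (L ≃ₐ[ℚ] L), chi c γ • comp I J c := by
  funext v
  rw [mono_apply, Finset.sum_apply]
  have h1 : ∀ π : Perm κ, ∏ l, ev (homG γ I J (v (π l))) (J l) =
      ∑ c : κ → κ × (L ≃ₐ[ℚ] L), ∏ l, ((c l).2 (γ (c l).1) *
        (ind J l (c l) * (c l).2 (ev (v (π l)) (I (c l).1)))) := by
    intro π
    rw [Finset.prod_congr rfl (fun l _ => ev_homG j γ I J (v (π l)) l), Finset.prod_univ_sum]
    simp only [Fintype.piFinset_univ]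
  rw [Finset.sum_congr rfl (fun π _ => by rw [h1 π, Finset.mul_sum]), Finset.sum_comm]
  refine Finset.sum_congr rfl fun c _ => ?_
  rw [Pi.smul_apply, smul_eq_mul]
  unfold comp chi
  simp only [MonoidHom.coe_mk, OneHom.coe_mk, Finset.mul_sum]
  refine Finset.sum_congr rfl fun π _ => ?_
  rw [Finset.prod_mul_distrib, Finset.prod_mul_distrib]
  ring

theorem chi_eq {c : κ → κ × (L ≃ₐ[ℚ] L)} (h : chi c = chi (fun l => (l, 1))) :
    ∀ l, (c l).2 = 1 := by
  intro l
  have h1 : ∀ (m : κ) (y : L), ∏ l, (if (c l).1 = m then (c l).2 y else 1) = y := by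
    intro m y
    have h2 := DFunLike.congr_fun h (Function.update (1 : κ → L) m y)
    have h3 : chi (fun l => (l, (1 : L ≃ₐ[ℚ] L))) (Function.update (1 : κ → L) m y) = y := by
      change ∏ l, (1 : L ≃ₐ[ℚ] L) (Function.update (1 : κ → L) m y l) = y
      rw [Finset.prod_eq_single m]
      · rw [Function.update_self]
        rfl
      · intro b _ hb
        rw [Function.update_of_ne hb]
        rfl
      · intro h
        exact absurd (Finset.mem_univ m) h
    rw [h3] at h2
    refine Eq.trans ?_ h2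
    change _ = ∏ l, (c l).2 (Function.update (1 : κ → L) m y (c l).1)
    refine Finset.prod_congr rfl fun l _ => ?_
    by_cases hm : (c l).1 = m
    · rw [if_pos hm, hm, Function.update_self]
    · rw [if_neg hm, Function.update_of_ne hm]
      exact (map_one (c l).2).symm
  have h2 : ∀ m : κ, (Finset.univ.filter (fun l => (c l).1 = m)).card = 1 := by
    intro m
    have h3 := h1 m 2
    have h4 : ∏ l, (if (c l).1 = m then (c l).2 (2 : L) else 1) =
        (2 : L) ^ (Finset.univ.filter (fun l => (c l).1 = m)).card := by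
      rw [Finset.prod_ite, Finset.prod_const_one, mul_one]
      rw [Finset.prod_congr rfl (fun l _ => map_ofNat (c l).2 2), Finset.prod_const]
    rw [h4] at h3
    have h5 : ((2 ^ (Finset.univ.filter (fun l => (c l).1 = m)).card : ℕ) : L) = ((2 ^ 1 : ℕ) : L) := by
      push_cast
      rw [h3]
    exact Nat.pow_right_injective (le_refl 2) (Nat.cast_injective h5)
  ext y
  have h3 := h1 (c l).1 y
  obtain ⟨l', hl'⟩ := Finset.card_eq_one.1 (h2 (c l).1)
  have h4 : l ∈ Finset.univ.filter (fun l' => (c l').1 = (c l).1) :=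
    Finset.mem_filter.2 ⟨Finset.mem_univ _, rfl⟩
  have h5 : l = l' := by
    rw [hl'] at h4
    exact Finset.mem_singleton.1 h4
  rw [Finset.prod_ite, Finset.prod_const_one, mul_one, hl', Finset.prod_singleton, ← h5] at h3
  exact h3

/-- A monomial on `X` is in the span of the pull-backs of a monomial on `Y` with the same types. -/
theorem mono_mem_of_pull (j : L →+* ℂ) (I : κ → Wt X L) (J : κ → Wt Y L)
    (hJ : Function.Injective J) (h : ∀ k, St j (I k) = St j (J k))
    (V : Submodule L ((κ → X.H1) → L))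
    (hV : ∀ g : X.H1 →ₗ[ℚ] Y.H1, IsHom X Y g → (fun v : κ → X.H1 => mono J (fun a => g (v a))) ∈ V) :
    mono I ∈ V := by
  classical
  have h1 := char_component (fun c : κ → κ × (L ≃ₐ[ℚ] L) => chi c) (comp I J) V (fun γ => by
    rw [← mono_homG j]
    exact hV _ (isHom_homG j γ I J h)) (fun l => (l, 1)) (fun c hc => by
      have h2 := chi_eq hc
      by_cases h3 : ∀ l, (c l).1 = l
      · left
        funext l
        exact Prod.ext (h3 l) (h2 l)
      · right
        push Not at h3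
        obtain ⟨l, hl⟩ := h3
        have h4 : ind J l (c l) = 0 := by
          unfold ind
          rw [if_neg]
          rw [h2 l]
          intro h5
          have h6 : (⟨(J (c l).1).1, (1 : L ≃ₐ[ℚ] L) • (J (c l).1).2⟩ : Wt Y L) = J (c l).1 := by
            refine Sigma.ext rfl (heq_of_eq ?_)
            ext a
            rfl
          rw [h6] at h5
          exact hl (hJ h5)
        funext v
        unfold comp
        rw [Finset.prod_eq_zero (Finset.mem_univ l) h4, zero_mul]
        rfl)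
  have h2 : comp I J (fun l => (l, 1)) = mono I := by
    funext v
    rw [mono_apply]
    unfold comp
    have h3 : ∏ l, ind J l (l, (1 : L ≃ₐ[ℚ] L)) = 1 := by
      refine Finset.prod_eq_one fun l _ => ?_
      unfold ind
      rw [if_pos]
      refine Sigma.ext rfl (heq_of_eq ?_)
      ext a
      rfl
    rw [h3, one_mul]
    rfl
  rwa [h2] at h1

end main

end

end Pool.Agent.W547.LD
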