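import Pool.Agent.W547.LD.Defs
import Pool.Agent.W547.KB.Canon
import Pool.Agent.W547.KB.Cancel
import Pool.Agent.W547.KB.RelTrace

/-!
# The span of the ring of divisors and Weil classes over a number field
-/

set_option linter.unusedSectionVars false
set_option linter.unusedVariables false

namespace Pool.Agent.W547.LD

open NumberField Pool.Agent.H204R3.CM Pool.Agent.W547.KB Equiv Module

noncomputable section

variable {L : Type} [Field L] [NumberField L] {X Y : CMAV} {κ κ' : Type}

/-- The span over `L` of the classes of the ring. -/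
def LS (L : Type) [Field L] [NumberField L] (X : CMAV) (κ : Type) :
    Submodule L ((κ → X.H1) → L) :=
  Submodule.span L {g | ∃ f : X.H1 [⋀^κ]→ₗ[ℚ] ℚ, DWRing X κ f ∧ g = fun v => ((f v : ℚ) : L)}

theorem LS.of_ring {f : X.H1 [⋀^κ]→ₗ[ℚ] ℚ} (hf : DWRing X κ f) :
    (fun v => ((f v : ℚ) : L)) ∈ LS L X κ :=
  Submodule.subset_span ⟨f, hf, rfl⟩

theorem LS.unit [IsEmpty κ] (F : (κ → X.H1) → L) : F ∈ LS L X κ := by
  have h1 : F = F (fun k => isEmptyElim k) • (fun v =>
      (((AlternatingMap.constOfIsEmpty ℚ X.H1 κ (1 : ℚ)) v : ℚ) : L)) := by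
    funext v
    have h2 : v = fun k => isEmptyElim k := funext fun k => isEmptyElim k
    subst h2
    simp
  rw [h1]
  exact Submodule.smul_mem _ _ (LS.of_ring (DWRing.unit _))

theorem LS.reindex (e : κ ≃ κ') {F : (κ → X.H1) → L} (hF : F ∈ LS L X κ) :
    (fun v : κ' → X.H1 => F (fun k => v (e k))) ∈ LS L X κ' := by
  induction hF using Submodule.span_induction with
  | mem F hF =>
    obtain ⟨f, hf, rfl⟩ := hF
    exact LS.of_ring (DWRing.reindex e f hf)
  | zero => exact Submodule.zero_mem _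
  | add F G _ _ hF hG => exact Submodule.add_mem _ hF hG
  | smul c F _ hF => exact Submodule.smul_mem _ c hF

theorem LS.cup [Fintype κ] [DecidableEq κ] [Fintype κ'] [DecidableEq κ']
    {F : (κ → X.H1) → L} {G : (κ' → X.H1) → L} (hF : F ∈ LS L X κ) (hG : G ∈ LS L X κ') :
    cupFun F G ∈ LS L X (κ ⊕ κ') := by
  induction hF using Submodule.span_induction with
  | mem F hF =>
    obtain ⟨f, hf, rfl⟩ := hF
    induction hG using Submodule.span_induction with
    | mem G hG =>
      obtain ⟨g, hg, rfl⟩ := hG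
      have h1 : cupFun (fun v => ((f v : ℚ) : L)) (fun v => ((g v : ℚ) : L)) =
          fun v => ((cupAlt f g v : ℚ) : L) := by
        funext v
        rw [cupAlt_apply]
        unfold cupFun
        push_cast
        rfl
      rw [h1]
      exact LS.of_ring (DWRing.cup f g hf hg _ (cupAlt_apply f g))
    | zero =>
      have h1 : cupFun (fun v => ((f v : ℚ) : L)) (0 : (κ' → X.H1) → L) = 0 := by
        funext v
        simp [cupFun]
      rw [h1]
      exact Submodule.zero_mem _
    | add G G' _ _ hG hG' =>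
      have h1 : cupFun (fun v => ((f v : ℚ) : L)) (G + G') =
          cupFun (fun v => ((f v : ℚ) : L)) G + cupFun (fun v => ((f v : ℚ) : L)) G' := by
        funext v
        simp only [cupFun, Pi.add_apply, mul_add, Finset.sum_add_distrib]
      rw [h1]
      exact Submodule.add_mem _ hG hG'
    | smul c G _ hG =>
      have h1 : cupFun (fun v => ((f v : ℚ) : L)) (c • G) =
          c • cupFun (fun v => ((f v : ℚ) : L)) G := by
        funext v
        simp only [cupFun, Pi.smul_apply, smul_eq_mul, Finset.mul_sum]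
        exact Finset.sum_congr rfl fun σ _ => by ring
      rw [h1]
      exact Submodule.smul_mem _ c hG
  | zero =>
    have h1 : cupFun (0 : (κ → X.H1) → L) G = 0 := by
      funext v
      simp [cupFun]
    rw [h1]
    exact Submodule.zero_mem _
  | add F F' _ _ hF hF' =>
    have h1 : cupFun (F + F') G = cupFun F G + cupFun F' G := by
      funext v
      simp only [cupFun, Pi.add_apply, mul_add, add_mul, Finset.sum_add_distrib]
    rw [h1]
    exact Submodule.add_mem _ hF hF'
  | smul c F _ hF =>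
    have h1 : cupFun (c • F) G = c • cupFun F G := by
      funext v
      simp only [cupFun, Pi.smul_apply, smul_eq_mul, Finset.mul_sum]
      exact Finset.sum_congr rfl fun σ _ => by ring
    rw [h1]
    exact Submodule.smul_mem _ c hF

/-- Descent. -/
theorem ring_of_LS [Fintype κ] {f : X.H1 [⋀^κ]→ₗ[ℚ] ℚ}
    (hf : (fun v => ((f v : ℚ) : L)) ∈ LS L X κ) : DWRing X κ f := by
  let S : Set ((κ → X.H1) → ℚ) := {g | ∃ f : X.H1 [⋀^κ]→ₗ[ℚ] ℚ, DWRing X κ f ∧ g = fun v => f v}
  have h1 : (fun v => ((f v : ℚ) : L)) ∈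
      Submodule.span L {g : (κ → X.H1) → L | ∃ s ∈ S, g = fun x => ((s x : ℚ) : L)} := by
    refine Submodule.span_mono ?_ hf
    rintro g ⟨f, hf, rfl⟩
    exact ⟨fun v => f v, ⟨f, hf, rfl⟩, rfl⟩
  have h2 := span_descent S (fun v => f v) h1
  have h3 : ∀ g ∈ Submodule.span ℚ S, ∃ f : X.H1 [⋀^κ]→ₗ[ℚ] ℚ, DWRing X κ f ∧ g = fun v => f v := by
    intro g hg
    induction hg using Submodule.span_induction with
    | mem g hg => exact hg
    | zero => exact ⟨0, DWRing.zero κ, rfl⟩
    | add g g' _ _ h h' =>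
      obtain ⟨f, hf, rfl⟩ := h
      obtain ⟨f', hf', rfl⟩ := h'
      exact ⟨f + f', DWRing.add f f' hf hf', rfl⟩
    | smul c g _ h =>
      obtain ⟨f, hf, rfl⟩ := h
      exact ⟨c • f, DWRing.smul c f hf, rfl⟩
  obtain ⟨f', hf', h4⟩ := h3 _ h2
  have h5 : f = f' := AlternatingMap.ext fun v => congrFun h4 v
  rw [h5]
  exact hf'

theorem mono_mem_LS [Fintype κ] [DecidableEq κ] (I : κ → Wt X L)
    (h : ∀ α : L, DWRing X κ (trForm α I)) : mono I ∈ LS L X κ := by
  obtain ⟨n, a, b, hab⟩ := exists_dual L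
  have h1 : mono I = ∑ i, b i • (fun v : κ → X.H1 => ((trForm (a i) I v : ℚ) : L)) := by
    funext v
    rw [Finset.sum_apply]
    exact hab (mono I v)
  rw [h1]
  exact Submodule.sum_mem _ fun i _ => Submodule.smul_mem _ _ (LS.of_ring (h (a i)))

section alg

variable [IsCMField L] [IsGalois ℚ L] [Fintype κ] [DecidableEq κ] [Fintype κ'] [DecidableEq κ']

/-- All monomials on `X` with the given types are in the span of the ring. -/
def AlgX (X : CMAV) (j : L →+* ℂ) (s : κ → Set (L ≃ₐ[ℚ] L)) : Prop :=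
  ∀ I : κ → Wt X L, (∀ k, St j (I k) = s k) → mono I ∈ LS L X κ

theorem algX_reindex {j : L →+* ℂ} (e : κ ≃ κ') {s : κ → Set (L ≃ₐ[ℚ] L)}
    {s' : κ' → Set (L ≃ₐ[ℚ] L)} (hs : AlgX X j s) (h : ∀ k, s' (e k) = s k) : AlgX X j s' := by
  intro I hI
  have h1 := hs (fun k => I (e k)) (fun k => by rw [hI, h])
  have h2 := LS.reindex e h1
  rw [mono_reindex] at h2
  simpa using h2

theorem algX_sum {j : L →+* ℂ} {s : κ → Set (L ≃ₐ[ℚ] L)} {s' : κ' → Set (L ≃ₐ[ℚ] L)}
    (hs : AlgX X j s) (hs' : AlgX X j s') : AlgX X j (Sum.elim s s') := by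
  intro I hI
  have h1 := hs (fun k => I (Sum.inl k)) (fun k => hI (Sum.inl k))
  have h2 := hs' (fun k => I (Sum.inr k)) (fun k => hI (Sum.inr k))
  have h3 := LS.cup h1 h2
  rw [mono_cup] at h3
  have h4 : (Fintype.card (Perm κ) : L) * (Fintype.card (Perm κ') : L) ≠ 0 := by
    rw [← Nat.cast_mul]
    exact Nat.cast_ne_zero.2 (Nat.mul_ne_zero Fintype.card_ne_zero Fintype.card_ne_zero)
  have h5 := Submodule.smul_mem _ (((Fintype.card (Perm κ) : L) * (Fintype.card (Perm κ') : L))⁻¹) h3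
  rw [smul_smul, inv_mul_cancel₀ h4, one_smul] at h5
  have h6 : Sum.elim (fun k => I (Sum.inl k)) (fun k => I (Sum.inr k)) = I := by
    funext s
    cases s <;> rfl
  rwa [h6] at h5

theorem algX_empty [IsEmpty κ] (j : L →+* ℂ) (s : κ → Set (L ≃ₐ[ℚ] L)) : AlgX X j s :=
  fun I hI => LS.unit _

theorem algX_two (j : L →+* ℂ) (hκ : Nat.card κ = 2) {s : κ → Set (L ≃ₐ[ℚ] L)}
    (hs : Balanced s) : AlgX X j s := by
  intro I hI
  have h1 : (fun k => St j (I k)) = s := funext hI
  refine mono_mem_LS I fun α => DWRing.divisor hκ _ ?_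
  exact isHodge_trForm j I (by rw [h1]; exact hs) α

theorem algX_pair (j : L →+* ℂ) (S : Set (L ≃ₐ[ℚ] L)) : AlgX X j ![S, Sᶜ] := by
  refine algX_two j (by simp) fun σ => ?_
  by_cases h : σ ∈ S <;> simp [Fin.sum_univ_two, h]

theorem algX_split {j : L →+* ℂ} {s : κ → Set (L ≃ₐ[ℚ] L)} (a b : κ) (hab : a ≠ b)
    (hs : s b = (s a)ᶜ) (h : AlgX X j (fun x : {x : κ // x ≠ a ∧ x ≠ b} => s x.1)) :
    AlgX X j s := by
  refine algX_reindex (splitTwo a b hab) (algX_sum h (algX_pair j (s a))) ?_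
  rintro (x | x)
  · rfl
  · fin_cases x
    · rfl
    · exact hs

end alg

end

end Pool.Agent.W547.LD
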