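import Pool.Agent.W547.LD.Lagr

/-!
# Splitness
-/

set_option linter.unusedSectionVars false
set_option linter.unusedVariables false

namespace Pool.Agent.W547.LD

open NumberField Pool.Agent.H204R3.CM Pool.Agent.W547.KB Equiv Module Polynomial

noncomputable section

variable {L : Type} [Field L] [NumberField L] [IsCMField L] [IsGalois ℚ L]

theorem cc_sqrt (j : L →+* ℂ) {δ : L} {d : ℕ} (hd : 0 < d) (hδ : δ * δ = -(d : L)) :
    cc L δ = -δ ∧ (j δ).im ≠ 0 := by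
  have h1 : j δ * j δ = -(d : ℂ) := by rw [← map_mul, hδ, map_neg, map_natCast]
  have h2 := congrArg Complex.re h1
  have h3 := congrArg Complex.im h1
  rw [Complex.mul_re, Complex.neg_re, Complex.natCast_re] at h2
  rw [Complex.mul_im, Complex.neg_im, Complex.natCast_im] at h3
  have h4 : (0 : ℝ) < d := by exact_mod_cast hd
  have h5 : (j δ).im ≠ 0 := by
    intro h
    rw [h] at h2
    nlinarith [mul_self_nonneg (j δ).re]
  have h6 : (j δ).re = 0 := by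
    have h7 : (j δ).im * (j δ).re = 0 := by linarith
    exact (mul_eq_zero.1 h7).resolve_left h5
  refine ⟨?_, h5⟩
  apply j.injective
  rw [emb_cc, map_neg]
  apply Complex.ext
  · rw [Complex.conj_re, Complex.neg_re, h6, neg_zero]
  · rw [Complex.conj_im, Complex.neg_im]

theorem exists_sqrt_pos (j : L →+* ℂ) {N : Subgroup (L ≃ₐ[ℚ] L)} (hN : IsImag N) :
    ∃ (δ : L) (d : ℕ), 0 < d ∧ δ * δ = -(d : L) ∧ (∀ τ ∈ N, τ δ = δ) ∧ cc L δ = -δ ∧
      0 < (j δ).im := by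
  obtain ⟨δ, d, hd, hδ, hfix⟩ := exists_sqrt j hN
  obtain ⟨hcc, him⟩ := cc_sqrt j hd hδ
  rcases lt_or_gt_of_ne him with h | h
  · refine ⟨-δ, d, hd, by rw [neg_mul_neg, hδ], fun τ hτ => by rw [map_neg, hfix τ hτ],
      by rw [map_neg, hcc], ?_⟩
    rw [map_neg, Complex.neg_im]
    linarith
  · exact ⟨δ, d, hd, hδ, hfix, hcc, h⟩

variable {Q : Type} [Fintype Q] (j : L →+* ℂ) (N : Subgroup (L ≃ₐ[ℚ] L))
  (x : Q → Set (L ≃ₐ[ℚ] L)) (hx : ∀ q, IsHalf (x q)) [Fintype (Orb N x)]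
  [DecidableEq (Orb N x)]

open Classical in
theorem card_half (hbal : Balanced (fun k : Orb N x => k.2.1)) {m : ℕ}
    (hm : m * 2 = Fintype.card (Orb N x)) :
    Fintype.card {k : Orb N x // (1 : L ≃ₐ[ℚ] L) ∈ k.2.1} = m ∧
      Fintype.card {k : Orb N x // ¬(1 : L ≃ₐ[ℚ] L) ∈ k.2.1} = m := by
  have h1 := hbal 1
  have h2 : ∑ k : Orb N x, (if (1 : L ≃ₐ[ℚ] L) ∈ k.2.1 then (1 : ℤ) else -1) = 0 := h1
  rw [Finset.sum_ite, Finset.sum_const, Finset.sum_const, nsmul_eq_mul, nsmul_eq_mul] at h2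
  have h3 := Fintype.card_subtype_compl (fun k : Orb N x => (1 : L ≃ₐ[ℚ] L) ∈ k.2.1)
  have h4 := Fintype.card_subtype_le (fun k : Orb N x => (1 : L ≃ₐ[ℚ] L) ∈ k.2.1)
  have h5 := Fintype.card_subtype (fun k : Orb N x => (1 : L ≃ₐ[ℚ] L) ∈ k.2.1)
  have h6 := Fintype.card_subtype (fun k : Orb N x => ¬(1 : L ≃ₐ[ℚ] L) ∈ k.2.1)
  rw [← h5, ← h6] at h2
  have h7 : (Fintype.card {k : Orb N x // (1 : L ≃ₐ[ℚ] L) ∈ k.2.1} : ℤ) =
      Fintype.card {k : Orb N x // ¬(1 : L ≃ₐ[ℚ] L) ∈ k.2.1} := by linarith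
  have h8 : Fintype.card {k : Orb N x // (1 : L ≃ₐ[ℚ] L) ∈ k.2.1} =
      Fintype.card {k : Orb N x // ¬(1 : L ≃ₐ[ℚ] L) ∈ k.2.1} := by exact_mod_cast h7
  omega

theorem exists_split (hN : IsImag N) (hst : ∀ q, stab (x q) ≤ N)
    (hbal : Balanced (fun k : Orb N x => k.2.1)) {m : ℕ} (hm0 : 0 < m)
    (hm : m * 2 = Fintype.card (Orb N x)) :
    ∃ (δ : L) (d : ℕ) (hmem : ∀ q, δ ∈ fld (x q))
      (E : (prodOf j x hx).H1 → (prodOf j x hx).H1 → ℚ)
      (W : Submodule ℚ (prodOf j x hx).H1),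
      0 < d ∧ δ * δ = -(d : L) ∧ (∀ τ ∈ N, τ δ = δ) ∧ IsPolarization (prodOf j x hx) E ∧
      (∀ v w, E (mulBy j x hx δ hmem v) w = -E v (mulBy j x hx δ hmem w)) ∧
      finrank ℚ W = m * 2 ∧ (∀ w ∈ W, mulBy j x hx δ hmem w ∈ W) ∧
      ∀ v ∈ W, ∀ w ∈ W, E v w = 0 := by
  classical
  obtain ⟨δ, d, hd, hδ, hfix, hcc, him⟩ := exists_sqrt_pos j hN
  have hmem : ∀ q, δ ∈ fld (x q) := by
    intro q
    rw [mem_fld]
    intro τ hτ
    exact hfix τ (hst q hτ)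
  obtain ⟨hp1, hp2⟩ := card_half N x hbal hm
  obtain ⟨e, he⟩ := exists_numbering (fun k : Orb N x => (1 : L ≃ₐ[ℚ] L) ∈ k.2.1)
    (m := m) (by convert hp1) (by convert hp2)
  obtain ⟨θ, hθ, hθ'⟩ := exists_theta j N x hx hN hst (fun k => -((e k : ℕ) : ℝ))
    (ε := 1 / 3) (by norm_num)
  set y : Orb N x → ℝ := fun k => (j (ev θ (orbWt j N x hx k))).re with hy
  have hyk : ∀ k, |y k + ((e k : ℕ) : ℝ)| < 1 / 3 := by
    intro k
    have h1 := hθ' k
    rw [sub_neg_eq_add] at h1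
    exact h1
  have hinj : Function.Injective fun k => ev θ (orbWt j N x hx k) := by
    intro k l hkl
    have h1 : y k = y l := by
      change (j (ev θ (orbWt j N x hx k))).re = (j (ev θ (orbWt j N x hx l))).re
      rw [show ev θ (orbWt j N x hx k) = ev θ (orbWt j N x hx l) from hkl]
    have h2 := abs_lt.1 (hyk k)
    have h3 := abs_lt.1 (hyk l)
    apply e.injective
    apply Fin.ext
    by_contra h4
    rcases Nat.lt_or_gt_of_ne h4 with h7 | h7
    · have h8 : ((e k : ℕ) : ℝ) + 1 ≤ ((e l : ℕ) : ℝ) := by exact_mod_cast h7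
      linarith
    · have h8 : ((e l : ℕ) : ℝ) + 1 ≤ ((e k : ℕ) : ℝ) := by exact_mod_cast h7
      linarith
  have hreal : ∀ k, j (ev θ (orbWt j N x hx k)) = ((y k : ℝ) : ℂ) := by
    intro k
    have h1 : starRingEnd ℂ (j (ev θ (orbWt j N x hx k))) = j (ev θ (orbWt j N x hx k)) := by
      rw [← emb_cc, hθ]
    exact ((Complex.conj_eq_iff_re).1 h1).symm
  have hdre : ∀ k, (j (dif j N x hx θ k)).re = ∏ l ∈ Finset.univ.erase k, (y k - y l) := by
    intro k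
    have h1 : j (dif j N x hx θ k) = ((∏ l ∈ Finset.univ.erase k, (y k - y l) : ℝ) : ℂ) := by
      unfold dif
      rw [map_prod, Complex.ofReal_prod]
      refine Finset.prod_congr rfl fun l _ => ?_
      rw [map_sub, hreal, hreal, Complex.ofReal_sub]
    rw [h1, Complex.ofReal_re]
  have hsgn : ∀ k : Orb N x, 0 < (if (1 : L ≃ₐ[ℚ] L) ∈ k.2.1 then (1 : ℝ) else -1) *
      (j (dif j N x hx θ k)).re := by
    intro k
    rw [hdre]
    have h1 := sign_prod e y hyk k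
    have h2 : (if (1 : L ≃ₐ[ℚ] L) ∈ k.2.1 then (1 : ℝ) else -1) = (-1 : ℝ) ^ (e k : ℕ) := by
      split_ifs with h
      · rw [((he k).1 h).neg_one_pow]
      · rw [(Nat.not_even_iff_odd.1 (fun h' => h ((he k).2 h'))).neg_one_pow]
    rw [h2]
    exact h1
  obtain ⟨E, hE⟩ := exists_form j N x hx hN hfix hcc hθ
  have hcast : ∀ {a b : ℚ}, (a : L) = (b : L) → a = b := fun h => by exact_mod_cast h
  have h0 : δ ≠ 0 := by
    rintro rfl
    rw [map_zero, Complex.zero_im] at him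
    exact lt_irrefl _ him
  refine ⟨δ, d, hmem, fun v w => E v w, LinearMap.range (lag j x hx δ hmem θ m), hd, hδ, hfix,
    isPol j N x hx hN hst hfix hcc him hθ hsgn hE, fun v w => ?_, ?_, ?_, ?_⟩
  · apply hcast
    rw [Rat.cast_neg, hE, hE]
    unfold val
    rw [← Finset.sum_neg_distrib]
    refine Finset.sum_congr rfl fun k _ => ?_
    rw [ev_mulBy j N x hx δ hmem hfix, ev_mulBy j N x hx δ hmem hfix, map_mul, map_mul, hcc]
    ring
  · exact finrank_lag j N x hx hmem hfix hcc h0 hθ hinj (by omega)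
  · rintro _ ⟨p, rfl⟩
    exact ⟨_, (lag_stable j x hx hmem hδ θ m p).symm⟩
  · rintro _ ⟨p, rfl⟩ _ ⟨p', rfl⟩
    apply hcast
    rw [hE, Rat.cast_zero]
    exact lag_isotropic j N x hx hmem hfix hcc hθ hinj hm0 hm p p'

end

end Pool.Agent.W547.LD
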