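import Pool.Agent.W547.LD.Coord

/-!
# The polarization and its Lagrangian subspace
-/

set_option linter.unusedSectionVars false
set_option linter.unusedVariables false

namespace Pool.Agent.W547.LD

open NumberField Pool.Agent.H204R3.CM Pool.Agent.W547.KB Equiv Module

noncomputable section

variable {L : Type} [Field L] [NumberField L] [IsCMField L] [IsGalois ℚ L]

variable {Q : Type} [Fintype Q] (j : L →+* ℂ) (N : Subgroup (L ≃ₐ[ℚ] L))
  (x : Q → Set (L ≃ₐ[ℚ] L)) (hx : ∀ q, IsHalf (x q)) [Fintype (Orb N x)]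
  [DecidableEq (Orb N x)]

/-- The product of the differences of the coordinates. -/
def dif (θ : (prodOf j x hx).H1) (k : Orb N x) : L :=
  ∏ l ∈ Finset.univ.erase k, (ev θ (orbWt j N x hx k) - ev θ (orbWt j N x hx l))

theorem act_dif (θ : (prodOf j x hx).H1) (τ : N) (k : Orb N x) :
    τ.1 (dif j N x hx θ k) = dif j N x hx θ (act N x τ k) := by
  unfold dif
  rw [map_prod]
  refine Finset.prod_nbij (act N x τ) ?_ ?_ ?_ ?_
  · intro l hl
    rw [Finset.mem_erase] at hl ⊢
    exact ⟨fun h => hl.1 ((act_bijective N x τ).1 h), Finset.mem_univ _⟩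
  · exact (act_bijective N x τ).1.injOn
  · intro l hl
    obtain ⟨l', rfl⟩ := (act_bijective N x τ).2 l
    refine ⟨l', ?_, rfl⟩
    have h1 := Finset.ne_of_mem_erase (Finset.mem_coe.1 hl)
    rw [Finset.mem_coe, Finset.mem_erase]
    exact ⟨fun h => h1 (by rw [h]), Finset.mem_univ _⟩
  · intro l _
    rw [map_sub, ev_act, ev_act]

theorem cc_dif {θ : (prodOf j x hx).H1}
    (hθ : ∀ k, cc L (ev θ (orbWt j N x hx k)) = ev θ (orbWt j N x hx k)) (k : Orb N x) :
    cc L (dif j N x hx θ k) = dif j N x hx θ k := by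
  unfold dif
  rw [map_prod]
  exact Finset.prod_congr rfl fun l _ => by rw [map_sub, hθ, hθ]

/-- The values of the bilinear form. -/
def val (δ : L) (θ v w : (prodOf j x hx).H1) : L :=
  ∑ k : Orb N x, δ * (dif j N x hx θ k)⁻¹ *
    (cc L (ev v (orbWt j N x hx k)) * ev w (orbWt j N x hx k) -
      ev v (orbWt j N x hx k) * cc L (ev w (orbWt j N x hx k)))

theorem cc_val {δ : L} (hδ : cc L δ = -δ) {θ : (prodOf j x hx).H1}
    (hθ : ∀ k, cc L (ev θ (orbWt j N x hx k)) = ev θ (orbWt j N x hx k))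
    (v w : (prodOf j x hx).H1) : cc L (val j N x hx δ θ v w) = val j N x hx δ θ v w := by
  unfold val
  rw [map_sum]
  refine Finset.sum_congr rfl fun k _ => ?_
  have h0 : ∀ a : L, cc L (cc L a) = a := fun a => AlgEquiv.congr_fun cc_cc a
  rw [map_mul, map_mul, map_inv₀, cc_dif j N x hx hθ, map_sub, map_mul, map_mul, h0, h0, hδ]
  ring

theorem act_val {δ : L} (hδ : ∀ τ ∈ N, τ δ = δ) (θ v w : (prodOf j x hx).H1) (τ : N) :
    τ.1 (val j N x hx δ θ v w) = val j N x hx δ θ v w := by
  unfold val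
  rw [map_sum]
  refine Fintype.sum_bijective (act N x τ) (act_bijective N x τ) _ _ fun k => ?_
  have h0 : ∀ a : L, τ.1 (cc L a) = cc L (τ.1 a) := fun a =>
    (AlgEquiv.congr_fun (cc_comm j τ.1) a).symm
  rw [map_mul, map_mul, map_inv₀, act_dif, hδ τ.1 τ.2, map_sub, map_mul, map_mul, h0, h0, ev_act,
    ev_act]

theorem exists_val (hN : IsImag N) {δ : L} (hδ : ∀ τ ∈ N, τ δ = δ) (hcc : cc L δ = -δ)
    {θ : (prodOf j x hx).H1}
    (hθ : ∀ k, cc L (ev θ (orbWt j N x hx k)) = ev θ (orbWt j N x hx k))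
    (v w : (prodOf j x hx).H1) : ∃ q : ℚ, (q : L) = val j N x hx δ θ v w := by
  have h1 : val j N x hx δ θ v w ∈ (⊥ : IntermediateField ℚ L) := by
    rw [IsGalois.mem_bot_iff_fixed]
    intro σ
    by_cases hσ : σ ∈ N
    · exact act_val j N x hx hδ θ v w ⟨σ, hσ⟩
    · have h2 := act_val j N x hx hδ θ v w ⟨cc L * σ, hN.2 σ hσ⟩
      have h3 : cc L (cc L (σ (val j N x hx δ θ v w))) = σ (val j N x hx δ θ v w) :=
        AlgEquiv.congr_fun cc_cc _
      rw [← h3]
      change cc L ((cc L * σ) (val j N x hx δ θ v w)) = _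
      rw [h2, cc_val j N x hx hcc hθ]
  obtain ⟨q, hq⟩ := IntermediateField.mem_bot.1 h1
  exact ⟨q, hq⟩

/-- The form is bilinear. -/
theorem val_bilin (δ : L) (θ : (prodOf j x hx).H1) :
    (∀ v v' w, val j N x hx δ θ (v + v') w = val j N x hx δ θ v w + val j N x hx δ θ v' w) ∧
    (∀ (a : ℚ) v w, val j N x hx δ θ (a • v) w = (a : L) * val j N x hx δ θ v w) ∧
    (∀ v w w', val j N x hx δ θ v (w + w') = val j N x hx δ θ v w + val j N x hx δ θ v w') ∧
    (∀ (a : ℚ) v w, val j N x hx δ θ v (a • w) = (a : L) * val j N x hx δ θ v w) := by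
  have hadd : ∀ (v v' : (prodOf j x hx).H1) (k : Orb N x), ev (v + v') (orbWt j N x hx k) =
      ev v (orbWt j N x hx k) + ev v' (orbWt j N x hx k) :=
    fun v v' k => (evLin (orbWt j N x hx k)).map_add v v'
  have hsmul : ∀ (a : ℚ) (v : (prodOf j x hx).H1) (k : Orb N x),
      ev (a • v) (orbWt j N x hx k) = (a : L) * ev v (orbWt j N x hx k) := by
    intro a v k
    rw [← Rat.smul_def]
    exact (evLin (orbWt j N x hx k)).map_smul a v
  unfold val
  refine ⟨fun v v' w => ?_, fun a v w => ?_, fun v w w' => ?_, fun a v w => ?_⟩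
  · rw [← Finset.sum_add_distrib]
    refine Finset.sum_congr rfl fun k _ => ?_
    rw [hadd, map_add]
    ring
  · rw [Finset.mul_sum]
    refine Finset.sum_congr rfl fun k _ => ?_
    rw [hsmul, map_mul, map_ratCast]
    ring
  · rw [← Finset.sum_add_distrib]
    refine Finset.sum_congr rfl fun k _ => ?_
    rw [hadd, map_add]
    ring
  · rw [Finset.mul_sum]
    refine Finset.sum_congr rfl fun k _ => ?_
    rw [hsmul, map_mul, map_ratCast]
    ring

theorem exists_form (hN : IsImag N) {δ : L} (hδ : ∀ τ ∈ N, τ δ = δ) (hcc : cc L δ = -δ)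
    {θ : (prodOf j x hx).H1}
    (hθ : ∀ k, cc L (ev θ (orbWt j N x hx k)) = ev θ (orbWt j N x hx k)) :
    ∃ E : (prodOf j x hx).H1 →ₗ[ℚ] (prodOf j x hx).H1 →ₗ[ℚ] ℚ,
      ∀ v w, ((E v w : ℚ) : L) = val j N x hx δ θ v w := by
  have hex := exists_val j N x hx hN hδ hcc hθ
  obtain ⟨b1, b2, b3, b4⟩ := val_bilin j N x hx δ θ
  have hinj : ∀ {a b : ℚ}, (a : L) = (b : L) → a = b := fun h => by exact_mod_cast h
  refine ⟨LinearMap.mk₂ ℚ (fun v w => (hex v w).choose) ?_ ?_ ?_ ?_, fun v w => ?_⟩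
  · intro v v' w
    apply hinj
    rw [Rat.cast_add, (hex _ _).choose_spec, (hex _ _).choose_spec, (hex _ _).choose_spec, b1]
  · intro a v w
    apply hinj
    rw [smul_eq_mul, Rat.cast_mul, (hex _ _).choose_spec, (hex _ _).choose_spec, b2]
  · intro v w w'
    apply hinj
    rw [Rat.cast_add, (hex _ _).choose_spec, (hex _ _).choose_spec, (hex _ _).choose_spec, b3]
  · intro a v w
    apply hinj
    rw [smul_eq_mul, Rat.cast_mul, (hex _ _).choose_spec, (hex _ _).choose_spec, b4]
  · exact (hex v w).choose_spec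

open Classical in
/-- The form is a polarization if the signs are right. -/
theorem isPol (hN : IsImag N) (hst : ∀ q, stab (x q) ≤ N) {δ : L} (hδ : ∀ τ ∈ N, τ δ = δ)
    (hcc : cc L δ = -δ) (him : 0 < (j δ).im) {θ : (prodOf j x hx).H1}
    (hθ : ∀ k, cc L (ev θ (orbWt j N x hx k)) = ev θ (orbWt j N x hx k))
    (hsgn : ∀ k : Orb N x, 0 < (if (1 : L ≃ₐ[ℚ] L) ∈ k.2.1 then (1 : ℝ) else -1) *
      (j (dif j N x hx θ k)).re)
    {E : (prodOf j x hx).H1 →ₗ[ℚ] (prodOf j x hx).H1 →ₗ[ℚ] ℚ}
    (hE : ∀ v w, ((E v w : ℚ) : L) = val j N x hx δ θ v w) :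
    IsPolarization (prodOf j x hx) (fun v w => E v w) := by
  have hre : (j δ).re = 0 := by
    have h1 : starRingEnd ℂ (j δ) = -(j δ) := by rw [← emb_cc, hcc, map_neg]
    have h2 := congrArg Complex.re h1
    rw [Complex.conj_re, Complex.neg_re] at h2
    linarith
  have hjδ : j δ = ((j δ).im : ℂ) * Complex.I := by
    apply Complex.ext
    · simp [hre]
    · simp
  have hdif : ∀ k : Orb N x, j (dif j N x hx θ k) = (((j (dif j N x hx θ k)).re : ℝ) : ℂ) := by
    intro k
    have h1 : starRingEnd ℂ (j (dif j N x hx θ k)) = j (dif j N x hx θ k) := by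
      rw [← emb_cc, cc_dif j N x hx hθ]
    exact ((Complex.conj_eq_iff_re).1 h1).symm
  let s : Orb N x → ℝ := fun k => if (1 : L ≃ₐ[ℚ] L) ∈ k.2.1 then (1 : ℝ) else -1
  have hss : ∀ k, s k * s k = 1 := by
    intro k
    change (if (1 : L ≃ₐ[ℚ] L) ∈ k.2.1 then (1 : ℝ) else -1) *
      (if (1 : L ≃ₐ[ℚ] L) ∈ k.2.1 then (1 : ℝ) else -1) = 1
    split_ifs <;> norm_num
  let r : Orb N x → ℝ := fun k => 2 * ((j δ).im * (s k * (j (dif j N x hx θ k)).re⁻¹))
  have hr : ∀ k, 0 < r k := by
    intro k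
    have h1 : 0 < s k * (j (dif j N x hx θ k)).re := hsgn k
    have h2 : (j (dif j N x hx θ k)).re ≠ 0 := by
      intro h
      rw [h, mul_zero] at h1
      exact lt_irrefl _ h1
    have h3 : s k * (j (dif j N x hx θ k)).re⁻¹ =
        (s k * (j (dif j N x hx θ k)).re) * ((j (dif j N x hx θ k)).re⁻¹ ^ 2) := by
      field_simp
    have h4 : 0 < s k * (j (dif j N x hx θ k)).re⁻¹ := by
      rw [h3]
      exact mul_pos h1 (by positivity)
    have h5 := mul_pos him h4
    change 0 < 2 * ((j δ).im * (s k * (j (dif j N x hx θ k)).re⁻¹))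
    linarith
  have hadd : ∀ (u u' : (prodOf j x hx).Tan) (k : Orb N x), coo j N x hx k (u + u') =
      coo j N x hx k u + coo j N x hx k u' := fun u u' k => rfl
  have hsmul : ∀ (a : ℂ) (u : (prodOf j x hx).Tan) (k : Orb N x),
      coo j N x hx k (a • u) = a * coo j N x hx k u := fun a u k => rfl
  refine ⟨fun u u' => ∑ k, ((r k : ℝ) : ℂ) * (coo j N x hx k u * starRingEnd ℂ (coo j N x hx k u')),
    fun u' => ⟨fun u u'' => ?_, fun a u => ?_⟩, fun u u' => ?_, fun u hu => ?_, fun v w => ?_⟩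
  · dsimp only
    rw [← Finset.sum_add_distrib]
    refine Finset.sum_congr rfl fun k _ => ?_
    rw [hadd]
    ring
  · dsimp only
    rw [smul_eq_mul, Finset.mul_sum]
    refine Finset.sum_congr rfl fun k _ => ?_
    rw [hsmul]
    ring
  · dsimp only
    rw [map_sum]
    refine Finset.sum_congr rfl fun k _ => ?_
    rw [map_mul, map_mul, Complex.conj_ofReal, Complex.conj_conj]
    ring
  · dsimp only
    rw [Complex.re_sum]
    have h1 : ∀ k, (((r k : ℝ) : ℂ) * (coo j N x hx k u * starRingEnd ℂ (coo j N x hx k u))).re =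
        r k * Complex.normSq (coo j N x hx k u) := by
      intro k
      rw [Complex.mul_conj, ← Complex.ofReal_mul, Complex.ofReal_re]
    refine Finset.sum_pos' (fun k _ => ?_) ?_
    · rw [h1]
      exact mul_nonneg (hr k).le (Complex.normSq_nonneg _)
    · by_contra hcon
      push Not at hcon
      apply hu
      have h2 : ∀ k, coo j N x hx k u = 0 := by
        intro k
        by_contra h3
        have h4 := hcon k (Finset.mem_univ _)
        rw [h1] at h4
        have h5 := mul_pos (hr k) (Complex.normSq_pos.2 h3)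
        linarith
      funext q φ
      obtain ⟨k, hk⟩ := (pt_bijective j N x hx hN hst).2 ⟨q, φ⟩
      have h3 := h2 k
      unfold coo at h3
      rw [hk] at h3
      exact h3
  · dsimp only
    have h1 : (((E v w : ℚ) : ℝ) : ℂ) = j (val j N x hx δ θ v w) := by
      rw [← hE, map_ratCast]
      push_cast
      rfl
    have h2 : j (val j N x hx δ θ v w) = (((∑ k, ((r k : ℝ) : ℂ) * (coo j N x hx k
        ((prodOf j x hx).per v) * starRingEnd ℂ (coo j N x hx k
          ((prodOf j x hx).per w)))).im : ℝ) : ℂ) := by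
      unfold val
      rw [map_sum, Complex.im_sum, Complex.ofReal_sum]
      refine Finset.sum_congr rfl fun k _ => ?_
      have h3 : (((r k : ℝ) : ℂ) * (coo j N x hx k ((prodOf j x hx).per v) *
          starRingEnd ℂ (coo j N x hx k ((prodOf j x hx).per w)))).im = r k * (-(s k *
          (starRingEnd ℂ (j (ev v (orbWt j N x hx k))) * j (ev w (orbWt j N x hx k))).im)) := by
        rw [Complex.im_ofReal_mul, coo_per, coo_per]
        change _ = r k * (-((if (1 : L ≃ₐ[ℚ] L) ∈ k.2.1 then (1 : ℝ) else -1) * _))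
        split_ifs
        · rw [one_mul, Complex.mul_im, Complex.mul_im, Complex.conj_re, Complex.conj_im,
            Complex.conj_re, Complex.conj_im]
          ring
        · rw [Complex.conj_conj]
          ring
      rw [h3, map_mul, map_mul, map_inv₀, map_sub, map_mul, map_mul, emb_cc, emb_cc, hdif k, hjδ]
      have h4 : r k * (-(s k * (starRingEnd ℂ (j (ev v (orbWt j N x hx k))) *
          j (ev w (orbWt j N x hx k))).im)) = -2 * ((j δ).im * ((j (dif j N x hx θ k)).re⁻¹)) *
          (starRingEnd ℂ (j (ev v (orbWt j N x hx k))) * j (ev w (orbWt j N x hx k))).im := by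
        change 2 * ((j δ).im * (s k * (j (dif j N x hx θ k)).re⁻¹)) * (-(s k * _)) = _
        calc _ = (s k * s k) * (-2 * ((j δ).im * ((j (dif j N x hx θ k)).re⁻¹)) *
              (starRingEnd ℂ (j (ev v (orbWt j N x hx k))) * j (ev w (orbWt j N x hx k))).im) := by
              ring
          _ = _ := by rw [hss, one_mul]
      rw [h4]
      have h5 : starRingEnd ℂ (j (ev v (orbWt j N x hx k))) * j (ev w (orbWt j N x hx k)) -
          j (ev v (orbWt j N x hx k)) * starRingEnd ℂ (j (ev w (orbWt j N x hx k))) =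
          ((2 * (starRingEnd ℂ (j (ev v (orbWt j N x hx k))) *
            j (ev w (orbWt j N x hx k))).im : ℝ) : ℂ) * Complex.I := by
        apply Complex.ext
        · simp
        · simp
          ring
      rw [h5]
      push_cast
      linear_combination (2 * ((j δ).im : ℂ) * (((j (dif j N x hx θ k)).re : ℝ) : ℂ)⁻¹ *
        (((starRingEnd ℂ (j (ev v (orbWt j N x hx k))) *
            j (ev w (orbWt j N x hx k))).im : ℝ) : ℂ)) * Complex.I_mul_I
    have h3 := h1.trans h2
    exact (Complex.ofReal_injective h3).symm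

end

end Pool.Agent.W547.LD
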