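import Pool.Agent.W547.LD.Twelve2

/-!
# Relations between the half systems of one orbit
-/

set_option linter.unusedSectionVars false
set_option linter.unusedVariables false

namespace Pool.Agent.W547.LD.Comb

open Finset

noncomputable section

variable {G : Type} [Group G] [Fintype G] {P : Set (Set G)} {a b : Set G → ℚ}

theorem inv12 (hP : Stable P) (hcompl : ∀ S ∈ P, Sᶜ ∈ P) (hcard : P.ncard = 12) {τ : G}
    (h3 : ∀ S ∈ P, tr τ (tr τ (tr τ S)) = S) {x : Set G} (hx : x ∈ P) (hxm : tr τ x ≠ x)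
    (ha : IsRel P a) (S : Set G) : a (tr τ S) = a S := by
  classical
  by_contra hcon
  set d : Set G → ℚ := a - (fun S => a (tr τ S)) with hd'
  have hd : IsRel P d := ha.sub (ha.tr hP τ)
  have hdS : ∀ S, d S = a S - a (tr τ S) := fun S => rfl
  have hd0 : d ≠ 0 := by
    intro h
    have h1 : d S = 0 := by rw [h]; rfl
    rw [hdS] at h1
    exact hcon (sub_eq_zero.1 h1).symm
  have hsum : ∀ z ∈ P, d z + d (tr τ z) + d (tr τ (tr τ z)) = 0 := by
    intro z hz
    rw [hdS, hdS, hdS, h3 z hz]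
    ring
  have hsupp : ∀ S, d S ≠ 0 → S ∈ P ∧ tr τ S ≠ S := by
    intro S hS
    refine ⟨by_contra fun h => hS (hd.supp S h), fun h => hS ?_⟩
    rw [hdS, h, sub_self]
  -- a second orbit
  obtain ⟨y, hyP, hym, hy0, hy1, hy2⟩ : ∃ y ∈ P, tr τ y ≠ y ∧ Apart y x ∧ Apart y (tr τ x) ∧
      Apart y (tr τ (tr τ x)) := by
    by_contra hno
    push Not at hno
    apply hd0
    refine hd.eq_zero_of_six x (tr τ x) (tr τ (tr τ x)) fun S hS => ?_
    obtain ⟨hSP, hSm⟩ := hsupp S hS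
    have h1 := hno S hSP hSm
    unfold Apart at h1
    by_contra h2
    push Not at h2
    exact h1 ⟨h2.1, h2.2.1⟩ ⟨h2.2.2.1, h2.2.2.2.1⟩ ⟨h2.2.2.2.2.1, h2.2.2.2.2.2⟩
  have hc : Conf P τ x y := ⟨hx, hyP, h3 x hx, h3 y hyP, hxm, hym, hy0, hy1, hy2⟩
  obtain ⟨σ0, hσ0⟩ := exists_ne hxm
  have hu : ¬ (eps x σ0 = eps (tr τ x) σ0 ∧ eps (tr τ x) σ0 = eps (tr τ (tr τ x)) σ0) := by
    rintro ⟨h1, -⟩
    rw [h1] at hσ0
    rcases eps_cases (tr τ x) σ0 with h2 | h2 <;> rw [h2] at hσ0 <;> norm_num at hσ0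
  have hv : ¬ (eps y σ0 = eps (tr τ y) σ0 ∧ eps (tr τ y) σ0 = eps (tr τ (tr τ y)) σ0) := by
    rintro ⟨h1, h2⟩
    obtain ⟨e0, e1, e2⟩ := hc.eqs hP hcompl hcard hd σ0
    rw [← h2, ← h1] at e0 e1 e2
    have hy' := hsum y hyP
    have hyk : d y * eps y σ0 + d (tr τ y) * eps y σ0 + d (tr τ (tr τ y)) * eps y σ0 = 0 := by
      rw [← add_mul, ← add_mul, hy', zero_mul]
    obtain ⟨m0, m1, m2⟩ := circ3 (m0 := d x) (m1 := d (tr τ x)) (m2 := d (tr τ (tr τ x)))
      (eps_cases x σ0) (eps_cases (tr τ x) σ0) (eps_cases (tr τ (tr τ x)) σ0) hu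
      (by linarith) (by linarith) (by linarith)
    apply hd0
    refine hd.eq_zero_of_six y (tr τ y) (tr τ (tr τ y)) fun S hS => ?_
    obtain ⟨hSP, hSm⟩ := hsupp S hS
    obtain ⟨i, hi⟩ := hc.cover hP hcompl hcard hSP
    fin_cases i
    · exfalso
      rcases hi with hi | hi
      · exact hS (by rw [hi]; exact m0)
      · exact hS (by rw [hi, hd.odd]; exact neg_eq_zero.2 m0)
    · exfalso
      rcases hi with hi | hi
      · exact hS (by rw [hi]; exact m1)
      · exact hS (by rw [hi, hd.odd]; exact neg_eq_zero.2 m1)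
    · exfalso
      rcases hi with hi | hi
      · exact hS (by rw [hi]; exact m2)
      · exact hS (by rw [hi, hd.odd]; exact neg_eq_zero.2 m2)
    · rcases hi with hi | hi
      · exact Or.inl hi
      · exact Or.inr (Or.inl hi)
    · rcases hi with hi | hi
      · exact Or.inr (Or.inr (Or.inl hi))
      · exact Or.inr (Or.inr (Or.inr (Or.inl hi)))
    · rcases hi with hi | hi
      · exact Or.inr (Or.inr (Or.inr (Or.inr (Or.inl hi))))
      · exact Or.inr (Or.inr (Or.inr (Or.inr (Or.inr hi))))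
  have hap := hc.apart
  have hy1P : tr τ y ∈ P := hP _ _ hyP
  have hy2P : tr τ (tr τ y) ∈ P := hP _ _ hy1P
  have hy1m : tr τ (tr τ y) ≠ tr τ y := fun h => hym (tr_injective τ h)
  have hy2m : tr τ (tr τ (tr τ y)) ≠ tr τ (tr τ y) := fun h => hy1m (tr_injective τ h)
  have c1 : Conf P τ x (tr τ y) := ⟨hx, hy1P, h3 x hx, h3 _ hy1P, hxm, hy1m,
    hap 4 0 (by decide), hap 4 1 (by decide), hap 4 2 (by decide)⟩
  have c2 : Conf P τ x (tr τ (tr τ y)) := ⟨hx, hy2P, h3 x hx, h3 _ hy2P, hxm, hy2m,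
    hap 5 0 (by decide), hap 5 1 (by decide), hap 5 2 (by decide)⟩
  have ccompl : ∀ z, Conf P τ x z → Conf P τ x zᶜ := by
    intro z hz
    refine ⟨hx, hcompl _ hz.hy, h3 x hx, h3 _ (hcompl _ hz.hy), hxm, ?_, hz.h0.compl, hz.h1.compl,
      hz.h2.compl⟩
    intro h
    exact hz.hym (compl_injective h)
  have hs := hsum x hx
  have hfin : ∀ z, Conf P τ x z → eps z σ0 = eps x σ0 → eps (tr τ z) σ0 = eps (tr τ x) σ0 →
      eps (tr τ (tr τ z)) σ0 = eps (tr τ (tr τ x)) σ0 → False :=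
    fun z hz k0 k1 k2 => conf_absurd hz hP hcompl hcard hd hd0 hs σ0 hu k0 k1 k2
  have hy3 := h3 y hyP
  rcases match3 (eps_cases x σ0) (eps_cases (tr τ x) σ0) (eps_cases (tr τ (tr τ x)) σ0) hu
    (eps_cases y σ0) (eps_cases (tr τ y) σ0) (eps_cases (tr τ (tr τ y)) σ0) hv with
    ⟨k0, k1, k2⟩ | ⟨k0, k1, k2⟩ | ⟨k0, k1, k2⟩ | ⟨k0, k1, k2⟩ | ⟨k0, k1, k2⟩ | ⟨k0, k1, k2⟩
  · exact hfin y hc k0 k1 k2
  · exact hfin _ c1 k0 k1 (by rw [hy3]; exact k2)
  · exact hfin _ c2 k0 (by rw [hy3]; exact k1) (by rw [hy3]; exact k2)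
  · exact hfin _ (ccompl _ hc) (by rw [eps_compl]; exact k0) (by rw [tr_compl, eps_compl]; exact k1)
      (by rw [tr_compl, tr_compl, eps_compl]; exact k2)
  · exact hfin _ (ccompl _ c1) (by rw [eps_compl]; exact k0) (by rw [tr_compl, eps_compl]; exact k1)
      (by rw [tr_compl, tr_compl, eps_compl, hy3]; exact k2)
  · exact hfin _ (ccompl _ c2) (by rw [eps_compl]; exact k0)
      (by rw [tr_compl, eps_compl, hy3]; exact k1)
      (by rw [tr_compl, tr_compl, eps_compl, hy3]; exact k2)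

/-- From the vanishing of relations with a zero. -/
theorem rankOne_of_zero (h : ∀ a, IsRel P a → ∀ S ∈ P, a S = 0 → a = 0) : RankOne P := by
  intro a b ha hb hne
  obtain ⟨S, hS⟩ := Function.ne_iff.1 hne
  have hSP : S ∈ P := by
    by_contra h'
    exact hS (ha.supp S h')
  refine ⟨b S / a S, ?_⟩
  have h1 : b - (b S / a S) • a = 0 := by
    refine h _ (hb.sub (ha.smul _)) S hSP ?_
    have h2 : a S ≠ 0 := hS
    simp only [Pi.sub_apply, Pi.smul_apply, smul_eq_mul]
    field_simp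
    ring
  exact sub_eq_zero.1 h1

theorem rankOne_twelve (hP : Stable P) (hcompl : ∀ S ∈ P, Sᶜ ∈ P) (hT : Trans P)
    (hcard : P.ncard = 12) : RankOne P := by
  classical
  have hne : P.Nonempty := by
    rw [Set.nonempty_iff_ne_empty]
    rintro rfl
    rw [Set.ncard_empty] at hcard
    omega
  obtain ⟨τ, h3, x, hx, hxm⟩ := exists_order hP hT hne Nat.prime_three
    (by rw [hcard]; norm_num)
  have h3' : ∀ S ∈ P, tr τ (tr τ (tr τ S)) = S := by
    intro S hS
    rw [tr_tr, tr_tr]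
    have h := h3 S hS
    rwa [pow_succ, pow_two] at h
  refine rankOne_of_zero fun a ha S hS h0 => ?_
  obtain ⟨g, hg⟩ := hT x hx S hS
  have hb := ha.tr hP g
  have hinv := inv12 hP hcompl hcard h3' hx hxm hb
  have hb0 : a (tr g x) = 0 := by rw [hg, h0]
  have hbz : (fun S => a (tr g S)) = 0 := by
    refine hb.eq_zero_of_card ?_
    obtain ⟨a1, a2⟩ := moved (h3' x hx) hxm
    have a3 := a1.tr τ
    let F : Finset (Set G) := {x, xᶜ, tr τ x, (tr τ x)ᶜ, tr τ (tr τ x), (tr τ (tr τ x))ᶜ}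
    have hF : F.card = 6 := by
      have e1 : x ≠ xᶜ := Comb.ne_compl x
      have e2 : tr τ x ≠ (tr τ x)ᶜ := Comb.ne_compl _
      have e3 : tr τ (tr τ x) ≠ (tr τ (tr τ x))ᶜ := Comb.ne_compl _
      have f1 : xᶜ ≠ tr τ x := fun h => a1.2 (by rw [← h, compl_compl])
      have f2 : xᶜ ≠ (tr τ x)ᶜ := fun h => a1.1 (compl_injective h)
      have f3 : xᶜ ≠ tr τ (tr τ x) := fun h => a2.2 (by rw [← h, compl_compl])
      have f4 : xᶜ ≠ (tr τ (tr τ x))ᶜ := fun h => a2.1 (compl_injective h)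
      have f5 : (tr τ x)ᶜ ≠ tr τ (tr τ x) := fun h => a3.2 (by rw [← h, compl_compl])
      have f6 : (tr τ x)ᶜ ≠ (tr τ (tr τ x))ᶜ := fun h => a3.1 (compl_injective h)
      have a11 := a1.1
      have a12 := a1.2
      have a21 := a2.1
      have a22 := a2.2
      have a31 := a3.1
      have a32 := a3.2
      change ({x, xᶜ, tr τ x, (tr τ x)ᶜ, tr τ (tr τ x), (tr τ (tr τ x))ᶜ} :
        Finset (Set G)).card = 6
      rw [Finset.card_insert_of_notMem, Finset.card_insert_of_notMem,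
        Finset.card_insert_of_notMem, Finset.card_insert_of_notMem, Finset.card_insert_of_notMem,
        Finset.card_singleton] <;>
      · simp only [Finset.mem_insert, Finset.mem_singleton]
        tauto
    have hsub : {S | (fun S => a (tr g S)) S ≠ 0} ⊆ P \ (F : Set (Set G)) := by
      intro S hS
      refine ⟨by_contra fun h => hS (hb.supp S h), fun hSF => hS ?_⟩
      have i0 := hinv x
      have i1 := hinv (tr τ x)
      have o0 := hb.odd x
      have o1 := hb.odd (tr τ x)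
      have o2 := hb.odd (tr τ (tr τ x))
      have hmem : S = x ∨ S = xᶜ ∨ S = tr τ x ∨ S = (tr τ x)ᶜ ∨ S = tr τ (tr τ x) ∨
          S = (tr τ (tr τ x))ᶜ := by
        have h := Finset.mem_coe.1 hSF
        change S ∈ ({x, xᶜ, tr τ x, (tr τ x)ᶜ, tr τ (tr τ x), (tr τ (tr τ x))ᶜ} :
          Finset (Set G)) at h
        simpa only [Finset.mem_insert, Finset.mem_singleton] using h
      change a (tr g S) = 0
      rcases hmem with h | h | h | h | h | h
      · rw [h]
        exact hb0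
      · rw [h]
        exact o0.trans (by rw [hb0, neg_zero])
      · rw [h]
        exact i0.trans hb0
      · rw [h]
        exact o1.trans (by rw [neg_eq_zero]; exact i0.trans hb0)
      · rw [h]
        exact i1.trans (i0.trans hb0)
      · rw [h]
        exact o2.trans (by rw [neg_eq_zero]; exact i1.trans (i0.trans hb0))
    have hFP : (F : Set (Set G)) ⊆ P := by
      intro S hS
      have h := Finset.mem_coe.1 hS
      change S ∈ ({x, xᶜ, tr τ x, (tr τ x)ᶜ, tr τ (tr τ x), (tr τ (tr τ x))ᶜ} :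
          Finset (Set G)) at h
      simp only [Finset.mem_insert, Finset.mem_singleton] at h
      rcases h with h | h | h | h | h | h <;> rw [h]
      · exact hx
      · exact hcompl _ hx
      · exact hP _ _ hx
      · exact hcompl _ (hP _ _ hx)
      · exact hP _ _ (hP _ _ hx)
      · exact hcompl _ (hP _ _ (hP _ _ hx))
    have h1 := Set.ncard_le_ncard hsub (Set.toFinite _)
    rw [Set.ncard_sdiff hFP (Set.toFinite _), hcard, Set.ncard_coe_finset, hF] at h1
    exact h1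
  funext S
  have h1 : a (tr g (tr g⁻¹ S)) = 0 := congrFun hbz (tr g⁻¹ S)
  rw [tr_tr_inv] at h1
  exact h1

end

end Pool.Agent.W547.LD.Comb
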