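import Pool.Agent.W547.LD.Five

/-!
# Relations between the half systems of one orbit with twelve elements
-/

set_option linter.unusedSectionVars false
set_option linter.unusedVariables false

namespace Pool.Agent.W547.LD.Comb

open Finset

noncomputable section

section arith

theorem circ3 {u0 u1 u2 m0 m1 m2 : ℚ} (h0 : u0 = 1 ∨ u0 = -1) (h1 : u1 = 1 ∨ u1 = -1)
    (h2 : u2 = 1 ∨ u2 = -1) (hne : ¬ (u0 = u1 ∧ u1 = u2)) (e0 : m0 * u0 + m1 * u1 + m2 * u2 = 0)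
    (e1 : m0 * u1 + m1 * u2 + m2 * u0 = 0) (e2 : m0 * u2 + m1 * u0 + m2 * u1 = 0) :
    m0 = 0 ∧ m1 = 0 ∧ m2 = 0 := by
  rcases h0 with rfl | rfl <;> rcases h1 with rfl | rfl <;> rcases h2 with rfl | rfl <;>
  first
  | (exfalso; exact hne ⟨rfl, rfl⟩)
  | (refine ⟨?_, ?_, ?_⟩ <;> linarith)

theorem match3 {u0 u1 u2 v0 v1 v2 : ℚ} (h0 : u0 = 1 ∨ u0 = -1) (h1 : u1 = 1 ∨ u1 = -1)
    (h2 : u2 = 1 ∨ u2 = -1) (hne : ¬ (u0 = u1 ∧ u1 = u2)) (k0 : v0 = 1 ∨ v0 = -1)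
    (k1 : v1 = 1 ∨ v1 = -1) (k2 : v2 = 1 ∨ v2 = -1) (hne' : ¬ (v0 = v1 ∧ v1 = v2)) :
    (v0 = u0 ∧ v1 = u1 ∧ v2 = u2) ∨ (v1 = u0 ∧ v2 = u1 ∧ v0 = u2) ∨ (v2 = u0 ∧ v0 = u1 ∧ v1 = u2) ∨
    (-v0 = u0 ∧ -v1 = u1 ∧ -v2 = u2) ∨ (-v1 = u0 ∧ -v2 = u1 ∧ -v0 = u2) ∨
    (-v2 = u0 ∧ -v0 = u1 ∧ -v1 = u2) := by
  rcases h0 with rfl | rfl <;> rcases h1 with rfl | rfl <;> rcases h2 with rfl | rfl <;>
  rcases k0 with rfl | rfl <;> rcases k1 with rfl | rfl <;> rcases k2 with rfl | rfl <;>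
  first
  | (exfalso; exact hne ⟨rfl, rfl⟩)
  | (exfalso; exact hne' ⟨rfl, rfl⟩)
  | norm_num

theorem const3 {d0 d1 d2 g0 g1 g2 : ℚ} (hs : d0 + d1 + d2 = 0) (hne : ¬ (d0 = 0 ∧ d1 = 0))
    (e0 : d0 * g0 + d1 * g1 + d2 * g2 = 0) (e1 : d0 * g1 + d1 * g2 + d2 * g0 = 0) :
    g1 = g0 ∧ g2 = g0 := by
  have hq : 0 < d0 ^ 2 + d0 * d1 + d1 ^ 2 := by
    by_contra h
    push Not at h
    apply hne
    have h1 : d0 ^ 2 ≤ 0 := by nlinarith [sq_nonneg (d0 + 2 * d1), sq_nonneg (2 * d0 + d1)]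
    have h2 : d1 ^ 2 ≤ 0 := by nlinarith [sq_nonneg (d0 + 2 * d1), sq_nonneg (2 * d0 + d1)]
    exact ⟨pow_eq_zero_iff (two_ne_zero) |>.1 (le_antisymm h1 (sq_nonneg _)),
      pow_eq_zero_iff (two_ne_zero) |>.1 (le_antisymm h2 (sq_nonneg _))⟩
  have hd2 : d2 = -d0 - d1 := by linarith
  subst hd2
  have hA : (g0 - g2) * (d0 ^ 2 + d0 * d1 + d1 ^ 2) = 0 := by
    linear_combination d0 * e0 - d1 * e1
  have hB : (g1 - g2) * (d0 ^ 2 + d0 * d1 + d1 ^ 2) = 0 := by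
    linear_combination d0 * e1 + (d0 + d1) * e0
  have hA' := (mul_eq_zero.1 hA).resolve_right hq.ne'
  have hB' := (mul_eq_zero.1 hB).resolve_right hq.ne'
  constructor <;> linarith

end arith

variable {G : Type} [Group G] [Fintype G] {P : Set (Set G)} {a b : Set G → ℚ}

/-- Right translation acts transitively on `P`. -/
def Trans (P : Set (Set G)) : Prop := ∀ S ∈ P, ∀ T ∈ P, ∃ g : G, tr g S = T

/-- The action on `P`. -/
def act (hP : Stable P) : G →* Equiv.Perm P where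
  toFun g := ⟨fun S => ⟨tr g S.1, hP g S.1 S.2⟩, fun S => ⟨tr g⁻¹ S.1, hP g⁻¹ S.1 S.2⟩,
    fun S => Subtype.ext (tr_inv_tr g S.1), fun S => Subtype.ext (tr_tr_inv g S.1)⟩
  map_one' := Equiv.ext fun S => Subtype.ext (tr_one S.1)
  map_mul' g h := Equiv.ext fun S => Subtype.ext (tr_tr g h S.1).symm

theorem act_apply (hP : Stable P) (g : G) (S : P) : ((act hP g) S : Set G) = tr g S.1 := rfl

/-- Elements of prime order. -/
theorem exists_order (hP : Stable P) (hT : Trans P) (hne : P.Nonempty) {p : ℕ} (hp : p.Prime)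
    (hdvd : p ∣ P.ncard) :
    ∃ τ : G, (∀ S ∈ P, tr (τ ^ p) S = S) ∧ ∃ S ∈ P, tr τ S ≠ S := by
  classical
  have := Fact.mk hp
  obtain ⟨x, hx⟩ := hne
  let H := (act hP).range
  have horb : MulAction.orbit H (⟨x, hx⟩ : P) = Set.univ := by
    rw [Set.eq_univ_iff_forall]
    rintro ⟨T, hT'⟩
    obtain ⟨g, hg⟩ := hT x hx T hT'
    exact ⟨⟨act hP g, g, rfl⟩, Subtype.ext hg⟩
  have hcard := MulAction.card_orbit_mul_card_stabilizer_eq_card_group H (⟨x, hx⟩ : P)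
  have h1 : Fintype.card (MulAction.orbit H (⟨x, hx⟩ : P)) = P.ncard := by
    rw [← Nat.card_eq_fintype_card, horb, Nat.card_univ]
    rfl
  rw [h1] at hcard
  have h2 : p ∣ Nat.card H := by
    rw [Nat.card_eq_fintype_card, ← hcard]
    exact hdvd.mul_right _
  obtain ⟨⟨y, g, hg⟩, hy⟩ := exists_prime_orderOf_dvd_card' p h2
  refine ⟨g, ?_, ?_⟩
  · intro S hS
    have h3 : (⟨y, g, hg⟩ : H) ^ p = 1 := by rw [← hy, pow_orderOf_eq_one]
    have h4 : y ^ p = 1 := congrArg Subtype.val h3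
    rw [← hg, ← map_pow] at h4
    have h5 := congrArg (fun e : Equiv.Perm P => ((e ⟨S, hS⟩ : P) : Set G)) h4
    exact h5
  · by_contra hcon
    push Not at hcon
    have h3 : (⟨y, g, hg⟩ : H) = 1 := by
      refine Subtype.ext ?_
      change y = 1
      rw [← hg]
      exact Equiv.ext fun S => Subtype.ext (hcon S.1 S.2)
    rw [h3, orderOf_one] at hy
    exact hp.one_lt.ne hy

/-- Different and not complementary. -/
def Apart (S T : Set G) : Prop := S ≠ T ∧ S ≠ Tᶜ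

theorem Apart.symm {S T : Set G} (h : Apart S T) : Apart T S :=
  ⟨h.1.symm, fun h' => h.2 (by rw [h', compl_compl])⟩

theorem Apart.tr {S T : Set G} (h : Apart S T) (τ : G) : Apart (tr τ S) (tr τ T) :=
  ⟨fun h' => h.1 (tr_injective τ h'), fun h' => h.2 (tr_injective τ h')⟩

theorem moved {τ : G} {z : Set G} (h3 : tr τ (tr τ (tr τ z)) = z) (hz : tr τ z ≠ z) :
    Apart z (tr τ z) ∧ Apart z (tr τ (tr τ z)) := by
  have h1 : z ≠ tr τ (tr τ z) := by
    intro h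
    apply hz
    conv_rhs => rw [← h3, ← h]
  have h2 : z ≠ (tr τ z)ᶜ := by
    intro h
    have h4 : tr τ z = (tr τ (tr τ z))ᶜ := by
      conv_lhs => rw [h]
      rfl
    apply h1
    rw [h4, compl_compl] at h
    exact h
  refine ⟨⟨hz.symm, h2⟩, h1, fun h => ?_⟩
  have h4 : tr τ z = zᶜ := by
    conv_lhs => rw [h]
    rw [tr_compl, h3]
  exact h2 (by rw [h4, compl_compl])

/-- Six half systems, two orbits under `τ`. -/
structure Conf (P : Set (Set G)) (τ : G) (x y : Set G) : Prop where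
  hx : x ∈ P
  hy : y ∈ P
  hx3 : tr τ (tr τ (tr τ x)) = x
  hy3 : tr τ (tr τ (tr τ y)) = y
  hxm : tr τ x ≠ x
  hym : tr τ y ≠ y
  h0 : Apart y x
  h1 : Apart y (tr τ x)
  h2 : Apart y (tr τ (tr τ x))

theorem ext6 {x0 x1 x2 y0 y1 y2 : Set G} (h01 : Apart x0 x1) (h02 : Apart x0 x2)
    (h12 : Apart x1 x2) (k01 : Apart y0 y1) (k02 : Apart y0 y2)
    (k12 : Apart y1 y2) (m00 : Apart y0 x0) (m01 : Apart y0 x1) (m02 : Apart y0 x2)
    (m10 : Apart y1 x0) (m11 : Apart y1 x1) (m12 : Apart y1 x2) (m20 : Apart y2 x0)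
    (m21 : Apart y2 x1) (m22 : Apart y2 x2) :
    ∀ i k : Fin 6, i ≠ k → Apart (![x0, x1, x2, y0, y1, y2] i) (![x0, x1, x2, y0, y1, y2] k) := by
  intro i k hik
  fin_cases i <;> fin_cases k <;>
  first
  | (exfalso; exact hik rfl)
  | exact h01 | exact h01.symm | exact h02 | exact h02.symm | exact h12 | exact h12.symm
  | exact k01 | exact k01.symm | exact k02 | exact k02.symm | exact k12 | exact k12.symm
  | exact m00 | exact m00.symm | exact m01 | exact m01.symm | exact m02 | exact m02.symm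
  | exact m10 | exact m10.symm | exact m11 | exact m11.symm | exact m12 | exact m12.symm
  | exact m20 | exact m20.symm | exact m21 | exact m21.symm | exact m22 | exact m22.symm

/-- The six representatives. -/
def reps (τ : G) (x y : Set G) : Fin 6 → Set G :=
  ![x, tr τ x, tr τ (tr τ x), y, tr τ y, tr τ (tr τ y)]

theorem Conf.apart {τ : G} {x y : Set G} (h : Conf P τ x y) :
    ∀ i k : Fin 6, i ≠ k → Apart (reps τ x y i) (reps τ x y k) := by
  obtain ⟨a1, a2⟩ := moved h.hx3 h.hxm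
  obtain ⟨b1, b2⟩ := moved h.hy3 h.hym
  have c0 := h.h0.tr τ
  have c1 := h.h1.tr τ
  have c2 := h.h2.tr τ
  rw [h.hx3] at c2
  have d0 := c0.tr τ
  have d1 := c1.tr τ
  have d2 := c2.tr τ
  rw [h.hx3] at d1
  exact ext6 a1 a2 (a1.tr τ) b1 b2 (b1.tr τ) h.h0 h.h1 h.h2 c2 c0 c1 d1 d2 d0

theorem Conf.injective {τ : G} {x y : Set G} (h : Conf P τ x y) :
    Function.Injective (reps τ x y) := by
  intro i k hik
  by_contra hne
  exact (h.apart i k hne).1 hik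

theorem Conf.ne_compl {τ : G} {x y : Set G} (h : Conf P τ x y) (i k : Fin 6) :
    reps τ x y i ≠ (reps τ x y k)ᶜ := by
  by_cases hik : i = k
  · rw [hik]
    exact Comb.ne_compl _
  · exact (h.apart i k hik).2

theorem Conf.mem {τ : G} {x y : Set G} (h : Conf P τ x y) (hP : Stable P) (i : Fin 6) :
    reps τ x y i ∈ P := by
  fin_cases i
  · exact h.hx
  · exact hP _ _ h.hx
  · exact hP _ _ (hP _ _ h.hx)
  · exact h.hy
  · exact hP _ _ h.hy
  · exact hP _ _ (hP _ _ h.hy)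

theorem Conf.cover {τ : G} {x y : Set G} (h : Conf P τ x y) (hP : Stable P)
    (hcompl : ∀ S ∈ P, Sᶜ ∈ P) (hcard : P.ncard = 12) {S : Set G} (hS : S ∈ P) :
    ∃ i, S = reps τ x y i ∨ S = (reps τ x y i)ᶜ := by
  classical
  have h1 : Function.Injective (Sum.elim (reps τ x y) (fun i => (reps τ x y i)ᶜ)) := by
    rintro (i | i) (k | k) h'
    · exact congrArg Sum.inl (h.injective h')
    · exact absurd h' (h.ne_compl i k)
    · exact absurd h'.symm (h.ne_compl k i)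
    · exact congrArg Sum.inr (h.injective (compl_injective h'))
  have h2 : Set.range (Sum.elim (reps τ x y) (fun i => (reps τ x y i)ᶜ)) = P := by
    refine Set.eq_of_subset_of_ncard_le ?_ ?_ (Set.toFinite _)
    · rintro _ ⟨i | i, rfl⟩
      · exact h.mem hP i
      · exact hcompl _ (h.mem hP i)
    · rw [Set.ncard_range_of_injective h1, hcard, Nat.card_sum, Nat.card_eq_fintype_card,
        Fintype.card_fin]
  rw [← h2] at hS
  obtain ⟨i | i, hi⟩ := hS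
  · exact ⟨i, Or.inl hi.symm⟩
  · exact ⟨i, Or.inr hi.symm⟩

/-- The relation at one element. -/
theorem Conf.eq0 {τ : G} {x y : Set G} (h : Conf P τ x y) (hP : Stable P)
    (hcompl : ∀ S ∈ P, Sᶜ ∈ P) (hcard : P.ncard = 12) (ha : IsRel P a) (σ : G) :
    a x * eps x σ + a (tr τ x) * eps (tr τ x) σ + a (tr τ (tr τ x)) * eps (tr τ (tr τ x)) σ +
      a y * eps y σ + a (tr τ y) * eps (tr τ y) σ + a (tr τ (tr τ y)) * eps (tr τ (tr τ y)) σ =
        0 := by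
  have h1 := ha.rep (reps τ x y) h.injective h.ne_compl (fun S hS => h.cover hP hcompl hcard (by
    by_contra h'
    exact hS (ha.supp S h'))) σ
  rw [Fin.sum_univ_six] at h1
  exact h1

theorem Conf.eqs {τ : G} {x y : Set G} (h : Conf P τ x y) (hP : Stable P)
    (hcompl : ∀ S ∈ P, Sᶜ ∈ P) (hcard : P.ncard = 12) (ha : IsRel P a) (σ : G) :
    (a x * eps x σ + a (tr τ x) * eps (tr τ x) σ + a (tr τ (tr τ x)) * eps (tr τ (tr τ x)) σ +
      a y * eps y σ + a (tr τ y) * eps (tr τ y) σ + a (tr τ (tr τ y)) * eps (tr τ (tr τ y)) σ =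
        0) ∧
    (a x * eps (tr τ x) σ + a (tr τ x) * eps (tr τ (tr τ x)) σ + a (tr τ (tr τ x)) * eps x σ +
      a y * eps (tr τ y) σ + a (tr τ y) * eps (tr τ (tr τ y)) σ + a (tr τ (tr τ y)) * eps y σ =
        0) ∧
    (a x * eps (tr τ (tr τ x)) σ + a (tr τ x) * eps x σ + a (tr τ (tr τ x)) * eps (tr τ x) σ +
      a y * eps (tr τ (tr τ y)) σ + a (tr τ y) * eps y σ + a (tr τ (tr τ y)) * eps (tr τ y) σ =
        0) := by
  have key : ∀ (S : Set G) (σ : G), eps S (σ * τ) = eps (tr τ S) σ := fun _ _ => rfl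
  have e0 := h.eq0 hP hcompl hcard ha σ
  have e1 := h.eq0 hP hcompl hcard ha (σ * τ)
  have e2 := h.eq0 hP hcompl hcard ha (σ * τ * τ)
  simp only [key, h.hx3, h.hy3] at e1 e2
  exact ⟨e0, e1, e2⟩

end

end Pool.Agent.W547.LD.Comb
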