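import Pool.Agent.W547.LD.Twelve

/-!
# Relations between the half systems of one orbit with twelve elements: the main argument
-/

set_option linter.unusedSectionVars false
set_option linter.unusedVariables false

namespace Pool.Agent.W547.LD.Comb

open Finset

noncomputable section

variable {G : Type} [Group G] [Fintype G] {P : Set (Set G)} {a b : Set G → ℚ}

theorem Apart.compl {S T : Set G} (h : Apart S T) : Apart Sᶜ T :=
  ⟨fun h' => h.2 (by rw [← h', compl_compl]), fun h' => h.1 (compl_injective h')⟩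

theorem ncard_six (x0 x1 x2 : Set G) :
    ({x0, x0ᶜ, x1, x1ᶜ, x2, x2ᶜ} : Set (Set G)).ncard ≤ 6 := by
  classical
  have h : ({x0, x0ᶜ, x1, x1ᶜ, x2, x2ᶜ} : Set (Set G)) =
      (({x0, x0ᶜ, x1, x1ᶜ, x2, x2ᶜ} : Finset (Set G)) : Set (Set G)) := by
    push_cast
    rfl
  rw [h, Set.ncard_coe_finset]
  exact Finset.card_le_six

theorem IsRel.eq_zero_of_six (ha : IsRel P a) (x0 x1 x2 : Set G)
    (h : ∀ S, a S ≠ 0 → S = x0 ∨ S = x0ᶜ ∨ S = x1 ∨ S = x1ᶜ ∨ S = x2 ∨ S = x2ᶜ) : a = 0 := by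
  refine ha.eq_zero_of_card (le_trans (Set.ncard_le_ncard ?_ (Set.toFinite _))
    (ncard_six x0 x1 x2))
  intro S hS
  exact h S hS

set_option maxHeartbeats 4000000 in
/-- The function is the same at all three places. -/
theorem conf_absurd {τ : G} {x y : Set G} (hc : Conf P τ x y) (hP : Stable P)
    (hcompl : ∀ S ∈ P, Sᶜ ∈ P) (hcard : P.ncard = 12) {d : Set G → ℚ} (hd : IsRel P d) (hd0 : d ≠ 0)
    (hs : d x + d (tr τ x) + d (tr τ (tr τ x)) = 0) (σ0 : G)
    (hu : ¬ (eps x σ0 = eps (tr τ x) σ0 ∧ eps (tr τ x) σ0 = eps (tr τ (tr τ x)) σ0))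
    (hv0 : eps y σ0 = eps x σ0) (hv1 : eps (tr τ y) σ0 = eps (tr τ x) σ0)
    (hv2 : eps (tr τ (tr τ y)) σ0 = eps (tr τ (tr τ x)) σ0) : False := by
  -- all relations are antisymmetric
  have hE : ∀ b : Set G → ℚ, IsRel P b → b x = -b y ∧ b (tr τ x) = -b (tr τ y) ∧
      b (tr τ (tr τ x)) = -b (tr τ (tr τ y)) := by
    intro b hb
    obtain ⟨e0, e1, e2⟩ := hc.eqs hP hcompl hcard hb σ0
    rw [hv0, hv1, hv2] at e0 e1 e2
    obtain ⟨m0, m1, m2⟩ := circ3 (m0 := b x + b y) (m1 := b (tr τ x) + b (tr τ y))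
      (m2 := b (tr τ (tr τ x)) + b (tr τ (tr τ y))) (eps_cases x σ0) (eps_cases (tr τ x) σ0)
      (eps_cases (tr τ (tr τ x)) σ0) hu (by linarith) (by linarith) (by linarith)
    refine ⟨?_, ?_, ?_⟩ <;> linarith
  obtain ⟨D0, D1, D2⟩ := hE d hd
  have hD : ¬ (d x = 0 ∧ d (tr τ x) = 0) := by
    rintro ⟨h0, h1⟩
    apply hd0
    refine hd.eq_zero_of_six x x x fun S hS => ?_
    exfalso
    have hSP : S ∈ P := by
      by_contra h
      exact hS (hd.supp S h)
    obtain ⟨i, hi⟩ := hc.cover hP hcompl hcard hSP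
    have h2 : d (reps τ x y i) = 0 := by
      fin_cases i
      · exact h0
      · exact h1
      · change d (tr τ (tr τ x)) = 0
        linarith
      · change d y = 0
        linarith
      · change d (tr τ y) = 0
        linarith
      · change d (tr τ (tr τ y)) = 0
        linarith
    rcases hi with hi | hi
    · exact hS (by rw [hi, h2])
    · exact hS (by rw [hi, hd.odd, h2, neg_zero])
  -- the difference is the same at all places
  have hh : ∀ σ, eps (tr τ x) σ - eps (tr τ y) σ = eps x σ - eps y σ ∧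
      eps (tr τ (tr τ x)) σ - eps (tr τ (tr τ y)) σ = eps x σ - eps y σ := by
    intro σ
    obtain ⟨e0, e1, e2⟩ := hc.eqs hP hcompl hcard hd σ
    refine const3 hs hD ?_ ?_
    · rw [D0, D1, D2] at e0 ⊢
      linarith
    · rw [D0, D1, D2] at e1 ⊢
      linarith
  -- invariance
  have key : ∀ g σ, |eps (tr g x) σ - eps (tr g y) σ| = |eps x σ - eps y σ| := by
    intro g σ
    have hA : Apart (tr g x) (tr g y) := (hc.h0.symm).tr g
    have hzP : tr g x ∈ P := hP _ _ hc.hx
    have hwP : tr g y ∈ P := hP _ _ hc.hy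
    have r0 := (hE _ (hd.tr hP g)).1
    have r1 := (hE _ ((hd.tr hP τ).tr hP g)).1
    have r2 := (hE _ (((hd.tr hP τ).tr hP τ).tr hP g)).1
    generalize tr g x = z at hA hzP r0 r1 r2 ⊢
    generalize tr g y = w at hA hwP r0 r1 r2 ⊢
    obtain ⟨hh1, hh2⟩ := hh σ
    have hx3 := hc.hx3
    have hy3 := hc.hy3
    obtain ⟨i, hi⟩ := hc.cover hP hcompl hcard hzP
    obtain ⟨k, hk⟩ := hc.cover hP hcompl hcard hwP
    have hi' : (z = x ∨ z = tr τ x ∨ z = tr τ (tr τ x) ∨ z = y ∨ z = tr τ y ∨ z = tr τ (tr τ y)) ∨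
        (z = xᶜ ∨ z = (tr τ x)ᶜ ∨ z = (tr τ (tr τ x))ᶜ ∨ z = yᶜ ∨ z = (tr τ y)ᶜ ∨
          z = (tr τ (tr τ y))ᶜ) := by
      rcases hi with hi | hi
      · left
        fin_cases i
        · exact Or.inl hi
        · exact Or.inr (Or.inl hi)
        · exact Or.inr (Or.inr (Or.inl hi))
        · exact Or.inr (Or.inr (Or.inr (Or.inl hi)))
        · exact Or.inr (Or.inr (Or.inr (Or.inr (Or.inl hi))))
        · exact Or.inr (Or.inr (Or.inr (Or.inr (Or.inr hi))))
      · right
        fin_cases i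
        · exact Or.inl hi
        · exact Or.inr (Or.inl hi)
        · exact Or.inr (Or.inr (Or.inl hi))
        · exact Or.inr (Or.inr (Or.inr (Or.inl hi)))
        · exact Or.inr (Or.inr (Or.inr (Or.inr (Or.inl hi))))
        · exact Or.inr (Or.inr (Or.inr (Or.inr (Or.inr hi))))
    have hk' : (w = x ∨ w = tr τ x ∨ w = tr τ (tr τ x) ∨ w = y ∨ w = tr τ y ∨ w = tr τ (tr τ y)) ∨
        (w = xᶜ ∨ w = (tr τ x)ᶜ ∨ w = (tr τ (tr τ x))ᶜ ∨ w = yᶜ ∨ w = (tr τ y)ᶜ ∨
          w = (tr τ (tr τ y))ᶜ) := by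
      rcases hk with hk | hk
      · left
        fin_cases k
        · exact Or.inl hk
        · exact Or.inr (Or.inl hk)
        · exact Or.inr (Or.inr (Or.inl hk))
        · exact Or.inr (Or.inr (Or.inr (Or.inl hk)))
        · exact Or.inr (Or.inr (Or.inr (Or.inr (Or.inl hk))))
        · exact Or.inr (Or.inr (Or.inr (Or.inr (Or.inr hk))))
      · right
        fin_cases k
        · exact Or.inl hk
        · exact Or.inr (Or.inl hk)
        · exact Or.inr (Or.inr (Or.inl hk))
        · exact Or.inr (Or.inr (Or.inr (Or.inl hk)))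
        · exact Or.inr (Or.inr (Or.inr (Or.inr (Or.inl hk))))
        · exact Or.inr (Or.inr (Or.inr (Or.inr (Or.inr hk))))
    clear hi hk i k hzP hwP
    have ho := hd.odd
    rcases hi' with (hz | hz | hz | hz | hz | hz) | (hz | hz | hz | hz | hz | hz) <;>
    rcases hk' with (hw | hw | hw | hw | hw | hw) | (hw | hw | hw | hw | hw | hw) <;>
    (rw [hz, hw] at r0 r1 r2 hA
     try simp only [tr_compl, hx3, hy3, ho] at r0 r1 r2
     try simp only [hz, hw, eps_compl]
     try first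
     | (exfalso; exact hD ⟨by linarith, by linarith⟩)
     | (exfalso; exact hA.2 rfl)
     | (exfalso; exact hA.2 (compl_compl _).symm)
     | (rw [abs_eq_abs]; left; linarith)
     | (rw [abs_eq_abs]; right; linarith))
  -- contradiction
  have key2 : ∀ g, |eps x g - eps y g| = |eps x 1 - eps y 1| := by
    intro g
    have h := key g 1
    rw [eps_tr, eps_tr, one_mul] at h
    exact h
  by_cases h1 : eps x 1 = eps y 1
  · obtain ⟨g, hg⟩ := exists_ne hc.h0.1
    have h := key2 g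
    rw [h1, sub_self, abs_zero, abs_eq_zero, sub_eq_zero] at h
    rw [h] at hg
    rcases eps_cases y g with h2 | h2 <;> rw [h2] at hg <;> norm_num at hg
  · obtain ⟨g, hg⟩ := exists_eq hc.h0.2
    have h := key2 g
    rw [hg, sub_self, abs_zero] at h
    exact h1 (sub_eq_zero.1 (abs_eq_zero.1 h.symm))

end

end Pool.Agent.W547.LD.Comb
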