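import Pool.Agent.W547.LD.Pull
import Pool.Agent.W547.LD.Field

/-!
# The Weil classes belonging to balanced families that are stable under a subgroup of index two
-/

set_option linter.unusedSectionVars false
set_option linter.unusedVariables false

namespace Pool.Agent.W547.LD

open NumberField Pool.Agent.H204R3.CM Pool.Agent.W547.KB Equiv Module

noncomputable section

variable {L : Type} [Field L] [NumberField L] [IsCMField L] [IsGalois ℚ L]

/-- `N` is a subgroup of index two that does not contain the complex conjugation. -/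
def IsImag (N : Subgroup (L ≃ₐ[ℚ] L)) : Prop := cc L ∉ N ∧ ∀ τ, τ ∉ N → cc L * τ ∈ N

theorem IsImag.mul_mem_iff {N : Subgroup (L ≃ₐ[ℚ] L)} (hN : IsImag N) (j : L →+* ℂ)
    (σ τ : L ≃ₐ[ℚ] L) : σ * τ ∈ N ↔ (σ ∈ N ↔ τ ∈ N) := by
  by_cases h1 : σ ∈ N
  · rw [N.mul_mem_cancel_left h1]
    tauto
  · by_cases h2 : τ ∈ N
    · rw [N.mul_mem_cancel_right h2]
      tauto
    · have h3 := N.mul_mem (hN.2 σ h1) (hN.2 τ h2)
      have h4 : cc L * σ * (cc L * τ) = σ * τ := by
        calc cc L * σ * (cc L * τ) = σ * (cc L * cc L) * τ := by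
              rw [cc_comm j σ]; group
          _ = σ * τ := by rw [cc_cc, mul_one]
      rw [h4] at h3
      tauto

open Classical in
/-- The quadratic character. -/
def sgn (N : Subgroup (L ≃ₐ[ℚ] L)) (τ : L ≃ₐ[ℚ] L) : L := if τ ∈ N then 1 else -1

theorem sgn_mul {N : Subgroup (L ≃ₐ[ℚ] L)} (hN : IsImag N) (j : L →+* ℂ) (σ τ : L ≃ₐ[ℚ] L) :
    sgn N (σ * τ) = sgn N σ * sgn N τ := by
  unfold sgn
  have h := hN.mul_mem_iff j σ τ
  by_cases h1 : σ ∈ N <;> by_cases h2 : τ ∈ N
  · rw [if_pos h1, if_pos h2, if_pos (by tauto), mul_one]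
  · rw [if_pos h1, if_neg h2, if_neg (by tauto), one_mul]
  · rw [if_neg h1, if_pos h2, if_neg (by tauto), mul_one]
  · rw [if_neg h1, if_neg h2, if_pos (by tauto)]
    ring

theorem exists_sum_ne (N : Subgroup (L ≃ₐ[ℚ] L)) : ∃ y : L, ∑ τ, sgn N τ * τ y ≠ 0 := by
  by_contra hcon
  push Not at hcon
  have h2 := linearIndependent_monoidHom L L
  have h3 : LinearIndependent L (fun σ : L ≃ₐ[ℚ] L => fun x : L => σ x) := by
    have h4 : Function.Injective (fun σ : L ≃ₐ[ℚ] L => ((σ : L →+* L) : L →* L)) := by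
      intro σ τ hh
      ext x
      exact DFunLike.congr_fun hh x
    exact h2.comp _ h4
  rw [Fintype.linearIndependent_iff] at h3
  have h4 := h3 (sgn N) (by
    funext x
    rw [Finset.sum_apply]
    exact hcon x) 1
  unfold sgn at h4
  rw [if_pos N.one_mem] at h4
  exact one_ne_zero h4

/-- A square root of a negative integer on which the group acts through the character. -/
theorem exists_sqrt (j : L →+* ℂ) {N : Subgroup (L ≃ₐ[ℚ] L)} (hN : IsImag N) :
    ∃ (δ : L) (d : ℕ), 0 < d ∧ δ * δ = -(d : L) ∧ ∀ τ ∈ N, τ δ = δ := by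
  obtain ⟨y, hy⟩ := exists_sum_ne N
  set δ0 : L := ∑ τ, sgn N τ * τ y with hδ0
  have hsgn : ∀ σ τ : L ≃ₐ[ℚ] L, σ (sgn N τ) = sgn N τ := by
    intro σ τ
    unfold sgn
    split_ifs
    · exact map_one σ
    · rw [map_neg, map_one]
  have hsq : ∀ σ, sgn N σ * sgn N σ = (1 : L) := by
    intro σ
    unfold sgn
    split_ifs <;> ring
  have h1 : ∀ σ : L ≃ₐ[ℚ] L, σ δ0 = sgn N σ * δ0 := by
    intro σ
    rw [hδ0, map_sum, Finset.mul_sum]
    refine Fintype.sum_equiv (Equiv.mulLeft σ) _ _ fun τ => ?_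
    rw [map_mul, hsgn, Equiv.coe_mulLeft, sgn_mul hN j, ← mul_assoc, ← mul_assoc, hsq, one_mul]
    rfl
  have h2 : δ0 * δ0 ∈ (⊥ : IntermediateField ℚ L) := by
    rw [IsGalois.mem_bot_iff_fixed]
    intro σ
    rw [map_mul, h1]
    calc sgn N σ * δ0 * (sgn N σ * δ0) = (sgn N σ * sgn N σ) * (δ0 * δ0) := by ring
      _ = δ0 * δ0 := by rw [hsq, one_mul]
  obtain ⟨q, hq⟩ := IntermediateField.mem_bot.1 h2
  have hq' : (q : L) = δ0 * δ0 := hq
  have hneg : q < 0 := by
    have h3 : starRingEnd ℂ (j δ0) = -(j δ0) := by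
      rw [← emb_cc, h1]
      unfold sgn
      rw [if_neg hN.1, neg_one_mul, map_neg]
    have h4 : (q : ℂ) = -((Complex.normSq (j δ0) : ℝ) : ℂ) := by
      rw [← Complex.mul_conj, h3, mul_neg, neg_neg, ← map_mul, ← hq', map_ratCast]
    have h5 : (q : ℝ) = -(Complex.normSq (j δ0)) := by exact_mod_cast h4
    have h6 : 0 < Complex.normSq (j δ0) := by
      rw [Complex.normSq_pos]
      intro h7
      exact hy (j.injective (by rw [h7, map_zero]))
    have h7 : (q : ℝ) < 0 := by rw [h5]; linarith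
    exact_mod_cast h7
  have hnum : q.num < 0 := Rat.num_neg.2 hneg
  refine ⟨(q.den : L) * δ0, q.den * q.num.natAbs, Nat.mul_pos q.den_pos (Int.natAbs_pos.2 hnum.ne),
    ?_, fun τ hτ => ?_⟩
  · have h3 : (q : L) * (q.den : L) = (q.num : L) := by
      have h4 := Rat.mul_den_eq_num q
      exact_mod_cast congrArg (fun r : ℚ => (r : L)) h4
    have h5 : ((q.num.natAbs : ℕ) : L) = -(q.num : L) := by
      have h6 : ((q.num.natAbs : ℕ) : ℤ) = -q.num := by omega
      have h7 := congrArg (fun r : ℤ => (r : L)) h6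
      simpa using h7
    calc (q.den : L) * δ0 * ((q.den : L) * δ0) = (q.den : L) * ((δ0 * δ0) * (q.den : L)) := by ring
      _ = (q.den : L) * (q.num : L) := by rw [← hq', h3]
      _ = -((q.den * q.num.natAbs : ℕ) : L) := by
          push_cast
          rw [h5]
          ring
  · rw [map_mul, map_natCast, h1]
    unfold sgn
    rw [if_pos hτ, one_mul]

/-- The index set: the orbits under `N` of finitely many half systems. -/
abbrev Orb {Q : Type} (N : Subgroup (L ≃ₐ[ℚ] L)) (x : Q → Set (L ≃ₐ[ℚ] L)) : Type :=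
  Σ q : Q, {S : Set (L ≃ₐ[ℚ] L) // ∃ τ ∈ N, tr τ (x q) = S}

section main

variable {Q : Type} [Fintype Q] (j : L →+* ℂ) (N : Subgroup (L ≃ₐ[ℚ] L))
  (x : Q → Set (L ≃ₐ[ℚ] L)) (hx : ∀ q, IsHalf (x q))

/-- The weights on which the imaginary quadratic field acts by one embedding. -/
def orbWt (k : Orb N x) : Wt (prodOf j x hx) L := wt j x hx k.1 k.2.2.choose

theorem St_orbWt (k : Orb N x) : St j (orbWt j N x hx k) = k.2.1 := by
  unfold orbWt
  rw [St_wt]
  exact k.2.2.choose_spec.2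

theorem orbWt_injective : Function.Injective (orbWt j N x hx) := by
  rintro ⟨q, S, hS⟩ ⟨q', S', hS'⟩ h
  have h1 : q = q' := wt_fst_eq j x hx h
  subst h1
  have h2 : S = S' := by
    have h3 := St_orbWt j N x hx ⟨q, S, hS⟩
    rw [h] at h3
    exact h3.symm.trans (St_orbWt j N x hx ⟨q, S', hS'⟩)
  subst h2
  rfl

instance : Finite (Orb N x) := by
  unfold Orb
  infer_instance

/-- All weights: those of the family and their conjugates. -/
def allWt (s : Orb N x ⊕ Orb N x) : Wt (prodOf j x hx) L :=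
  Sum.elim (fun k => wt j x hx k.1 k.2.2.choose) (fun k => wt j x hx k.1 (cc L * k.2.2.choose)) s

theorem allWt_bijective (hN : IsImag N) (hst : ∀ q, stab (x q) ≤ N) :
    Function.Bijective (allWt j N x hx) := by
  have hkey : ∀ (q : Q) (τ τ' : L ≃ₐ[ℚ] L), τ ∈ N → τ' ∈ N → tr τ (x q) ≠ tr (cc L * τ') (x q) := by
    intro q τ τ' hτ hτ' h
    have h1 : τ⁻¹ * (cc L * τ') ∈ stab (x q) := by
      rw [mem_stab, ← tr_tr, ← h, tr_inv_tr]
    have h2 := hst q h1
    rw [hN.mul_mem_iff j, hN.mul_mem_iff j, N.inv_mem_iff] at h2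
    have h3 := hN.1
    tauto
  constructor
  · rintro (⟨q, S, hS⟩ | ⟨q, S, hS⟩) (⟨q', S', hS'⟩ | ⟨q', S', hS'⟩) h
    · exact congrArg Sum.inl (orbWt_injective j N x hx h)
    · exfalso
      have h1 : q = q' := wt_fst_eq j x hx h
      subst h1
      exact hkey q _ _ hS.choose_spec.1 hS'.choose_spec.1 ((wt_eq_iff j x hx q _ _).1 h)
    · exfalso
      have h1 : q = q' := wt_fst_eq j x hx h
      subst h1
      exact hkey q _ _ hS'.choose_spec.1 hS.choose_spec.1 ((wt_eq_iff j x hx q _ _).1 h).symm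
    · have h1 : q = q' := wt_fst_eq j x hx h
      subst h1
      have h2 := (wt_eq_iff j x hx q _ _).1 h
      dsimp only at h2
      rw [← tr_tr, ← tr_tr] at h2
      have h3 := tr_injective _ h2
      rw [hS.choose_spec.2, hS'.choose_spec.2] at h3
      subst h3
      rfl
  · intro w
    obtain ⟨τ, hτ⟩ := exists_wt j x hx w
    rw [hτ]
    by_cases h : τ ∈ N
    · refine ⟨Sum.inl ⟨w.1, tr τ (x w.1), τ, h, rfl⟩, ?_⟩
      refine (wt_eq_iff j x hx _ _ _).2 ?_
      exact Exists.choose_spec (p := fun τ' => τ' ∈ N ∧ tr τ' (x w.1) = tr τ (x w.1)) ⟨τ, h, rfl⟩ |>.2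
    · have h1 := hN.2 τ h
      refine ⟨Sum.inr ⟨w.1, tr (cc L * τ) (x w.1), cc L * τ, h1, rfl⟩, ?_⟩
      refine (wt_eq_iff j x hx _ _ _).2 ?_
      have h2 := Exists.choose_spec
        (p := fun τ' => τ' ∈ N ∧ tr τ' (x w.1) = tr (cc L * τ) (x w.1)) ⟨cc L * τ, h1, rfl⟩ |>.2
      dsimp only
      rw [← tr_tr, h2, tr_tr, ← mul_assoc, cc_cc, one_mul]

theorem card_wt : Nat.card (Wt (prodOf j x hx) L) = finrank ℚ (prodOf j x hx).H1 := by
  classical
  have h1 : ∀ q, Fintype.card ((((prodOf j x hx).factor q).E) →+* ℂ) =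
      finrank ℚ ((prodOf j x hx).factor q).E := fun q => Embeddings.card _ ℂ
  have h2 : ∀ q, Function.Bijective
      (fun φ : (((prodOf j x hx).factor q).E) →+* L => j.comp φ) := by
    intro q
    constructor
    · intro φ φ' h
      ext a
      exact j.injective (RingHom.congr_fun h a)
    · intro ψ
      obtain ⟨τ, hτ⟩ := exists_embC j (x q) ψ
      exact ⟨emb (x q) τ, hτ.symm⟩
  have h3 : ∀ q, Nat.card ((((prodOf j x hx).factor q).E) →+* L) =
      finrank ℚ ((prodOf j x hx).factor q).E := by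
    intro q
    rw [Nat.card_eq_of_bijective _ (h2 q), Nat.card_eq_fintype_card, h1]
  have h4 : finrank ℚ (prodOf j x hx).H1 = ∑ q, finrank ℚ ((prodOf j x hx).factor q).E :=
    Module.finrank_pi_fintype ℚ
  rw [h4, Nat.card_sigma]
  exact Finset.sum_congr rfl fun q _ => h3 q

theorem finrank_prodOf (hN : IsImag N) (hst : ∀ q, stab (x q) ≤ N) :
    finrank ℚ (prodOf j x hx).H1 = 2 * Nat.card (Orb N x) := by
  rw [← card_wt, ← Nat.card_eq_of_bijective _ (allWt_bijective j N x hx hN hst), Nat.card_sum]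
  ring

/-- An element of the fixed field as an element of the field of the factor. -/
def elt (δ : L) (hδ : ∀ q, δ ∈ fld (x q)) (q : Q) : ((prodOf j x hx).factor q).E :=
  (show fld (x q) from ⟨δ, hδ q⟩)

/-- The multiplication by an element of `L` on the product. -/
def mulBy (δ : L) (hδ : ∀ q, δ ∈ fld (x q)) : (prodOf j x hx).H1 →ₗ[ℚ] (prodOf j x hx).H1 where
  toFun w := fun q => elt j x hx δ hδ q * w q
  map_add' w w' := by
    funext q
    exact mul_add _ _ _
  map_smul' a w := by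
    funext q
    exact mul_smul_comm a _ (w q)

theorem isHom_mulBy (δ : L) (hδ : ∀ q, δ ∈ fld (x q)) :
    IsHom (prodOf j x hx) (prodOf j x hx) (mulBy j x hx δ hδ) := by
  refine ⟨LinearMap.pi fun q => LinearMap.pi fun ψ =>
    (ψ.1 (elt j x hx δ hδ q)) •
      ((LinearMap.proj (R := ℂ) (φ := fun _ : ((prodOf j x hx).factor q).Φ => ℂ) ψ).comp
          (LinearMap.proj (R := ℂ) (φ := fun i => ((prodOf j x hx).factor i).Φ → ℂ) q)),
    fun w => ?_⟩
  funext q ψ
  exact (map_mul ψ.1 (elt j x hx δ hδ q) (w q)).symm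

theorem ev_mulBy (δ : L) (hδ : ∀ q, δ ∈ fld (x q)) (hfix : ∀ τ ∈ N, τ δ = δ) (k : Orb N x)
    (w : (prodOf j x hx).H1) :
    ev (mulBy j x hx δ hδ w) (orbWt j N x hx k) = δ * ev w (orbWt j N x hx k) := by
  have h1 : ev (mulBy j x hx δ hδ w) (orbWt j N x hx k) =
      k.2.2.choose δ * ev w (orbWt j N x hx k) :=
    map_mul (orbWt j N x hx k).2 (elt j x hx δ hδ k.1) (w k.1)
  rw [h1, hfix _ k.2.2.choose_spec.1]

theorem mulBy_mulBy (δ : L) (hδ : ∀ q, δ ∈ fld (x q)) (d : ℕ) (hd : δ * δ = -(d : L))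
    (w : (prodOf j x hx).H1) :
    mulBy j x hx δ hδ (mulBy j x hx δ hδ w) = -((d : ℚ) • w) := by
  funext q
  have h0 : (⟨δ, hδ q⟩ : fld (x q)) * ⟨δ, hδ q⟩ = -(d : fld (x q)) := by
    refine Subtype.ext ?_
    change δ * δ = -(((d : fld (x q)) : L))
    rw [hd]
    rfl
  have h1 : elt j x hx δ hδ q * elt j x hx δ hδ q = -(d : ((prodOf j x hx).factor q).E) := h0
  change elt j x hx δ hδ q * (elt j x hx δ hδ q * w q) = -((d : ℚ) • w q)
  rw [← mul_assoc, h1, Rat.smul_def, Rat.cast_natCast, neg_mul]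

variable [DecidableEq (Orb N x)] [Fintype (Orb N x)]

theorem mono_scale {κ : Type} [Fintype κ] [DecidableEq κ] {Y : CMAV} (J : κ → Wt Y L)
    (h : Y.H1 → Y.H1) (δ : L) (hh : ∀ w k, ev (h w) (J k) = δ * ev w (J k)) (v : κ → Y.H1)
    (k : κ) : mono J (Function.update v k (h (v k))) = δ * mono J v := by
  rw [mono_eq_det, mono_eq_det]
  have h1 : (Matrix.of fun a l => ev (Function.update v k (h (v k)) a) (J l)) =
      Matrix.updateRow (Matrix.of fun a l => ev (v a) (J l)) k
        (δ • (Matrix.of fun a l => ev (v a) (J l)) k) := by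
    ext a l
    by_cases ha : a = k
    · subst ha
      rw [Matrix.updateRow_self, Matrix.of_apply, Function.update_self, hh]
      rfl
    · rw [Matrix.updateRow_ne ha, Matrix.of_apply, Function.update_of_ne ha]
      rfl
  rw [h1, Matrix.det_updateRow_smul, Matrix.updateRow_eq_self]

end main

end

end Pool.Agent.W547.LD
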